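import Pool.Agent.Helper89.RAD.Kw
import Pool.Agent.Helper89.RAK.Idp
import Pool.Agent.Helper3.KL.Cor

/-! DEEP K-LABELS, THE STRUCTURE THEOREM AT ALL WINDOWS and THE IDENTITY of the volume, the gradient and the projection.
Deep convention: condition `R` at the point, `R` a literal resolution of the point. `STm` for all numbers of types in
dimension `M` gives: the volume of an optimal K-form is at most the entropy of the point over EVERY K-label of the window;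
so the label of every optimal K-form is universal for the point. `STm` in dimension `d` gives the identity in dimension
`d + 1`, over every K-label. -/

set_option autoImplicit false

namespace Pool.Agent.Helper89.RAD

open Finset Filter Topology Matrix Pool.Agent.Helper69.RK Pool.Agent.Helper31.EC Pool.Agent.Helper31.EC.Sp
open Pool.Agent.Helper40.EL Pool.Agent.Helper89.LX Pool.Agent.Helper3.LF Pool.Agent.Helper84.MT Pool.Agent.Helper26.MZ
open Pool.Agent.Helper95.LF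
open Pool.Agent.Helper89.RAK (KC Lit addW_kz comp_kz ovl_kz DomJ optK_dom volK_le volK_eq zxK_le zxK_eq zf1 zf1_adf
  vol_prj prK prK_v prK_eq prK_lit slf_K volz_P0)
open Pool.Agent.Helper91.RAT (h_join leak_win)
open Pool.Agent.Helper14.MC (adf_sub gx vx vol_eq vx_UB vx_nonneg cnt_vol)
open Pool.Agent.Helper89.RAT (zx zx_inn)

noncomputable section

variable {S : Sp} {M D : ℕ} {E : ℕ → ℕ} {ι : Type} {A : Part S} {R : ∀ k, Setoid (S.F k).Ω} {Y : S.L}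

/-- the deep conditions are the conditions `cndR` of helper87 -/
theorem cnA_dp (s : MSys S M E ι) (R : ∀ k, Setoid (S.F k).Ω) (c : ℝ) :
    cnA s (dp R) c = Pool.Agent.Helper87.NSL.cndR s R c := funext fun i => by cases i <;> rfl

section st

variable [Finite ι] {g : ℕ} {s : MSys S M (lin g) ι} (hST : ∀ r, STm D M (lin g) (Fin r)) (hlit : Lit R s.Q)

include hST hlit

/-- `ST` at the window `0`, over every K-label -/
theorem stD0 {l : Lab S} (hl : DMD s (dp R) R 0 l) {x : ∀ k, FD (S.F k) (Mon M D)}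
    (hx : (gaq s.Q D).OptfK (KC R) (cnA s (dp R) 0) x) : vol s.Q D x ≤ H (up1 l (s.Q.dg 1)) :=
  Pool.Agent.Helper3.KL.stk_R hST s (Eventually.of_forall fun k _ _ _ _ _ r => hlit.cell 1 k r)
    (A := cnA s (dp R) 0) rfl (fun _ => rfl) (fun i => hl.1 (some i)) hl.2 hx

/-- `ST` AT EVERY WINDOW, over every K-label -/
theorem stD (hD : 1 ≤ D) {c : ℝ} (h0 : 0 ≤ c) (h1 : c < 1) {l : Lab S} (hl : DMD s (dp R) R c l)
    {x : ∀ k, FD (S.F k) (Mon M D)} (hx : (gaq s.Q D).OptfK (KC R) (cnA s (dp R) c) x) :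
    vol s.Q D x ≤ H (up1 l (s.Q.dg 1)) := by
  have hA := lit_ple hlit c
  set Z : ZW s := mkD h0 h1 hA hl with hZ
  have hAl : Nul S fun k => (Z.l k).leak (dp R k) := mkD_leak h0 h1 hA hl
  have hkz : (KC R).ev Z.l := mkD_kz h0 h1 hA hlit hl
  have hx' : (gaq s.Q D).OptfK (KC R) (cnA s (dp R) (Z.c + Z.e * 0)) x := by
    rw [mul_zero, add_zero]
    exact hx
  have hy := optD_inn Z hAl hkz le_rfl hx'
  have hv := volD_zoom Z hAl hkz hD le_rfl hy hx'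
  have h3 : DMD Z.sys (dp (zR Z R)) (zR Z R) 0 (fun k => FLab.triv (Z.sp.F k)) := DMD.triv 0
  have h4 : vol Z.sys.Q D (Z.inn x) ≤ H (up1 (fun k => FLab.triv (Z.sp.F k)) (Z.sys.Q.dg 1)) :=
    stD0 (s := Z.sys) hST (lit_zoom Z hlit) h3 hy
  have h5 := H_up1_le (fun k => FLab.triv (Z.sp.F k)) (Z.sys.Q.dg 1)
  have h6 := mkD_H h0 h1 hA hl (s.Q.dg 1)
  have h7 : Z.sys.Q.dg 1 = Z.U (s.Q.dg 1) := Z.Q_dg_one
  rw [h7] at h4 h5
  rw [hv]
  refine le_trans ?_ h6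
  exact mul_le_mul_of_nonneg_left (h4.trans h5) Z.e_pos.le

/-- THE VOLUME IS THE ENTROPY OF THE POINT over the label of the form -/
theorem stD_eq (hD : 1 ≤ D) {c : ℝ} (h0 : 0 ≤ c) (h1 : c < 1) {x : ∀ k, FD (S.F k) (Mon M D)}
    (hx : (gaq s.Q D).OptfK (KC R) (cnA s (dp R) c) x) : vol s.Q D x = H (up1 (lb x) (s.Q.dg 1)) :=
  le_antisymm (stD hST hlit hD h0 h1 ⟨Gau.Adf.dm _ hx.1.1, hx.1.2⟩ hx) (cnt_vol s.Q hD x hx.1.1)

/-- THE LABEL OF EVERY OPTIMAL FORM IS UNIVERSAL for the point -/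
theorem stD_U (hD : 1 ≤ D) {c : ℝ} (h0 : 0 ≤ c) (h1 : c < 1) {x : ∀ k, FD (S.F k) (Mon M D)}
    (hx : (gaq s.Q D).OptfK (KC R) (cnA s (dp R) c) x) : IsU s (dp R) R (s.Q.dg 1) c (lb x) :=
  ⟨⟨Gau.Adf.dm _ hx.1.1, hx.1.2⟩, fun _ h' => (cnt_vol s.Q hD x hx.1.1).trans (stD hST hlit hD h0 h1 h' hx)⟩

end st

section idp

variable [Finite ι] {g d : ℕ} {s : MSys S (d + 1) (lin g) ι}

omit [Finite ι] in
/-- the bound from below, any condition at the point -/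
theorem vzD (hD : 1 ≤ D) (hlit : Lit R s.Q) {c : ℝ} {x : ∀ k, FD (S.F k) (Mon (d + 1) D)}
    (hx : (gaq s.Q D).OptfK (KC R) (cnA s A c) x) (j : Fin (d + 1)) (P : S.VV d)
    (hP : ∀ k ω a, P.v k ω a = s.Q.v k ω (j.succAbove a)) :
    H (up1 (lb x) (P.dg 1)) + 1 - zx s.Q j x ≤ vol s.Q D x := by
  have h1 := (slf_K (gaq s.Q D) hx).dmz hx.1.1 (fun k => hlit.cell 1 k) j
  have h2 := volz_P0 hD hx.1.1 j h1 P j.succAbove (fun a => Fin.succAbove_ne j a) (fun k ω a => hP k ω a)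
  linarith

variable (hST : ∀ r, STm D d (lin g) (Fin r)) (hlit : Lit R s.Q) (j : Fin (d + 1)) (P : S.VV d)
  (hP : ∀ k ω a, P.v k ω a = s.Q.v k ω (j.succAbove a))

include hST hlit hP

/-- THE BOUND AT THE WINDOW `0`, over every K-label -/
theorem idPD {l : Lab S} (hl : DMD s (dp R) R 0 l) {x : ∀ k, FD (S.F k) (Mon (d + 1) D)}
    (hx : (gaq s.Q D).OptfK (KC R) (cnA s (dp R) 0) x) : vol s.Q D x ≤ 1 - zx s.Q j x + H (up1 l (P.dg 1)) := by
  obtain ⟨y, hy⟩ := (gaq (prK s j).Q D).exists_optfK (KC R) (cnA (prK s j) (dp R) 0)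
  have hl' : DMD (prK s j) (dp R) R 0 l := by
    rw [DMD_dp] at hl ⊢
    exact hl
  have h1 : vol (prK s j).Q D y ≤ H (up1 l ((prK s j).Q.dg 1)) := stD0 hST (prK_lit hlit j) hl' hy
  have h2 : (lb y).DMf (cnA s (dp R) 0) := by
    have h3 : DMD s (dp R) R 0 (lb y) := by
      have h4 : DMD (prK s j) (dp R) R 0 (lb y) := ⟨Gau.Adf.dm _ hy.1.1, hy.1.2⟩
      rw [DMD_dp] at h4 ⊢
      exact h4
    exact h3.1
  have h3 : (gaq s.Q D).Adf (cnA s (dp R) 0) (zf1 s.Q j y) := zf1_adf (fun k ω => prK_v s j k ω) hy.1.1 h2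
  have h5 := optK_dom hx ⟨h3, hy.1.2⟩
  have h6 := vol_prj (fun k ω => prK_v s j k ω) hx.1.1 hy.1.1 h5
  rw [prK_eq s j P hP]
  linarith

/-- THE BOUND AT EVERY WINDOW, over every K-label -/
theorem idPD_win (hD : 1 ≤ D) {c : ℝ} (h0 : 0 ≤ c) (h1 : c < 1) {l : Lab S} (hl : DMD s (dp R) R c l)
    {x : ∀ k, FD (S.F k) (Mon (d + 1) D)} (hx : (gaq s.Q D).OptfK (KC R) (cnA s (dp R) c) x) :
    vol s.Q D x ≤ 1 - zx s.Q j x + H (up1 l (P.dg 1)) := by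
  have hA := lit_ple hlit c
  set Z : ZW s := mkD h0 h1 hA hl with hZ
  have hAl : Nul S fun k => (Z.l k).leak (dp R k) := mkD_leak h0 h1 hA hl
  have hkz : (KC R).ev Z.l := mkD_kz h0 h1 hA hlit hl
  have hx' : (gaq s.Q D).OptfK (KC R) (cnA s (dp R) (Z.c + Z.e * 0)) x := by
    rw [mul_zero, add_zero]
    exact hx
  have hy := optD_inn Z hAl hkz le_rfl hx'
  have hv := volD_zoom Z hAl hkz hD le_rfl hy hx'
  have hz := Z.zx_inn le_rfl j hx'.1.1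
  have hcell : ∀ k ω ω', (Z.l k).T.μ ω ≠ 0 → (Z.l k).T.μ ω' ≠ 0 → (Z.l k).V ω ω' → (Z.l k).T.Z ω ω' →
      P.cellv Z.c k ((Z.l k).p.π ω) = P.cellv Z.c k ((Z.l k).p.π ω') := by
    intro k ω ω' a b c d
    have h2 := Z.cell k ω ω' a b c d
    funext i
    have h3 := congrFun h2 (j.succAbove i)
    show ⌊P.v k ((Z.l k).p.π ω) i / S.dl Z.c k⌋ = ⌊P.v k ((Z.l k).p.π ω') i / S.dl Z.c k⌋
    rw [hP, hP]
    exact h3
  have h3 : DMD Z.sys (dp (zR Z R)) (zR Z R) 0 (fun k => FLab.triv (Z.sp.F k)) := DMD.triv 0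
  have h2 := idPD (s := Z.sys) hST (lit_zoom Z hlit) j (Z.fr P) (by
    intro k ω a
    show P.v k ((Z.l k).p.π ω) a / S.dl Z.c k - ⌊P.v k ((Z.l k).p.π ω) a / S.dl Z.c k⌋ =
      s.Q.v k ((Z.l k).p.π ω) (j.succAbove a) / S.dl Z.c k -
        ⌊s.Q.v k ((Z.l k).p.π ω) (j.succAbove a) / S.dl Z.c k⌋
    rw [hP]) h3 hy
  have h4 := H_up1_le (fun k => FLab.triv (Z.sp.F k)) ((Z.fr P).dg 1)
  have h5 : (Z.fr P).dg 1 = Z.U (P.dg 1) := by
    rw [Z.fr_dg P hcell, mul_one, Z.c_add_e]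
  have h6 := mkD_H h0 h1 hA hl (P.dg 1)
  rw [h5] at h2 h4
  have he := Z.e_pos
  have h9 : Z.e * vol Z.sys.Q D (Z.inn x) ≤ Z.e * (1 - zx Z.sys.Q j (Z.inn x) + H (Z.U (P.dg 1))) :=
    mul_le_mul_of_nonneg_left (by linarith) he.le
  have h10 : Z.e * (1 - zx Z.sys.Q j (Z.inn x) + H (Z.U (P.dg 1))) =
      Z.e - Z.e * zx Z.sys.Q j (Z.inn x) + Z.e * H (Z.U (P.dg 1)) := by ring
  rw [hv]
  have h11 := Z.c_add_e
  have h12 : Z.e * H (Z.U (P.dg 1)) ≤ H (up1 l (P.dg 1)) := h6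
  linarith

/-- THE IDENTITY over the label of the form -/
theorem zxD_eq (hD : 1 ≤ D) {c : ℝ} (h0 : 0 ≤ c) (h1 : c < 1)
    {x : ∀ k, FD (S.F k) (Mon (d + 1) D)} (hx : (gaq s.Q D).OptfK (KC R) (cnA s (dp R) c) x) :
    zx s.Q j x = 1 - vol s.Q D x + H (up1 (lb x) (P.dg 1)) := by
  have h2 := idPD_win hST hlit j P hP hD h0 h1 ⟨Gau.Adf.dm _ hx.1.1, hx.1.2⟩ hx
  have h3 := vzD hD hlit hx j P hP
  have h4 : H (up1 (fun k => (x k).l) (P.dg 1)) = H (up1 (lb x) (P.dg 1)) := rfl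
  rw [h4] at h2
  linarith

/-- THE LABEL OF EVERY OPTIMAL FORM IS UNIVERSAL for the projections of the point -/
theorem prD_U (hD : 1 ≤ D) {c : ℝ} (h0 : 0 ≤ c) (h1 : c < 1)
    {x : ∀ k, FD (S.F k) (Mon (d + 1) D)} (hx : (gaq s.Q D).OptfK (KC R) (cnA s (dp R) c) x) :
    IsU s (dp R) R (P.dg 1) c (lb x) := by
  refine ⟨⟨Gau.Adf.dm _ hx.1.1, hx.1.2⟩, fun l' h' => ?_⟩
  have h2 := idPD_win hST hlit j P hP hD h0 h1 h' hx
  have h3 := vzD hD hlit hx j P hP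
  linarith

end idp

end

end Pool.Agent.Helper89.RAD
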