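import Pool.Agent.Helper89.RAD.Kd

/-! DEEP K-LABELS AND ZOOMS: K-labels, universal K-labels, canonical K-forms of a zoom over a K-label are those of the
system; volumes and entropies. -/

set_option autoImplicit false

namespace Pool.Agent.Helper40.EL

open Finset Filter Topology Pool.Agent.Helper69.RK Pool.Agent.Helper31.EC

noncomputable section

namespace FLab

variable {F : FSp} (l : FLab F) (c : ℝ) (hc : 0 < c) (y : FLab F)

/-- entropies over the composed label are the entropies over the join -/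
theorem ovl_h1 (X : FL F) : h ((l.comp c hc (l.ovl c hc y)).p.map X) (l.comp c hc (l.ovl c hc y)).v =
    h ((l.join y).p.map X) (l.join y).v := by
  have e1 : (l.comp c hc (l.ovl c hc y)).p.map X = (l.ovj c hc y).map ((l.join y).p.map X) := by
    induction X using fc_ind
    rfl
  have e2 : (l.comp c hc (l.ovl c hc y)).v = (l.ovj c hc y).map (l.join y).v := rfl
  rw [e1, e2, (l.ovj c hc y).h_map]

theorem ovl_h2 (X Y : FL F) : h ((l.comp c hc (l.ovl c hc y)).p.map X)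
    ((l.comp c hc (l.ovl c hc y)).p.map Y ⊔ (l.comp c hc (l.ovl c hc y)).v) =
    h ((l.join y).p.map X) ((l.join y).p.map Y ⊔ (l.join y).v) := by
  have e0 : ∀ X, (l.comp c hc (l.ovl c hc y)).p.map X = (l.ovj c hc y).map ((l.join y).p.map X) := by
    intro X
    induction X using fc_ind
    rfl
  have e2 : (l.comp c hc (l.ovl c hc y)).v = (l.ovj c hc y).map (l.join y).v := rfl
  rw [e0, e0, e2, ← (l.ovj c hc y).map_sup, (l.ovj c hc y).h_map]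

end FLab

end

end Pool.Agent.Helper40.EL

namespace Pool.Agent.Helper89.RAD

open Finset Filter Topology Matrix Pool.Agent.Helper69.RK Pool.Agent.Helper31.EC Pool.Agent.Helper31.EC.Sp
open Pool.Agent.Helper40.EL Pool.Agent.Helper89.LX Pool.Agent.Helper3.LF Pool.Agent.Helper84.MT Pool.Agent.Helper26.MZ
open Pool.Agent.Helper95.LF
open Pool.Agent.Helper89.RAK (KC Lit addW_kz comp_kz ovl_kz DomJ optK_dom volK_le volK_eq zxK_le zxK_eq)
open Pool.Agent.Helper91.RAT (h_join leak_win)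
open Pool.Agent.Helper14.MC (adf_sub gx vx vol_eq vx_UB vx_nonneg cnt_vol)

noncomputable section

variable {S : Sp} {M D : ℕ} {E : ℕ → ℕ} {ι : Type}

/-- entropies over the composed label are the entropies over the join -/
theorem H_comp_ovl (l : Lab S) (c : ℝ) (hc : 0 < c) (y : Lab S) (X : S.L) :
    H (up1 (l.comp c hc (l.ovl c hc y)) X) = H (up1 (l.join y) X) := by
  rw [H_lab, H_lab]
  congr 1
  funext k
  exact congrArg (· / (S.F k).n) ((l k).ovl_h1 c hc (y k) (rp X k))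

theorem h_comp_ovl (l : Lab S) (c : ℝ) (hc : 0 < c) (y : Lab S) (X Y : S.L) :
    h (up1 (l.comp c hc (l.ovl c hc y)) X) (up1 (l.comp c hc (l.ovl c hc y)) Y) =
      h (up1 (l.join y) X) (up1 (l.join y) Y) := by
  rw [(l.comp c hc (l.ovl c hc y)).hr_upL, (l.join y).hr_upL, div_one, div_one]
  congr 1
  funext k
  exact congrArg (· / (S.F k).n) ((l k).ovl_h2 c hc (y k) (rp X k) (rp Y k))

variable {s : MSys S M E ι} {A : Part S} {R : ∀ k, Setoid (S.F k).Ω} {Y : S.L}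

section zoom

variable (Z : ZW s)

/-- the resolution in the space of the zoom -/
def zR (R : ∀ k, Setoid (S.F k).Ω) (k : ℕ) : Setoid (Z.sp.F k).Ω := Setoid.comap (Z.l k).p.π (R k)

theorem fc_zR (R : ∀ k, Setoid (S.F k).Ω) (k : ℕ) :
    (fc (zR Z R k) : FL (Z.sp.F k)) = (Z.l k).up Z.e Z.e_pos (fc (R k)) := rfl

theorem dp_zR (R : ∀ k, Setoid (S.F k).Ω) : dp (zR Z R) = Z.upz (dp R) := rfl

theorem lit_zoom {p : ℕ} {Q : S.VV p} (h : Lit R Q) : Lit (zR Z R) (Z.fr Q) := by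
  intro k ω ω' r
  have h1 : Q.v k ((Z.l k).p.π ω) = Q.v k ((Z.l k).p.π ω') := h k r
  show (Z.fr Q).v k ω = (Z.fr Q).v k ω'
  funext i
  rw [ZW.fr_v, ZW.fr_v, h1]

/-- K-labels of the zoom over a K-label are K-labels of the system -/
theorem kz_cl (hl : (KC R).ev Z.l) {y : Lab Z.sp} (hy : (KC (zR Z R)).ev y) : (KC R).ev (Z.cl y) := by
  filter_upwards [hl, hy] with k a b
  exact comp_kz (Z.l k) Z.e Z.e_pos (y k) (fc (R k)) a b

theorem kz_ov {y : Lab S} (hy : (KC R).ev y) : (KC (zR Z R)).ev (Z.ov y) := by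
  filter_upwards [hy] with k b
  exact ovl_kz (Z.l k) Z.e Z.e_pos (y k) (fc (R k)) b

theorem DMD.zcl (hA : Nul S fun k => (Z.l k).leak (A k)) (hl : (KC R).ev Z.l) {b : ℝ} (hb : 0 ≤ b) {y : Lab Z.sp}
    (hy : DMD Z.sys (Z.upz A) (zR Z R) b y) : DMD s A R (Z.c + Z.e * b) (Z.cl y) :=
  ⟨Z.DMA_cl hA hb hy.1, kz_cl Z hl hy.2⟩

theorem DMD.zov {b : ℝ} (hb : 0 ≤ b) {y : Lab S} (hy : DMD s A R (Z.c + Z.e * b) y) :
    DMD Z.sys (Z.upz A) (zR Z R) b (Z.ov y) := ⟨Z.DMA_ov hb hy.1, kz_ov Z hy.2⟩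

theorem H_cl_ov (y : Lab S) (X : S.L) : H (up1 (Z.cl (Z.ov y)) X) = H (up1 (Z.l.join y) X) :=
  H_comp_ovl Z.l Z.e Z.e_pos y X

theorem h_cl_ov (y : Lab S) (X Y : S.L) : h (up1 (Z.cl (Z.ov y)) X) (up1 (Z.cl (Z.ov y)) Y) =
    h (up1 (Z.l.join y) X) (up1 (Z.l.join y) Y) := h_comp_ovl Z.l Z.e Z.e_pos y X Y

/-- entropies over labels brought into the zoom -/
theorem H_ov (y : Lab S) (X : S.L) : Z.e * H (up1 (Z.ov y) (Z.U X)) = H (up1 (Z.l.join y) X) := by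
  rw [← Z.H_cl, H_cl_ov]

theorem h_ov (y : Lab S) (X Y : S.L) : Z.e * h (up1 (Z.ov y) (Z.U X)) (up1 (Z.ov y) (Z.U Y)) =
    h (up1 (Z.l.join y) X) (up1 (Z.l.join y) Y) := by
  rw [← Z.h_cl, h_cl_ov]

/-- UNIVERSAL LABELS OF THE ZOOM ARE UNIVERSAL LABELS OF THE SYSTEM -/
theorem IsU.zcl (hA : Nul S fun k => (Z.l k).leak (A k)) (hl : (KC R).ev Z.l) {b : ℝ} (hb : 0 ≤ b) {y : Lab Z.sp}
    (hy : IsU Z.sys (Z.upz A) (zR Z R) (Z.U Y) b y) : IsU s A R Y (Z.c + Z.e * b) (Z.cl y) := by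
  refine ⟨hy.1.zcl Z hA hl hb, fun l' h' => ?_⟩
  have h1 := hy.2 _ (h'.zov Z hb)
  have h2 := mul_le_mul_of_nonneg_left h1 Z.e_pos.le
  rw [H_ov, ← Z.H_cl] at h2
  exact h2.trans (H_join_right Z.l l' Y)

/-- universal labels of the system are universal labels of the zoom -/
theorem IsU.zov (hA : Nul S fun k => (Z.l k).leak (A k)) (hl : (KC R).ev Z.l) {b : ℝ} (hb : 0 ≤ b) {y : Lab S}
    (h : IsU s A R Y (Z.c + Z.e * b) y) : IsU Z.sys (Z.upz A) (zR Z R) (Z.U Y) b (Z.ov y) := by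
  refine ⟨h.1.zov Z hb, fun l' h' => ?_⟩
  have h1 := h.2 _ (h'.zcl Z hA hl hb)
  have h2 := H_join_right Z.l y Y
  rw [← H_ov] at h2
  rw [Z.H_cl] at h1
  exact le_of_mul_le_mul_left (h2.trans h1) Z.e_pos

theorem adfD_out [Finite ι] (hA : Nul S fun k => (Z.l k).leak (A k)) (hl : (KC R).ev Z.l) {b : ℝ} (hb : 0 ≤ b)
    {y : ∀ k, FD (Z.sp.F k) (Mon M D)} (hy : (gaq Z.sys.Q D).AdfK (KC (zR Z R)) (cnA Z.sys (Z.upz A) b) y) :
    (gaq s.Q D).AdfK (KC R) (cnA s A (Z.c + Z.e * b)) (Z.out y) := ⟨Z.out_ad hA hb hy.1, kz_cl Z hl hy.2⟩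

theorem adfD_inn [Finite ι] {b : ℝ} (hb : 0 ≤ b) {x : ∀ k, FD (S.F k) (Mon M D)}
    (hx : (gaq s.Q D).AdfK (KC R) (cnA s A (Z.c + Z.e * b)) x) :
    (gaq Z.sys.Q D).AdfK (KC (zR Z R)) (cnA Z.sys (Z.upz A) b) (Z.inn x) := ⟨Z.inn_ad hb hx.1, kz_ov Z hx.2⟩

/-- OPTIMAL K-FORMS OF THE ZOOM ARE OPTIMAL K-FORMS OF THE SYSTEM -/
theorem optD_out [Finite ι] (hA : Nul S fun k => (Z.l k).leak (A k)) (hl : (KC R).ev Z.l) {b : ℝ} (hb : 0 ≤ b)
    {y : ∀ k, FD (Z.sp.F k) (Mon M D)} (hy : (gaq Z.sys.Q D).OptfK (KC (zR Z R)) (cnA Z.sys (Z.upz A) b) y) :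
    (gaq s.Q D).OptfK (KC R) (cnA s A (Z.c + Z.e * b)) (Z.out y) := by
  refine ⟨adfD_out Z hA hl hb hy.1, fun x hx => ?_⟩
  have h1 := Z.sc_inn hb hx.1
  have h2 := mul_le_mul_of_nonneg_left (hy.2 _ (adfD_inn Z hb hx)) Z.e_pos.le
  have h3 := Z.sc_out hA hb hy.1.1
  linarith

/-- OPTIMAL K-FORMS OF THE SYSTEM ARE OPTIMAL K-FORMS OF THE ZOOM -/
theorem optD_inn [Finite ι] (hA : Nul S fun k => (Z.l k).leak (A k)) (hl : (KC R).ev Z.l) {b : ℝ} (hb : 0 ≤ b)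
    {x : ∀ k, FD (S.F k) (Mon M D)} (hx : (gaq s.Q D).OptfK (KC R) (cnA s A (Z.c + Z.e * b)) x) :
    (gaq Z.sys.Q D).OptfK (KC (zR Z R)) (cnA Z.sys (Z.upz A) b) (Z.inn x) := by
  refine ⟨adfD_inn Z hb hx.1, fun y hy => ?_⟩
  have h1 := Z.sc_inn hb hx.1.1
  have h2 := hx.2 _ (adfD_out Z hA hl hb hy)
  have h3 := Z.sc_out hA hb hy.1
  have h4 : Z.e * ul (fun k => (y k).sc / (Z.sp.F k).n) ≤ Z.e * ul (fun k => (Z.inn x k).sc / (Z.sp.F k).n) := by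
    linarith
  exact le_of_mul_le_mul_left h4 Z.e_pos

theorem IsCanD.out [Finite ι] (hA : Nul S fun k => (Z.l k).leak (A k)) (hl : (KC R).ev Z.l) {b : ℝ} (hb : 0 ≤ b)
    {y : ∀ k, FD (Z.sp.F k) (Mon M D)} (hy : IsCanD Z.sys (Z.upz A) (zR Z R) (Z.U Y) D b y) :
    IsCanD s A R Y D (Z.c + Z.e * b) (Z.out y) := ⟨optD_out Z hA hl hb hy.1, hy.2.zcl Z hA hl hb⟩

theorem IsCanD.inn [Finite ι] (hA : Nul S fun k => (Z.l k).leak (A k)) (hl : (KC R).ev Z.l) {b : ℝ} (hb : 0 ≤ b)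
    {x : ∀ k, FD (S.F k) (Mon M D)} (hx : IsCanD s A R Y D (Z.c + Z.e * b) x) :
    IsCanD Z.sys (Z.upz A) (zR Z R) (Z.U Y) D b (Z.inn x) := ⟨optD_inn Z hA hl hb hx.1, hx.2.zov Z hA hl hb⟩

/-- THE VOLUMES of the zoom and of the system -/
theorem volD_zoom [Finite ι] (hA : Nul S fun k => (Z.l k).leak (A k)) (hl : (KC R).ev Z.l) (hD : 1 ≤ D) {b : ℝ}
    (hb : 0 ≤ b) {y : ∀ k, FD (Z.sp.F k) (Mon M D)}
    (hy : (gaq Z.sys.Q D).OptfK (KC (zR Z R)) (cnA Z.sys (Z.upz A) b) y)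
    {x : ∀ k, FD (S.F k) (Mon M D)} (hx : (gaq s.Q D).OptfK (KC R) (cnA s A (Z.c + Z.e * b)) x) :
    vol s.Q D x = Z.e * vol Z.sys.Q D y := by
  apply le_antisymm
  · exact (volK_le hx (adfD_out Z hA hl hb hy.1)).trans (Z.vol_out_le hD hA hb hy.1.1)
  · refine le_trans ?_ (Z.vol_inn_le hb hx.1.1)
    exact mul_le_mul_of_nonneg_left (volK_le hy (adfD_inn Z hb hx.1)) Z.e_pos.le

/-- entropies over universal K-labels of the zoom and of the system -/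
theorem H_U (hA : Nul S fun k => (Z.l k).leak (A k)) (hl : (KC R).ev Z.l) {b : ℝ} (hb : 0 ≤ b) {L : Lab S}
    (hL : IsU s A R Y (Z.c + Z.e * b) L) {y : Lab Z.sp}
    (hy : IsU Z.sys (Z.upz A) (zR Z R) (Z.U Y) b y) {X : S.L} (hX : X ≤ Y) : H (up1 L X) = Z.e * H (up1 y (Z.U X)) := by
  rw [← Z.H_cl, hL.H_eq (hy.zcl Z hA hl hb) hX]

theorem h_U (hA : Nul S fun k => (Z.l k).leak (A k)) (hl : (KC R).ev Z.l) {b : ℝ} (hb : 0 ≤ b) {L : Lab S}
    (hL : IsU s A R Y (Z.c + Z.e * b) L) {y : Lab Z.sp}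
    (hy : IsU Z.sys (Z.upz A) (zR Z R) (Z.U Y) b y) {X X' : S.L} (hX : X ≤ Y) (hX' : X' ≤ Y) :
    h (up1 L X) (up1 L X') = Z.e * h (up1 y (Z.U X)) (up1 y (Z.U X')) := by
  rw [← Z.h_cl, hL.h_eq (hy.zcl Z hA hl hb) hX hX']

end zoom

/-! ### the zoom over a K-label -/

section mk

variable {c : ℝ} (h0 : 0 ≤ c) (h1 : c < 1) (hA : PLe (fun k => fc (Setoid.ker (s.Q.cellv c k))) A)

/-- the zoom over a K-label (after the base has received the cell of level `c`) -/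
def mkD {s : MSys S M E ι} {A : Part S} {R : ∀ k, Setoid (S.F k).Ω} {c : ℝ} (h0 : 0 ≤ c) (h1 : c < 1)
    (hA : PLe (fun k => fc (Setoid.ker (s.Q.cellv c k))) A) {l : Lab S} (hl : DMD s A R c l) : ZW s :=
  mkw s h0 h1 hA hl.1

theorem mkD_c {l : Lab S} (hl : DMD s A R c l) : (mkD h0 h1 hA hl).c = c := rfl

theorem mkD_e {l : Lab S} (hl : DMD s A R c l) : (mkD h0 h1 hA hl).e = 1 - c := rfl

theorem mkD_l {l : Lab S} (hl : DMD s A R c l) : (mkD h0 h1 hA hl).l = cL s c l := rfl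

theorem mkD_leak {l : Lab S} (hl : DMD s A R c l) :
    Nul S fun k => ((mkD h0 h1 hA hl).l k).leak (A k) := cL_DMA h0 h1.le hA hl.1 none

theorem mkD_kz (hlit : Lit R s.Q) {l : Lab S} (hl : DMD s A R c l) : (KC R).ev (mkD h0 h1 hA hl).l := kz_cL hlit hl.2

/-- entropies of the zoom over a K-label are at most the entropies over the label -/
theorem mkD_H {l : Lab S} (hl : DMD s A R c l) (X : S.L) :
    (mkD h0 h1 hA hl).e * H ((mkD h0 h1 hA hl).U X) ≤ H (up1 l X) := by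
  set Z := mkD h0 h1 hA hl with hZ
  have h5 := Z.l.H_upL Z.e Z.e_pos X
  have h6 := Z.l.H_upL 1 one_pos X
  rw [div_one] at h6
  have h7 : H (Z.U X) = H (Z.l.upL Z.e Z.e_pos X) := rfl
  have h8 : H (up1 Z.l X) = H (Z.l.upL 1 one_pos X) := rfl
  have h9 : H (up1 Z.l X) ≤ H (up1 l X) := H_addW_le l (cW s c l) X
  rw [h7, h5, ← h6, ← h8, mul_div_cancel₀ _ Z.e_pos.ne']
  exact h9

end mk

end

end Pool.Agent.Helper89.RAD
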