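import Pool.Agent.Helper89.RAD.Ze
import Pool.Agent.Helper89.RAK.Zom
import Pool.Agent.Helper91.RAT.Gn

/-! DEEP K-LABELS. Labels of the window `c` with condition `A` at the point (any partition; `A = R` is the deep
convention, `A = ` cells of the point is the visible one), without leak at the windows of the types, whose leak at the
resolution `R` is exactly zero. The information of such labels need not be bounded: instead of maximality we use
universality for a bounded variable `Y` (the entropy of `Y` over the label is the smallest one); it is inherited by all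
`X ≤ Y`, by joins, by zooms. -/

set_option autoImplicit false

namespace Pool.Agent.Helper89.RAD

open Finset Filter Topology Matrix Pool.Agent.Helper69.RK Pool.Agent.Helper31.EC Pool.Agent.Helper31.EC.Sp
open Pool.Agent.Helper40.EL Pool.Agent.Helper89.LX Pool.Agent.Helper3.LF Pool.Agent.Helper84.MT Pool.Agent.Helper26.MZ
open Pool.Agent.Helper95.LF
open Pool.Agent.Helper89.RAK (KC Lit addW_kz comp_kz ovl_kz)
open Pool.Agent.Helper91.RAT (h_join leak_win)

noncomputable section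

variable {S : Sp} {M D : ℕ} {E : ℕ → ℕ} {ι : Type}

/-! ### entropies over labels -/

/-- conditional entropies over labels are bounded -/
theorem h_lab_UB (l : Lab S) (X Y : S.L) :
    UB (fun k => h ((l k).p.map (rp X k)) ((l k).p.map (rp Y k) ⊔ (l k).v) / (S.F k).n) := by
  refine UB.sandwich (UB_const 0) ((rp_Bd X).ub (fun _ => ⊥)) ?_ ?_
  · exact Eventually.of_forall fun k => div_nonneg (h_nonneg _ _) (S.F k).pos.le
  · refine Eventually.of_forall fun k => div_le_div_of_nonneg_right ?_ (S.F k).pos.le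
    rw [h_bot, ← (l k).p.H_map]
    exact h_le_H _ _

theorem H_lab_UB (l : Lab S) (X : S.L) : UB (fun k => h ((l k).p.map (rp X k)) (l k).v / (S.F k).n) := by
  refine UB.sandwich (UB_const 0) ((rp_Bd X).ub (fun _ => ⊥)) ?_ ?_
  · exact Eventually.of_forall fun k => div_nonneg (h_nonneg _ _) (S.F k).pos.le
  · refine Eventually.of_forall fun k => div_le_div_of_nonneg_right ?_ (S.F k).pos.le
    rw [h_bot, ← (l k).p.H_map]
    exact h_le_H _ _

theorem H_lab (l : Lab S) (X : S.L) : H (up1 l X) = ul (fun k => h ((l k).p.map (rp X k)) (l k).v / (S.F k).n) := by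
  rw [l.H_upL, div_one]

/-- conditional entropies over a join are smaller, second label -/
theorem h_join' (l l' : Lab S) (X Y : S.L) :
    h (up1 (l.join l') X) (up1 (l.join l') Y) ≤ h (up1 l' X) (up1 l' Y) := by
  rw [(l.join l').hr_upL, l'.hr_upL, div_one, div_one]
  refine ul_mono (h_lab_UB _ X Y) (h_lab_UB _ X Y)
    (Eventually.of_forall fun k => div_le_div_of_nonneg_right ?_ (S.F k).pos.le)
  have e1 : ∀ x, ((l.join l') k).p.map x = ((l k).am (l' k)).p2.map ((l' k).p.map x) := fun x =>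
    ((l k).join_map (l' k) x).trans ((l k).am_map (l' k) x)
  have e2 : ((l.join l') k).v = ((l k).am (l' k)).p1.map (l k).v ⊔ ((l k).am (l' k)).p2.map (l' k).v :=
    (l k).join_v (l' k)
  rw [e1, e1, e2, ← ((l k).am (l' k)).p2.h_map, ((l k).am (l' k)).p2.map_sup]
  exact h_anti (sup_le_sup_left le_sup_right _)

theorem H_join_left (l l' : Lab S) (X : S.L) : H (up1 (l.join l') X) ≤ H (up1 l X) := by
  rw [H_lab, H_lab]
  refine ul_mono (H_lab_UB _ X) (H_lab_UB _ X)
    (Eventually.of_forall fun k => div_le_div_of_nonneg_right ?_ (S.F k).pos.le)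
  have e1 : ((l.join l') k).p.map (rp X k) = ((l k).am (l' k)).p1.map ((l k).p.map (rp X k)) :=
    (l k).join_map (l' k) _
  have e2 : ((l.join l') k).v = ((l k).am (l' k)).p1.map (l k).v ⊔ ((l k).am (l' k)).p2.map (l' k).v :=
    (l k).join_v (l' k)
  rw [e1, e2, ← ((l k).am (l' k)).p1.h_map]
  exact h_anti le_sup_left

theorem H_join_right (l l' : Lab S) (X : S.L) : H (up1 (l.join l') X) ≤ H (up1 l' X) := by
  rw [H_lab, H_lab]
  refine ul_mono (H_lab_UB _ X) (H_lab_UB _ X)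
    (Eventually.of_forall fun k => div_le_div_of_nonneg_right ?_ (S.F k).pos.le)
  have e1 : ((l.join l') k).p.map (rp X k) = ((l k).am (l' k)).p2.map ((l' k).p.map (rp X k)) :=
    ((l k).join_map (l' k) _).trans ((l k).am_map (l' k) _)
  have e2 : ((l.join l') k).v = ((l k).am (l' k)).p1.map (l k).v ⊔ ((l k).am (l' k)).p2.map (l' k).v :=
    (l k).join_v (l' k)
  rw [e1, e2, ← ((l k).am (l' k)).p2.h_map]
  exact h_anti le_sup_right

/-- a literal refinement of a label has smaller entropies -/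
theorem H_addW_le (l : Lab S) (W : ∀ k, Setoid (l k).T.Ω) (X : S.L) : H (up1 (l.addW W) X) ≤ H (up1 l X) := by
  rw [H_lab, H_lab]
  refine ul_mono (H_lab_UB _ X) (H_lab_UB _ X)
    (Eventually.of_forall fun k => div_le_div_of_nonneg_right ?_ (S.F k).pos.le)
  have h1 : h ((l k).p.map (rp X k)) (fc ((l k).V ⊓ W k) : FL (l k).T) ≤ h ((l k).p.map (rp X k)) (l k).v := by
    apply h_anti
    exact fc_mono inf_le_left
  exact h1

/-! ### K-labels with condition `A` -/

/-- the resolution as a condition -/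
abbrev dp (R : ∀ k, Setoid (S.F k).Ω) : Part S := fun k => fc (R k)

/-- K-LABELS of the window `c`, condition `A` at the point, leak at `R` exactly zero -/
def DMD (s : MSys S M E ι) (A : Part S) (R : ∀ k, Setoid (S.F k).Ω) (c : ℝ) (l : Lab S) : Prop :=
  DMA s A c l ∧ (KC R).ev l

/-- UNIVERSAL K-LABELS for the variable `Y` -/
def IsU (s : MSys S M E ι) (A : Part S) (R : ∀ k, Setoid (S.F k).Ω) (Y : S.L) (c : ℝ) (l : Lab S) : Prop :=
  DMD s A R c l ∧ ∀ l', DMD s A R c l' → H (up1 l Y) ≤ H (up1 l' Y)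

/-- CANONICAL K-FORMS of the window `c`, universal for `Y` -/
def IsCanD (s : MSys S M E ι) (A : Part S) (R : ∀ k, Setoid (S.F k).Ω) (Y : S.L) (D : ℕ) (c : ℝ)
    (x : ∀ k, FD (S.F k) (Mon M D)) : Prop :=
  (gaq s.Q D).OptfK (KC R) (cnA s A c) x ∧ IsU s A R Y c (lb x)

variable {s : MSys S M E ι} {A : Part S} {R : ∀ k, Setoid (S.F k).Ω} {Y : S.L}

theorem DMD.triv (c : ℝ) : DMD s A R c (fun k => FLab.triv (S.F k)) := ⟨Lab.DMf_triv _, (KC R).ev_triv⟩

/-- labels without leak at `R` need no second condition at the point in the deep convention -/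
theorem DMD_dp {c : ℝ} {l : Lab S} : DMD s (dp R) R c l ↔
    (∀ i, Nul S (fun k => (l k).leak ((s.lf i).win c k))) ∧ (KC R).ev l := by
  constructor
  · exact fun h => ⟨fun i => h.1 (some i), h.2⟩
  · rintro ⟨h1, h2⟩
    refine ⟨fun i => ?_, h2⟩
    rcases i with _ | i
    · exact LC.kz_nul h2
    · exact h1 i

theorem DMD.mono {a b : ℝ} (hab : a ≤ b) {l : Lab S} (h : DMD s A R a l) : DMD s A R b l :=
  ⟨DMA.mono hab h.1, h.2⟩

theorem DMD.join {c : ℝ} {l l' : Lab S} (h : DMD s A R c l) (h' : DMD s A R c l') : DMD s A R c (l.join l') :=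
  ⟨Lab.DMf.join h.1 h'.1, LC.ev.join h.2 h'.2⟩

/-- K-labels for a coarser resolution are K-labels -/
theorem DMD.res {c : ℝ} {l : Lab S} (h : DMD s A R c l) {R' : ∀ k, Setoid (S.F k).Ω} (hR : ∀ k, R' k ≤ R k) :
    DMD s A R' c l := ⟨h.1, LC.kz_mono (Eventually.of_forall fun k => fc_mono (hR k)) h.2⟩

/-- finer conditions -/
theorem DMD.fine {c : ℝ} {A' : Part S} (hA : PLe A A') {l : Lab S} (h : DMD s A R c l) : DMD s A' R c l :=
  ⟨DMA.fine hA h.1, h.2⟩

/-! ### universality -/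

theorem IsU.dmd {c : ℝ} {l : Lab S} (h : IsU s A R Y c l) : DMD s A R c l := h.1

theorem IsU.H_le {c : ℝ} {l l' : Lab S} (h : IsU s A R Y c l) (h' : DMD s A R c l') : H (up1 l Y) ≤ H (up1 l' Y) :=
  h.2 l' h'

/-- a label whose entropy is not larger is universal -/
theorem IsU.of_le {c : ℝ} {l l' : Lab S} (h : IsU s A R Y c l) (h' : DMD s A R c l') (hle : H (up1 l' Y) ≤ H (up1 l Y)) :
    IsU s A R Y c l' := ⟨h', fun l2 h2 => hle.trans (h.2 l2 h2)⟩

/-- universality for `Y` is universality for all coarser variables -/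
theorem IsU.down {c : ℝ} {l : Lab S} (hu : IsU s A R Y c l) {X : S.L} (hX : X ≤ Y) : IsU s A R X c l := by
  refine ⟨hu.1, fun l' h' => ?_⟩
  have hj := hu.1.join h'
  have e1 : ∀ l0 : Lab S, H (up1 l0 Y) = H (up1 l0 X) + h (up1 l0 Y) (up1 l0 X) := by
    intro l0
    have h2 : Pool.Agent.Helper31.EC.h (up1 l0 Y) (up1 l0 X) = H (up1 l0 Y ⊔ up1 l0 X) - H (up1 l0 X) := rfl
    rw [h2, ← up1_sup, sup_eq_left.mpr hX]
    ring
  have h3 := hu.2 _ hj
  have h4 := h_join l l' Y X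
  rw [e1 l, e1 (l.join l')] at h3
  have h5 := H_join_right l l' X
  linarith

theorem IsU.H_eq {c : ℝ} {l l' : Lab S} (h : IsU s A R Y c l) (h' : IsU s A R Y c l') {X : S.L} (hX : X ≤ Y) :
    H (up1 l X) = H (up1 l' X) := le_antisymm ((h.down hX).2 _ h'.1) ((h'.down hX).2 _ h.1)

theorem IsU.h_eq {c : ℝ} {l l' : Lab S} (hl : IsU s A R Y c l) (hl' : IsU s A R Y c l') {X X' : S.L} (hX : X ≤ Y)
    (hX' : X' ≤ Y) : h (up1 l X) (up1 l X') = h (up1 l' X) (up1 l' X') := by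
  have h1 : h (up1 l X) (up1 l X') = H (up1 l X ⊔ up1 l X') - H (up1 l X') := rfl
  have h2 : h (up1 l' X) (up1 l' X') = H (up1 l' X ⊔ up1 l' X') - H (up1 l' X') := rfl
  rw [h1, h2, ← up1_sup, ← up1_sup, hl.H_eq hl' (sup_le hX hX'), hl.H_eq hl' hX']

theorem IsU.join_left {c c' : ℝ} (hc : c ≤ c') {l l' : Lab S} (hl : DMD s A R c l) (hl' : IsU s A R Y c' l') :
    IsU s A R Y c' (l.join l') := hl'.of_le ((hl.mono hc).join hl'.1) (H_join_right l l' Y)

theorem IsU.join_right {c c' : ℝ} (hc : c ≤ c') {l l' : Lab S} (hl : DMD s A R c l) (hl' : IsU s A R Y c' l') :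
    IsU s A R Y c' (l'.join l) := hl'.of_le (hl'.1.join (hl.mono hc)) (H_join_left l' l Y)

/-- conditional entropies decrease with the window -/
theorem h_anti_winD {c c' : ℝ} (hc : c ≤ c') {l l' : Lab S} (hl : DMD s A R c l) (hl' : IsU s A R Y c' l') {X X' : S.L}
    (hX : X ≤ Y) (hX' : X' ≤ Y) : h (up1 l' X) (up1 l' X') ≤ h (up1 l X) (up1 l X') := by
  rw [hl'.h_eq (IsU.join_left hc hl hl') hX hX']
  exact h_join l l' X X'

theorem H_anti_winD {c c' : ℝ} (hc : c ≤ c') {l l' : Lab S} (hl : DMD s A R c l) (hl' : IsU s A R Y c' l') {X : S.L}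
    (hX : X ≤ Y) : H (up1 l' X) ≤ H (up1 l X) := (hl'.down hX).2 _ (hl.mono hc)

/-! ### existence -/

/-- UNIVERSAL LABELS EXIST -/
theorem exists_U [Finite ι] (s : MSys S M E ι) (A : Part S) (R : ∀ k, Setoid (S.F k).Ω) (Y : S.L) (c : ℝ) :
    ∃ l, IsU s A R Y c l := by
  classical
  set I0 : Set ℝ := {x | ∃ l : Lab S, DMD s A R c l ∧ x = H (up1 l Y)} with hI0
  have hbd : BddBelow I0 := ⟨0, by rintro x ⟨l, _, rfl⟩; exact H_nonneg _⟩
  have hne : I0.Nonempty := ⟨_, _, DMD.triv c, rfl⟩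
  have h1 : ∀ j : ℕ, ∃ l : Lab S, DMD s A R c l ∧ H (up1 l Y) < sInf I0 + 1 / ((j : ℝ) + 1) := by
    intro j
    have h2 : sInf I0 < sInf I0 + 1 / ((j : ℝ) + 1) := by
      have : (0 : ℝ) < 1 / ((j : ℝ) + 1) := by positivity
      linarith
    obtain ⟨x, ⟨l, hl, rfl⟩, hx⟩ := exists_lt_of_csInf_lt hne h2
    exact ⟨l, hl, hx⟩
  choose l hl hi using h1
  have hG : ∀ j : ℕ, ∀ᶠ k in UF, (∀ i, (l j k).leak (cnA s A c i k) / (S.F k).n ≤ 1 / ((j : ℝ) + 1)) ∧
      (KC R).P k (l j k) ∧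
      Pool.Agent.Helper31.EC.h ((l j k).p.map (rp Y k)) (l j k).v / (S.F k).n ≤ sInf I0 + 1 / ((j : ℝ) + 1) := by
    intro j
    have h5 : (0 : ℝ) < 1 / ((j : ℝ) + 1) := by positivity
    have h6 : ∀ᶠ k in UF, ∀ i, (l j k).leak (cnA s A c i k) / (S.F k).n ≤ 1 / ((j : ℝ) + 1) := by
      rw [eventually_all]
      intro i
      filter_upwards [((hl j).1 i).eventually (gt_mem_nhds h5)] with k hk using hk.le
    have h7 := ul_tendsto (H_lab_UB (l j) Y)
    rw [← H_lab] at h7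
    filter_upwards [h6, (hl j).2, h7.eventually (gt_mem_nhds (hi j))] with k a b d using ⟨a, b, d.le⟩
  obtain ⟨y, J, hJ, hy, hG'⟩ := dia' (X := fun k => FLab (S.F k)) l (fun j k x =>
      (∀ i, x.leak (cnA s A c i k) / (S.F k).n ≤ 1 / ((j : ℝ) + 1)) ∧ (KC R).P k x ∧
      Pool.Agent.Helper31.EC.h (x.p.map (rp Y k)) x.v / (S.F k).n ≤ sInf I0 + 1 / ((j : ℝ) + 1)) hG
  have h0 : Tendsto (fun k => 1 / ((J k : ℝ) + 1)) UF (𝓝 0) := tendsto_one_div_add_atTop_nhds_zero_nat.comp hJ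
  have hDM : DMA s A c y := by
    intro i
    refine tendsto_of_tendsto_of_tendsto_of_le_of_le' tendsto_const_nhds h0 ?_ ?_
    · exact Eventually.of_forall fun k => div_nonneg ((y k).leak_nonneg _) (S.F k).pos.le
    · filter_upwards [hG'] with k hk using hk.1 i
  have hCy : (KC R).ev y := by filter_upwards [hG'] with k hk using hk.2.1
  refine ⟨y, ⟨hDM, hCy⟩, fun l' h' => ?_⟩
  have h8 : sInf I0 ≤ H (up1 l' Y) := csInf_le hbd ⟨l', h', rfl⟩
  refine le_trans ?_ h8
  have h9 := ul_tendsto (H_lab_UB y Y)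
  rw [← H_lab] at h9
  have h10 := h0.const_add (sInf I0)
  rw [add_zero] at h10
  exact le_of_tendsto_of_tendsto h9 h10 (by filter_upwards [hG'] with k hk using hk.2.2)

/-- one label which is universal for countably many variables -/
theorem exists_Us [Finite ι] (s : MSys S M E ι) (A : Part S) (R : ∀ k, Setoid (S.F k).Ω) (Y : ℕ → S.L) (c : ℝ) :
    ∃ l, ∀ j, IsU s A R (Y j) c l := by
  classical
  have h1 : ∀ j : ℕ, ∃ l, ∀ i, i ≤ j → IsU s A R (Y i) c l := by
    intro j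
    induction j with
    | zero =>
      obtain ⟨l, hl⟩ := exists_U s A R (Y 0) c
      exact ⟨l, fun i hi => by rw [Nat.le_zero.mp hi]; exact hl⟩
    | succ j ih =>
      obtain ⟨l, hl⟩ := ih
      obtain ⟨l', hl'⟩ := exists_U s A R (Y (j + 1)) c
      refine ⟨l.join l', fun i hi => ?_⟩
      rcases Nat.lt_or_ge i (j + 1) with h2 | h2
      · exact IsU.join_right le_rfl hl'.1 (hl i (Nat.lt_succ_iff.mp h2))
      · have h3 : i = j + 1 := le_antisymm hi h2
        rw [h3]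
        exact IsU.join_left le_rfl (hl 0 (Nat.zero_le _)).1 hl'
  choose l hl using h1
  have hdm : ∀ j, DMD s A R c (l j) := fun j => (hl j 0 (Nat.zero_le _)).1
  have hG : ∀ j : ℕ, ∀ᶠ k in UF, (∀ i, (l j k).leak (cnA s A c i k) / (S.F k).n ≤ 1 / ((j : ℝ) + 1)) ∧
      (KC R).P k (l j k) ∧ ∀ i ∈ {i : ℕ | i ≤ j},
      Pool.Agent.Helper31.EC.h ((l j k).p.map (rp (Y i) k)) (l j k).v / (S.F k).n ≤
        H (up1 (l i) (Y i)) + 1 / ((j : ℝ) + 1) := by
    intro j
    have h5 : (0 : ℝ) < 1 / ((j : ℝ) + 1) := by positivity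
    have h6 : ∀ᶠ k in UF, ∀ i, (l j k).leak (cnA s A c i k) / (S.F k).n ≤ 1 / ((j : ℝ) + 1) := by
      rw [eventually_all]
      intro i
      filter_upwards [((hdm j).1 i).eventually (gt_mem_nhds h5)] with k hk using hk.le
    have h7 : ∀ᶠ k in UF, ∀ i ∈ {i : ℕ | i ≤ j},
      Pool.Agent.Helper31.EC.h ((l j k).p.map (rp (Y i) k)) (l j k).v / (S.F k).n ≤
        H (up1 (l i) (Y i)) + 1 / ((j : ℝ) + 1) := by
      refine (Filter.eventually_all_finite (show {i : ℕ | i ≤ j}.Finite from Set.finite_Iic j)).mpr ?_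
      intro i hi
      have h8 := ul_tendsto (H_lab_UB (l j) (Y i))
      rw [← H_lab] at h8
      have h9 : H (up1 (l j) (Y i)) ≤ H (up1 (l i) (Y i)) := (hl j i hi).2 _ (hdm i)
      filter_upwards [h8.eventually (gt_mem_nhds (lt_of_le_of_lt h9 (by linarith :
        H (up1 (l i) (Y i)) < H (up1 (l i) (Y i)) + 1 / ((j : ℝ) + 1))))] with k hk using hk.le
    filter_upwards [h6, (hdm j).2, h7] with k a b d using ⟨a, b, d⟩
  obtain ⟨y, J, hJ, hy, hG'⟩ := dia' (X := fun k => FLab (S.F k)) l (fun j k x =>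
      (∀ i, x.leak (cnA s A c i k) / (S.F k).n ≤ 1 / ((j : ℝ) + 1)) ∧ (KC R).P k x ∧ ∀ i ∈ {i : ℕ | i ≤ j},
      Pool.Agent.Helper31.EC.h (x.p.map (rp (Y i) k)) x.v / (S.F k).n ≤
        H (up1 (l i) (Y i)) + 1 / ((j : ℝ) + 1)) hG
  have h0 : Tendsto (fun k => 1 / ((J k : ℝ) + 1)) UF (𝓝 0) := tendsto_one_div_add_atTop_nhds_zero_nat.comp hJ
  have hDM : DMA s A c y := by
    intro i
    refine tendsto_of_tendsto_of_tendsto_of_le_of_le' tendsto_const_nhds h0 ?_ ?_
    · exact Eventually.of_forall fun k => div_nonneg ((y k).leak_nonneg _) (S.F k).pos.le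
    · filter_upwards [hG'] with k hk using hk.1 i
  have hCy : (KC R).ev y := by filter_upwards [hG'] with k hk using hk.2.1
  refine ⟨y, fun i => ⟨⟨hDM, hCy⟩, fun l' h' => ?_⟩⟩
  refine le_trans ?_ ((hl i i le_rfl).2 l' h')
  have h9 := ul_tendsto (H_lab_UB y (Y i))
  rw [← H_lab] at h9
  have h10 := h0.const_add (H (up1 (l i) (Y i)))
  rw [add_zero] at h10
  refine le_of_tendsto_of_tendsto h9 h10 ?_
  filter_upwards [hG', hJ.eventually (eventually_ge_atTop i)] with k hk h5 using hk.2.2 i h5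

/-- CANONICAL FORMS EXIST: over any K-label, universal for countably many variables -/
theorem exists_canDs [Finite ι] (s : MSys S M E ι) (A : Part S) (R : ∀ k, Setoid (S.F k).Ω) (Y : ℕ → S.L) (D : ℕ)
    (c : ℝ) : ∃ x, ∀ j, IsCanD s A R (Y j) D c x := by
  obtain ⟨x, hx⟩ := (gaq s.Q D).exists_optfK (KC R) (cnA s A c)
  obtain ⟨l, hl⟩ := exists_Us s A R Y c
  have h0 := Gau.OptfK.jn (gaq s.Q D) hx (hl 0).1.1 (hl 0).1.2
  have hx' : DMD s A R c (lb x) := ⟨Gau.Adf.dm _ hx.1.1, hx.1.2⟩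
  exact ⟨_, fun j => ⟨h0, IsU.join_left le_rfl hx' (hl j)⟩⟩

theorem exists_canD [Finite ι] (s : MSys S M E ι) (A : Part S) (R : ∀ k, Setoid (S.F k).Ω) (Y : S.L) (D : ℕ)
    (c : ℝ) : ∃ x, IsCanD s A R Y D c x := by
  obtain ⟨x, hx⟩ := exists_canDs s A R (fun _ => Y) D c
  exact ⟨x, hx 0⟩

/-- the join of a canonical form with a K-label is canonical -/
theorem IsCanD.jn [Finite ι] {c : ℝ} {x : ∀ k, FD (S.F k) (Mon M D)} (hx : IsCanD s A R Y D c x) {l : Lab S}
    (hl : DMD s A R c l) : IsCanD s A R Y D c (fun k => (x k).jn (l k)) :=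
  ⟨Gau.OptfK.jn (gaq s.Q D) hx.1 hl.1 hl.2, IsU.join_right le_rfl hl hx.2⟩

/-! ### the base knows the cell of level `c` -/

theorem kz_cL {c : ℝ} (hlit : Lit R s.Q) {l : Lab S} (h : (KC R).ev l) : (KC R).ev (cL s c l) :=
  Pool.Agent.Helper89.RAK.kz_cL hlit h

theorem DMD.cL {c : ℝ} (h0 : 0 ≤ c) (h1 : c ≤ 1) (hlit : Lit R s.Q)
    (hA : PLe (fun k => fc (Setoid.ker (s.Q.cellv c k))) A) {l : Lab S} (h : DMD s A R c l) :
    DMD s A R c (cL s c l) := ⟨cL_DMA h0 h1 hA h.1, kz_cL hlit h.2⟩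

theorem IsU.cL {c : ℝ} (h0 : 0 ≤ c) (h1 : c ≤ 1) (hlit : Lit R s.Q)
    (hA : PLe (fun k => fc (Setoid.ker (s.Q.cellv c k))) A) {l : Lab S} (h : IsU s A R Y c l) :
    IsU s A R Y c (cL s c l) := h.of_le (h.1.cL h0 h1 hlit hA) (H_addW_le l _ Y)

/-- the deep condition knows the cells -/
theorem lit_ple {p : ℕ} {Q : S.VV p} (hlit : Lit R Q) (c : ℝ) :
    PLe (fun k => fc (Setoid.ker (Q.cellv c k))) (dp R) := PLe_of_le fun k => fc_mono (hlit.cell c k)

end

end Pool.Agent.Helper89.RAD
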