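import Pool.Agent.Helper89.RAD.Kw

/-! DEEP K-LABELS, RIGHT CONTINUITY IN THE WINDOW: the entropy of a variable over the universal K-labels, the conditional
entropies of coarser variables, the volume, the numbers `h(y_r | B, kappa_c)`. The information of the labels need not be
bounded. -/

set_option autoImplicit false

namespace Pool.Agent.Helper89.RAD

open Finset Filter Topology Matrix Pool.Agent.Helper69.RK Pool.Agent.Helper31.EC Pool.Agent.Helper31.EC.Sp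
open Pool.Agent.Helper40.EL Pool.Agent.Helper89.LX Pool.Agent.Helper3.LF Pool.Agent.Helper84.MT Pool.Agent.Helper26.MZ
open Pool.Agent.Helper95.LF
open Pool.Agent.Helper89.RAK (KC Lit addW_kz comp_kz ovl_kz DomJ optK_dom volK_le volK_eq zxK_le zxK_eq)
open Pool.Agent.Helper91.RAT (h_join leak_win inc_eq)
open Pool.Agent.Helper14.MC (adf_sub gx vx vol_eq vx_UB vx_nonneg cnt_vol)

noncomputable section

variable {S : Sp} {M D : ℕ} {E : ℕ → ℕ} {ι : Type} {A : Part S} {R : ∀ k, Setoid (S.F k).Ω} {Y : S.L}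

/-- leaks at two windows -/
theorem leak_winA (s : MSys S M E ι) (A : Part S) (i : Option ι) {c c' : ℝ} (hc : c ≤ c') {ε : ℝ} (hε : 0 < ε) :
    ∀ᶠ k in UF, ∀ l : FLab (S.F k), l.leak (cnA s A c i k) ≤
      l.leak (cnA s A c' i k) + (E 0 * (c' - c) + ε) * (S.F k).n := by
  rcases i with _ | i
  · refine Eventually.of_forall fun k l => ?_
    have hn := (S.F k).pos
    have h1 : 0 ≤ (E 0 * (c' - c) + ε) * (S.F k).n := by
      have : (0 : ℝ) ≤ E 0 * (c' - c) := mul_nonneg (Nat.cast_nonneg _) (by linarith)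
      positivity
    show l.leak (A k) ≤ l.leak (A k) + _
    linarith
  · exact leak_win s (some i) hc hε

/-! ### the volume of the optimal forms -/

theorem adfD_mono [Finite ι] {s : MSys S M E ι} {a b : ℝ} (hab : a ≤ b) {x : ∀ k, FD (S.F k) (Mon M D)}
    (hx : (gaq s.Q D).AdfK (KC R) (cnA s A a) x) : (gaq s.Q D).AdfK (KC R) (cnA s A b) x :=
  ⟨hx.1.mono_of fun i => ⟨i, cnA_mono s A hab i⟩, hx.2⟩

/-- the volume of the K-labels of the window `c` -/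
def volD [Finite ι] (s : MSys S M E ι) (A : Part S) (R : ∀ k, Setoid (S.F k).Ω) (D : ℕ) (c : ℝ) : ℝ :=
  vol s.Q D ((gaq s.Q D).exists_optfK (KC R) (cnA s A c)).choose

variable {s : MSys S M E ι}

theorem volD_eq [Finite ι] {c : ℝ} {x : ∀ k, FD (S.F k) (Mon M D)}
    (hx : (gaq s.Q D).OptfK (KC R) (cnA s A c) x) : volD s A R D c = vol s.Q D x :=
  volK_eq ((gaq s.Q D).exists_optfK (KC R) (cnA s A c)).choose_spec hx

theorem volD_anti [Finite ι] (s : MSys S M E ι) (A : Part S) (R : ∀ k, Setoid (S.F k).Ω) (D : ℕ) {a b : ℝ}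
    (hab : a ≤ b) : volD s A R D b ≤ volD s A R D a := by
  obtain ⟨x, hx⟩ := (gaq s.Q D).exists_optfK (KC R) (cnA s A a)
  obtain ⟨y, hy⟩ := (gaq s.Q D).exists_optfK (KC R) (cnA s A b)
  rw [volD_eq hx, volD_eq hy]
  exact volK_le hy (adfD_mono hab hx.1)

theorem volD_le_M [Finite ι] (s : MSys S M E ι) (A : Part S) (R : ∀ k, Setoid (S.F k).Ω) (D : ℕ) (c : ℝ) :
    volD s A R D c ≤ M := by
  obtain ⟨x, hx⟩ := (gaq s.Q D).exists_optfK (KC R) (cnA s A c)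
  rw [volD_eq hx, vol_eq]
  have h1 : 0 ≤ ul (vx s.Q x) := by
    have h2 := ul_mono (UB_const 0) (vx_UB hx.1.1) (vx_nonneg hx.1.1)
    rwa [ul_const] at h2
  linarith

theorem volD_nonneg [Finite ι] (s : MSys S M E ι) (A : Part S) (R : ∀ k, Setoid (S.F k).Ω) (hD : 1 ≤ D) (c : ℝ) :
    0 ≤ volD s A R D c := by
  obtain ⟨x, hx⟩ := (gaq s.Q D).exists_optfK (KC R) (cnA s A c)
  rw [volD_eq hx]
  exact (H_nonneg _).trans (cnt_vol s.Q hD x hx.1.1)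

/-- ordinary labels have smaller volumes than K-labels, deep conditions have larger volumes than the visible ones -/
theorem volD_fine [Finite ι] (s : MSys S M E ι) {A' : Part S} (hA : PLe A A') (R : ∀ k, Setoid (S.F k).Ω) (D : ℕ)
    (c : ℝ) : volD s A' R D c ≤ volD s A R D c := by
  obtain ⟨x, hx⟩ := (gaq s.Q D).exists_optfK (KC R) (cnA s A c)
  obtain ⟨y, hy⟩ := (gaq s.Q D).exists_optfK (KC R) (cnA s A' c)
  rw [volD_eq hx, volD_eq hy]
  exact volK_le hy ⟨hx.1.1.mono_of fun i => ⟨i, cnA_fine s hA c i⟩, hx.1.2⟩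

/-- RIGHT CONTINUITY of the volume -/
theorem vol_rightD [Finite ι] (s : MSys S M E ι) (A : Part S) (R : ∀ k, Setoid (S.F k).Ω) (D : ℕ) (c : ℝ) {ε : ℝ}
    (hε : 0 < ε) : ∃ δ : ℝ, 0 < δ ∧ ∀ c', c ≤ c' → c' < c + δ → volD s A R D c' ≤ volD s A R D c ∧
      volD s A R D c - ε ≤ volD s A R D c' := by
  suffices hs : ∃ δ : ℝ, 0 < δ ∧ ∀ c', c ≤ c' → c' < c + δ → volD s A R D c - ε ≤ volD s A R D c' by
    obtain ⟨δ, hδ, h⟩ := hs
    exact ⟨δ, hδ, fun c' a b => ⟨volD_anti s A R D a, h c' a b⟩⟩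
  by_contra hcon
  push Not at hcon
  have h1 : ∀ j : ℕ, ∃ c' : ℝ, c ≤ c' ∧ c' < c + 1 / ((j : ℝ) + 1) / (2 * ((E 0 : ℝ) + 1)) ∧
      volD s A R D c' < volD s A R D c - ε := by
    intro j
    obtain ⟨c', a, b, d⟩ := hcon (1 / ((j : ℝ) + 1) / (2 * ((E 0 : ℝ) + 1))) (by positivity)
    exact ⟨c', a, b, d⟩
  choose c' hc1 hc2 hlt using h1
  have h2 : ∀ j, ∃ x, (gaq s.Q D).OptfK (KC R) (cnA s A (c' j)) x := fun j =>
    (gaq s.Q D).exists_optfK (KC R) (cnA s A (c' j))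
  choose x hx using h2
  have hE : (0 : ℝ) ≤ E 0 := Nat.cast_nonneg _
  set W : ℝ := M - (volD s A R D c - ε) with hW
  obtain ⟨y, J, hJ, hy, hP⟩ := Gau.diagfK (gaq s.Q D) (KC R) (cnA s A c) x (fun _ k z =>
      W ≤ ∑ ω, z.l.T.μ ω * Pool.Agent.Helper14.MC.gx s.Q k (z.l.p.π ω) (z.g ω)) (by
    intro j
    have hj : (0 : ℝ) < 1 / ((j : ℝ) + 1) := by positivity
    have hj4 : (0 : ℝ) < 1 / ((j : ℝ) + 1) / 4 := by positivity
    have hv : W < ul (Pool.Agent.Helper14.MC.vx s.Q (x j)) := by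
      have a1 := hlt j
      rw [volD_eq (hx j), Pool.Agent.Helper14.MC.vol_eq] at a1
      linarith
    have hl : ∀ᶠ k in UF, ∀ i, ∀ l : FLab (S.F k), l.leak (cnA s A c i k) ≤
        l.leak (cnA s A (c' j) i k) + (E 0 * (c' j - c) + 1 / ((j : ℝ) + 1) / 4) * (S.F k).n := by
      rw [eventually_all]
      exact fun i => leak_winA s A i (hc1 j) hj4
    filter_upwards [(hx j).1.1 _ hj4, hl, eventually_gt_of_lt_ul (Pool.Agent.Helper14.MC.vx_UB (hx j).1.1) hv,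
      (hx j).1.2] with k a b d e
    have hn := (S.F k).pos
    have a' := Gau.Admf.mono (gaq s.Q D) (show 1 / ((j : ℝ) + 1) / 4 ≤ 1 / ((j : ℝ) + 1) by linarith) a
    refine ⟨⟨fun i => ?_, a'.2⟩, e, d.le⟩
    refine (b i (x j k).l).trans ?_
    have h3 := a.1 i
    have h4 : (E 0 : ℝ) * (c' j - c) ≤ 1 / ((j : ℝ) + 1) / 2 := by
      have h5 : c' j - c ≤ 1 / ((j : ℝ) + 1) / (2 * ((E 0 : ℝ) + 1)) := by linarith [hc2 j]
      calc (E 0 : ℝ) * (c' j - c) ≤ ((E 0 : ℝ) + 1) * (1 / ((j : ℝ) + 1) / (2 * ((E 0 : ℝ) + 1))) := by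
            refine mul_le_mul (by linarith) h5 (by linarith [hc1 j]) (by linarith)
        _ = 1 / ((j : ℝ) + 1) / 2 := by
            field_simp
    have h6 := mul_le_mul_of_nonneg_right h4 hn.le
    nlinarith)
  obtain ⟨x0, hx0⟩ := (gaq s.Q D).exists_optfK (KC R) (cnA s A c)
  have h7 := volK_le hx0 hy
  rw [← volD_eq hx0, Pool.Agent.Helper14.MC.vol_eq] at h7
  have h8 : W ≤ ul (Pool.Agent.Helper14.MC.vx s.Q y) := by
    have h9 := ul_mono (UB_const W) (Pool.Agent.Helper14.MC.vx_UB hy.1) hP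
    rwa [ul_const] at h9
  linarith

/-! ### entropies over universal labels -/

/-- RIGHT CONTINUITY of the entropy over the universal labels -/
theorem H_rightU [Finite ι] (s : MSys S M E ι) (A : Part S) (R : ∀ k, Setoid (S.F k).Ω) (Y : S.L) (c : ℝ) {ε : ℝ}
    (hε : 0 < ε) : ∃ δ : ℝ, 0 < δ ∧ ∀ c', c ≤ c' → c' < c + δ → ∀ l l' : Lab S, IsU s A R Y c l → DMD s A R c' l' →
      H (up1 l Y) - ε ≤ H (up1 l' Y) := by
  by_contra hcon
  push Not at hcon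
  have h1 : ∀ j : ℕ, ∃ c' : ℝ, c ≤ c' ∧ c' < c + 1 / ((j : ℝ) + 1) / (2 * ((E 0 : ℝ) + 1)) ∧ ∃ l l' : Lab S,
      IsU s A R Y c l ∧ DMD s A R c' l' ∧ H (up1 l' Y) < H (up1 l Y) - ε := by
    intro j
    obtain ⟨c', a, b, l, l', d, e, f⟩ := hcon (1 / ((j : ℝ) + 1) / (2 * ((E 0 : ℝ) + 1))) (by positivity)
    exact ⟨c', a, b, l, l', d, e, f⟩
  choose c' hc1 hc2 l l' hl hl' hlt using h1
  obtain ⟨l0, hk⟩ := exists_U s A R Y c
  have hH : ∀ j, H (up1 (l j) Y) = H (up1 l0 Y) := fun j => (hl j).H_eq hk le_rfl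
  have hE : (0 : ℝ) ≤ E 0 := Nat.cast_nonneg _
  have h0 : Tendsto (fun j : ℕ => (1 / ((j : ℝ) + 1))) atTop (𝓝 0) := tendsto_one_div_add_atTop_nhds_zero_nat (𝕜 := ℝ)
  have hG : ∀ j : ℕ, ∀ᶠ k in UF, (∀ i, (l' j k).leak (cnA s A c i k) / (S.F k).n ≤ 1 / ((j : ℝ) + 1)) ∧
      (KC R).P k (l' j k) ∧
      Pool.Agent.Helper31.EC.h ((l' j k).p.map (rp Y k)) (l' j k).v / (S.F k).n ≤ H (up1 l0 Y) - ε := by
    intro j
    have hj : (0 : ℝ) < 1 / ((j : ℝ) + 1) := by positivity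
    have hj4 : (0 : ℝ) < 1 / ((j : ℝ) + 1) / 4 := by positivity
    have h3 : ∀ᶠ k in UF, ∀ i, (l' j k).leak (cnA s A c i k) / (S.F k).n ≤ 1 / ((j : ℝ) + 1) := by
      rw [eventually_all]
      intro i
      filter_upwards [leak_winA s A i (hc1 j) hj4, ((hl' j).1 i).eventually (gt_mem_nhds hj4)] with k a b
      have hn := (S.F k).pos
      rw [div_lt_iff₀ hn] at b
      rw [div_le_iff₀ hn]
      refine (a (l' j k)).trans ?_
      have h4 : (E 0 : ℝ) * (c' j - c) ≤ 1 / ((j : ℝ) + 1) / 2 := by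
        have h5 : c' j - c ≤ 1 / ((j : ℝ) + 1) / (2 * ((E 0 : ℝ) + 1)) := by linarith [hc2 j]
        calc (E 0 : ℝ) * (c' j - c) ≤ ((E 0 : ℝ) + 1) * (1 / ((j : ℝ) + 1) / (2 * ((E 0 : ℝ) + 1))) := by
              refine mul_le_mul (by linarith) h5 (by linarith [hc1 j]) (by linarith)
          _ = 1 / ((j : ℝ) + 1) / 2 := by
              field_simp
      have h6 := mul_le_mul_of_nonneg_right h4 hn.le
      nlinarith
    have h7 := ul_tendsto (H_lab_UB (l' j) Y)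
    rw [← H_lab] at h7
    have h8 := hlt j
    rw [hH j] at h8
    filter_upwards [h3, (hl' j).2, h7.eventually (gt_mem_nhds h8)] with k a b d
    exact ⟨a, b, d.le⟩
  obtain ⟨y, J, hJ, hy, hG'⟩ := dia' (X := fun k => FLab (S.F k)) l' (fun j k x =>
      (∀ i, x.leak (cnA s A c i k) / (S.F k).n ≤ 1 / ((j : ℝ) + 1)) ∧ (KC R).P k x ∧
      Pool.Agent.Helper31.EC.h (x.p.map (rp Y k)) x.v / (S.F k).n ≤ H (up1 l0 Y) - ε) hG
  have h0' : Tendsto (fun k => 1 / ((J k : ℝ) + 1)) UF (𝓝 0) := tendsto_one_div_add_atTop_nhds_zero_nat.comp hJ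
  have hDM : DMA s A c y := by
    intro i
    refine tendsto_of_tendsto_of_tendsto_of_le_of_le' tendsto_const_nhds h0' ?_ ?_
    · exact Eventually.of_forall fun k => div_nonneg ((y k).leak_nonneg _) (S.F k).pos.le
    · filter_upwards [hG'] with k hk using hk.1 i
  have hCy : (KC R).ev y := by filter_upwards [hG'] with k hk using hk.2.1
  have h7 := hk.2 y ⟨hDM, hCy⟩
  have h8 : H (up1 y Y) ≤ H (up1 l0 Y) - ε := by
    have h9 := ul_tendsto (H_lab_UB y Y)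
    rw [← H_lab] at h9
    exact le_of_tendsto_of_tendsto h9 tendsto_const_nhds (by filter_upwards [hG'] with k hk using hk.2.2)
  linarith

/-- the loss of the conditional entropies is at most the loss of the entropy of the top variable -/
theorem h_loss {l l' : Lab S} {X X' : S.L} (hX : X ≤ Y) (hX' : X' ≤ Y)
    (hm : ∀ Z Z' : S.L, h (up1 l' Z) (up1 l' Z') ≤ h (up1 l Z) (up1 l Z'))
    (hH : ∀ Z : S.L, H (up1 l' Z) ≤ H (up1 l Z)) {ε : ℝ} (he : H (up1 l Y) - ε ≤ H (up1 l' Y)) :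
    h (up1 l X) (up1 l X') - ε ≤ h (up1 l' X) (up1 l' X') := by
  have e1 : ∀ l0 : Lab S, H (up1 l0 Y) = H (up1 l0 X') + h (up1 l0 X) (up1 l0 X') + h (up1 l0 Y) (up1 l0 (X ⊔ X')) := by
    intro l0
    have h2 : h (up1 l0 Y) (up1 l0 (X ⊔ X')) = H (up1 l0 Y ⊔ up1 l0 (X ⊔ X')) - H (up1 l0 (X ⊔ X')) := rfl
    have h3 : h (up1 l0 X) (up1 l0 X') = H (up1 l0 X ⊔ up1 l0 X') - H (up1 l0 X') := rfl
    rw [h2, h3, ← up1_sup, ← up1_sup, sup_eq_left.mpr (sup_le hX hX')]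
    ring
  have h4 := hm Y (X ⊔ X')
  have h5 := hH X'
  rw [e1 l, e1 l'] at he
  linarith

/-- RIGHT CONTINUITY of the conditional entropies, uniformly in the variables coarser than `Y` -/
theorem h_rightD [Finite ι] (s : MSys S M E ι) (A : Part S) (R : ∀ k, Setoid (S.F k).Ω) (Y : S.L) (c : ℝ) {ε : ℝ}
    (hε : 0 < ε) : ∃ δ : ℝ, 0 < δ ∧ ∀ c', c ≤ c' → c' < c + δ → ∀ l l' : Lab S, IsU s A R Y c l → IsU s A R Y c' l' →
      ∀ X X' : S.L, X ≤ Y → X' ≤ Y →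
      h (up1 l' X) (up1 l' X') ≤ h (up1 l X) (up1 l X') ∧
        h (up1 l X) (up1 l X') - ε ≤ h (up1 l' X) (up1 l' X') := by
  obtain ⟨δ, hδ, h⟩ := H_rightU s A R Y c hε
  refine ⟨δ, hδ, fun c' a b l l' hl hl' X X' hX hX' => ⟨h_anti_winD a hl.1 hl' hX hX', ?_⟩⟩
  have hj := IsU.join_left a hl.1 hl'
  rw [hl'.h_eq hj hX hX']
  exact h_loss hX hX' (fun Z Z' => h_join l l' Z Z') (fun Z => H_join_left l l' Z) (h c' a b l _ hl hj.1)

theorem H_rightD [Finite ι] (s : MSys S M E ι) (A : Part S) (R : ∀ k, Setoid (S.F k).Ω) (Y : S.L) (c : ℝ) {ε : ℝ}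
    (hε : 0 < ε) : ∃ δ : ℝ, 0 < δ ∧ ∀ c', c ≤ c' → c' < c + δ → ∀ l l' : Lab S, IsU s A R Y c l → IsU s A R Y c' l' →
      ∀ X : S.L, X ≤ Y → H (up1 l' X) ≤ H (up1 l X) ∧ H (up1 l X) - ε ≤ H (up1 l' X) := by
  obtain ⟨δ, hδ, h⟩ := H_rightU s A R Y c hε
  refine ⟨δ, hδ, fun c' a b l l' hl hl' X hX => ⟨H_anti_winD a hl.1 hl' hX, ?_⟩⟩
  have hj := IsU.join_left a hl.1 hl'
  rw [hl'.H_eq hj hX]
  have e1 : ∀ l0 : Lab S, H (up1 l0 Y) = H (up1 l0 X) + Pool.Agent.Helper31.EC.h (up1 l0 Y) (up1 l0 X) := by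
    intro l0
    have h2 : Pool.Agent.Helper31.EC.h (up1 l0 Y) (up1 l0 X) = H (up1 l0 Y ⊔ up1 l0 X) - H (up1 l0 X) := rfl
    rw [h2, ← up1_sup, sup_eq_left.mpr hX]
    ring
  have h3 := h c' a b l _ hl hj.1
  have h4 := h_join l l' Y X
  rw [e1 l, e1 (l.join l')] at h3
  linarith

/-! ### the numbers `h(y_r | B, kappa_c)` -/

/-- the universal label of the window -/
def kapD [Finite ι] (s : MSys S M E ι) (A : Part S) (R : ∀ k, Setoid (S.F k).Ω) (Y : S.L) (c : ℝ) : Lab S :=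
  (exists_U s A R Y c).choose

theorem kapD_is [Finite ι] (s : MSys S M E ι) (A : Part S) (R : ∀ k, Setoid (S.F k).Ω) (Y : S.L) (c : ℝ) :
    IsU s A R Y c (kapD s A R Y c) := (exists_U s A R Y c).choose_spec

/-- `h(y_r | B, kappa_c)`, labels universal for `y_1 v B` -/
def gcD [Finite ι] (s : MSys S M E ι) (A : Part S) (R : ∀ k, Setoid (S.F k).Ω) {p : ℕ} (y : S.VV p) (B : S.L)
    (c r : ℝ) : ℝ :=
  h (up1 (kapD s A R (y.dg 1 ⊔ B) c) (y.dg r)) (up1 (kapD s A R (y.dg 1 ⊔ B) c) B)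

section gcd
variable [Finite ι] (s : MSys S M E ι) (A : Part S) (R : ∀ k, Setoid (S.F k).Ω) {p : ℕ} (y : S.VV p) (B : S.L)

variable {s A R} in
theorem gcD_eq {c r : ℝ} (hr : r ≤ 1) {Y : S.L} (hY : y.dg 1 ⊔ B ≤ Y) {l : Lab S} (hl : IsU s A R Y c l) :
    h (up1 l (y.dg r)) (up1 l B) = gcD s A R y B c r :=
  (hl.down hY).h_eq (kapD_is s A R _ c) ((y.dg_mono hr).trans le_sup_left) le_sup_right

theorem gcD_sub (c : ℝ) {a b : ℝ} (hab : a ≤ b) :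
    gcD s A R y B c b - gcD s A R y B c a =
      h (up1 (kapD s A R (y.dg 1 ⊔ B) c) (y.dg b)) (up1 (kapD s A R (y.dg 1 ⊔ B) c) (y.dg a ⊔ B)) :=
  inc_eq _ y B hab

theorem gcD_inc (c : ℝ) {a b : ℝ} (hab : a ≤ b) :
    0 ≤ gcD s A R y B c b - gcD s A R y B c a ∧ gcD s A R y B c b - gcD s A R y B c a ≤ p * (b - a) := by
  rw [gcD_sub s A R y B c hab]
  refine ⟨h_nonneg _ _, ?_⟩
  have h1 : h (up1 (kapD s A R (y.dg 1 ⊔ B) c) (y.dg b)) (up1 (kapD s A R (y.dg 1 ⊔ B) c) (y.dg a ⊔ B)) ≤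
      h (up1 (kapD s A R (y.dg 1 ⊔ B) c) (y.dg b)) (up1 (kapD s A R (y.dg 1 ⊔ B) c) (y.dg a)) :=
    h_anti (up1_mono _ le_sup_left)
  exact h1.trans ((h_up1_le _ _ _).trans (y.h_dg_dg hab))

theorem gcD_anti {c c' : ℝ} (hc : c ≤ c') {a b : ℝ} (hab : a ≤ b) (hb : b ≤ 1) :
    gcD s A R y B c' b - gcD s A R y B c' a ≤ gcD s A R y B c b - gcD s A R y B c a := by
  rw [gcD_sub s A R y B c hab, gcD_sub s A R y B c' hab]
  have hY1 : y.dg b ≤ y.dg 1 ⊔ B := (y.dg_mono hb).trans le_sup_left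
  have hY2 : y.dg a ⊔ B ≤ y.dg 1 ⊔ B := sup_le_sup_right (y.dg_mono (hab.trans hb)) _
  exact h_anti_winD hc (kapD_is s A R _ c).1 (kapD_is s A R _ c') hY1 hY2

theorem gcD_nonneg (c r : ℝ) : 0 ≤ gcD s A R y B c r := h_nonneg _ _

theorem gcD_zero (c : ℝ) : gcD s A R y B c 0 = 0 := by
  have h1 : h (up1 (kapD s A R (y.dg 1 ⊔ B) c) (y.dg 0)) (up1 (kapD s A R (y.dg 1 ⊔ B) c) B) ≤ h (y.dg 0) B :=
    h_up1_le _ _ _
  rw [y.dg_nonpos le_rfl] at h1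
  have h2 : h (⊥ : S.L) B = 0 := h_zero bot_le
  have h3 := gcD_nonneg s A R y B c 0
  unfold gcD at h3 ⊢
  rw [y.dg_nonpos le_rfl] at h3 ⊢
  linarith

theorem gcD_right (c : ℝ) {ε : ℝ} (hε : 0 < ε) :
    ∃ δ : ℝ, 0 < δ ∧ ∀ c', c ≤ c' → c' < c + δ → ∀ r : ℝ, r ≤ 1 →
      gcD s A R y B c' r ≤ gcD s A R y B c r ∧ gcD s A R y B c r - ε ≤ gcD s A R y B c' r := by
  obtain ⟨δ, hδ, h⟩ := h_rightD s A R (y.dg 1 ⊔ B) c hε
  exact ⟨δ, hδ, fun c' a b r hr => h c' a b _ _ (kapD_is s A R _ c) (kapD_is s A R _ c') _ _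
    ((y.dg_mono hr).trans le_sup_left) le_sup_right⟩

/-- the family of `helper75` from a depth -/
theorem fam_ofD (y : S.VV 1) {η : ℝ → ℝ} {C : ℝ} (hC : 0 < C)
    (hm : MonotoneOn η (Set.Icc 0 C)) (h0 : η 0 = 0) (h1 : η C = 1)
    (hr : ∀ c ∈ Set.Ico (0 : ℝ) C, ContinuousWithinAt η (Set.Ici c) c) :
    Pool.Agent.Helper75.MX.Fam η (gcD s A R y B) C where
  hC := hC
  mono := hm
  η0 := h0
  ηC := h1
  rc := hr
  inc := fun c _ a b _ hab _ => by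
    have h2 := gcD_inc s A R y B c hab
    rw [Nat.cast_one, one_mul] at h2
    exact h2
  anti := fun c _ c' _ hcc a b _ hab hb => gcD_anti s A R y B hcc hab hb

end gcd

end

end Pool.Agent.Helper89.RAD
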