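import Pool.Agent.Helper89.RAD.Sd
import Pool.Agent.Helper89.RAD.Rd
import Pool.Agent.Helper89.RAK.Eta

/-! DEEP K-LABELS, THE LEVEL OF ONE COORDINATE which is known at a window, given the other coordinates:
`etaD c = 1 - volD c + H (P_1 | kappa_c)`. Deep convention (condition `R` at the point). It is the mean exponent of the
gradient of every optimal K-form in the direction of the coordinate (`etaD_eq`), it is monotone and right continuous in
the window, zero at the window `0` if the K-hull is trivial, one at the window `1`. -/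

set_option autoImplicit false

namespace Pool.Agent.Helper89.RAD

open Finset Filter Topology Matrix Pool.Agent.Helper69.RK Pool.Agent.Helper31.EC Pool.Agent.Helper31.EC.Sp
open Pool.Agent.Helper40.EL Pool.Agent.Helper89.LX Pool.Agent.Helper3.LF Pool.Agent.Helper84.MT Pool.Agent.Helper26.MZ
open Pool.Agent.Helper95.LF
open Pool.Agent.Helper89.RAK (KC Lit volK_le volK_eq zxK_le zxK_eq)
open Pool.Agent.Helper14.MC (gx vx vol_eq vx_UB vx_nonneg cnt_vol)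
open Pool.Agent.Helper89.RAT (zx zx_le_one zx_nonneg zx_le_vx Q_dg_eq H_Q_eq)
open Pool.Agent.Helper75.MX (Fam gm crit Good)

noncomputable section

variable {S : Sp} {M d D : ℕ} {E : ℕ → ℕ} {ι : Type} {R : ∀ k, Setoid (S.F k).Ω}

/-- the level of one coordinate, given the others, at the window `c` -/
def etaD [Finite ι] (s : MSys S (d + 1) E ι) (R : ∀ k, Setoid (S.F k).Ω) (D : ℕ) (P : S.VV d) (c : ℝ) : ℝ :=
  1 - volD s (dp R) R D c + H (up1 (kapD s (dp R) R (P.dg 1) c) (P.dg 1))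

/-- volumes are small at large windows -/
theorem volD_le_win [Finite ι] (s : MSys S M E ι) (hlit : Lit R s.Q) (hD : 1 ≤ D) {c : ℝ} (h0 : 0 ≤ c) (h1 : c < 1) :
    volD s (dp R) R D c ≤ (1 - c) * M := by
  obtain ⟨x, hx⟩ := (gaq s.Q D).exists_optfK (KC R) (cnA s (dp R) c)
  have hl : DMD s (dp R) R c (lb x) := ⟨Gau.Adf.dm _ hx.1.1, hx.1.2⟩
  have hA := lit_ple hlit c
  set Z : ZW s := mkD h0 h1 hA hl with hZ
  have hAl : Nul S fun k => (Z.l k).leak (dp R k) := mkD_leak h0 h1 hA hl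
  have hkz : (KC R).ev Z.l := mkD_kz h0 h1 hA hlit hl
  have hx' : (gaq s.Q D).OptfK (KC R) (cnA s (dp R) (Z.c + Z.e * 0)) x := by
    rw [mul_zero, add_zero]
    exact hx
  have hy := optD_inn Z hAl hkz le_rfl hx'
  have hv := volD_zoom Z hAl hkz hD le_rfl hy hx'
  have h2 := volD_le_M Z.sys (dp (zR Z R)) (zR Z R) D 0
  have h3 := volD_eq hy
  have h4 : volD Z.sys (Z.upz (dp R)) (zR Z R) D 0 = volD Z.sys (dp (zR Z R)) (zR Z R) D 0 := rfl
  have h5 : Z.e = 1 - c := rfl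
  rw [volD_eq hx, hv, ← h3, h4, ← h5]
  exact mul_le_mul_of_nonneg_left h2 Z.e_pos.le

theorem volD_one [Finite ι] (s : MSys S M E ι) (hlit : Lit R s.Q) (hD : 1 ≤ D) : volD s (dp R) R D 1 = 0 := by
  apply le_antisymm _ (volD_nonneg s _ R hD 1)
  apply le_of_forall_pos_le_add
  intro ε hε
  have hd : (0 : ℝ) < (M + 1 : ℝ) := by positivity
  set t : ℝ := min 1 (ε / (M + 1)) with ht
  have ht0 : 0 < t := lt_min one_pos (by positivity)
  have ht1 : t ≤ 1 := min_le_left _ _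
  have h1 := (volD_anti s (dp R) R D (show 1 - t ≤ 1 by linarith)).trans
    (volD_le_win s hlit hD (c := 1 - t) (by linarith) (by linarith))
  have h2 : t * (M + 1) ≤ ε := by
    have : t ≤ ε / (M + 1) := min_le_right _ _
    rwa [le_div_iff₀ hd] at this
  have h3 : (1 - (1 - t)) * (M : ℝ) ≤ t * (M + 1) := by nlinarith
  linarith

/-- the level is right continuous -/
theorem etaD_right [Finite ι] (s : MSys S (d + 1) E ι) (R : ∀ k, Setoid (S.F k).Ω) (D : ℕ) (P : S.VV d) (c : ℝ) :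
    ContinuousWithinAt (etaD s R D P) (Set.Ici c) c := by
  rw [Metric.continuousWithinAt_iff]
  intro ε hε
  have hε2 : 0 < ε / 2 := by linarith
  obtain ⟨δ, hδ, h⟩ := vol_rightD s (dp R) R D c hε2
  obtain ⟨δ', hδ', h'⟩ := H_rightD s (dp R) R (P.dg 1) c hε2
  refine ⟨min δ δ', lt_min hδ hδ', fun {c'} hc hd => ?_⟩
  have hc0 : c ≤ c' := hc
  rw [Real.dist_eq, abs_of_nonneg (sub_nonneg.mpr hc0)] at hd
  obtain ⟨a1, a2⟩ := h c' hc0 (by linarith [min_le_left δ δ'])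
  obtain ⟨b1, b2⟩ := h' c' hc0 (by linarith [min_le_right δ δ']) _ _ (kapD_is s (dp R) R _ c)
    (kapD_is s (dp R) R _ c') (P.dg 1) le_rfl
  unfold etaD
  rw [Real.dist_eq, abs_lt]
  constructor <;> linarith

/-- the level over any universal label -/
theorem etaD_can [Finite ι] {s : MSys S (d + 1) E ι} {P : S.VV d} {c : ℝ}
    {x : ∀ k, FD (S.F k) (Mon (d + 1) D)} (hx : (gaq s.Q D).OptfK (KC R) (cnA s (dp R) c) x) {Y : S.L}
    (hY : P.dg 1 ≤ Y) {l : Lab S} (hl : IsU s (dp R) R Y c l) :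
    etaD s R D P c = 1 - vol s.Q D x + H (up1 l (P.dg 1)) := by
  unfold etaD
  rw [volD_eq hx, (kapD_is s (dp R) R (P.dg 1) c).H_eq (hl.down hY) le_rfl]

theorem etaD_one [Finite ι] {s : MSys S (d + 1) E ι} {j : Fin (d + 1)} {P : S.VV d}
    (hP : ∀ k ω a, P.v k ω a = s.Q.v k ω (j.succAbove a)) (hD : 1 ≤ D) (hlit : Lit R s.Q) :
    etaD s R D P 1 = 1 := by
  obtain ⟨x, hx⟩ := exists_canD s (dp R) R (P.dg 1) D 1
  have h1 : H (up1 (lb x) (P.dg 1)) ≤ vol s.Q D x := by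
    refine le_trans ?_ (cnt_vol s.Q hD x hx.1.1.1)
    exact H_mono (up1_mono _ (Pool.Agent.Helper89.RAK.P_le s hP 1))
  have h2 := volD_eq hx.1
  rw [volD_one s hlit hD] at h2
  rw [etaD_can hx.1 le_rfl hx.2, ← h2]
  have h3 := H_nonneg (up1 (lb x) (P.dg 1))
  rw [← h2] at h1
  linarith

section lin

variable [Finite ι] {g : ℕ} {s : MSys S (d + 1) (lin g) ι} {j : Fin (d + 1)} {P : S.VV d}
  (hD : 1 ≤ D) (hST : ∀ r, STm D d (lin g) (Fin r)) (hlit : Lit R s.Q)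
  (hP : ∀ k ω a, P.v k ω a = s.Q.v k ω (j.succAbove a))

include hD hlit hP

theorem etaD_le {c : ℝ} {x : ∀ k, FD (S.F k) (Mon (d + 1) D)}
    (hx : (gaq s.Q D).OptfK (KC R) (cnA s (dp R) c) x) : etaD s R D P c ≤ zx s.Q j x := by
  have h1 := vzD hD hlit hx j P hP
  have h2 := (kapD_is s (dp R) R (P.dg 1) c).2 (lb x) ⟨Gau.Adf.dm _ hx.1.1, hx.1.2⟩
  unfold etaD
  rw [volD_eq hx]
  linarith

theorem etaD_le_one {c : ℝ} : etaD s R D P c ≤ 1 := by
  obtain ⟨x, hx⟩ := (gaq s.Q D).exists_optfK (KC R) (cnA s (dp R) c)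
  exact (etaD_le hD hlit hP hx).trans (zx_le_one j hx.1.1)

include hST

/-- THE IDENTITY: the level is the mean exponent of the gradient of every optimal form -/
theorem etaD_eq {c : ℝ} (h0 : 0 ≤ c) (h1 : c < 1) {x : ∀ k, FD (S.F k) (Mon (d + 1) D)}
    (hx : (gaq s.Q D).OptfK (KC R) (cnA s (dp R) c) x) : etaD s R D P c = zx s.Q j x := by
  rw [etaD_can hx le_rfl (prD_U hST hlit j P hP hD h0 h1 hx), zxD_eq hST hlit j P hP hD h0 h1 hx]

theorem etaD_nonneg {c : ℝ} (h0 : 0 ≤ c) (h1 : c < 1) : 0 ≤ etaD s R D P c := by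
  obtain ⟨x, hx⟩ := (gaq s.Q D).exists_optfK (KC R) (cnA s (dp R) c)
  rw [etaD_eq hD hST hlit hP h0 h1 hx]
  exact zx_nonneg j hx.1.1

/-- the level is monotone in the window -/
theorem etaD_mono : MonotoneOn (etaD s R D P) (Set.Icc 0 1) := by
  intro a ha b hb hab
  rcases lt_or_ge b 1 with h1 | h1
  · obtain ⟨x, hx⟩ := (gaq s.Q D).exists_optfK (KC R) (cnA s (dp R) a)
    obtain ⟨y, hy⟩ := (gaq s.Q D).exists_optfK (KC R) (cnA s (dp R) b)
    rw [etaD_eq hD hST hlit hP ha.1 (hab.trans_lt h1) hx, etaD_eq hD hST hlit hP hb.1 h1 hy]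
    exact zxK_le hy (adfD_mono hab hx.1) j
  · have h2 : b = 1 := le_antisymm hb.2 h1
    rw [h2, etaD_one hP hD hlit]
    exact etaD_le_one hD hlit hP

/-- the level is zero at the window `0` if the K-hull is trivial -/
theorem etaD_zero (hv : (d + 1 : ℝ) ≤ volD s (dp R) R D 0) : etaD s R D P 0 = 0 := by
  apply le_antisymm _ (etaD_nonneg hD hST hlit hP le_rfl one_pos)
  obtain ⟨x, hx⟩ := (gaq s.Q D).exists_optfK (KC R) (cnA s (dp R) 0)
  rw [etaD_eq hD hST hlit hP le_rfl one_pos hx]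
  have h1 := zx_le_vx j hx.1.1
  rw [volD_eq hx] at hv
  push_cast at h1
  linarith

/-- THE FAMILY OF THE NUMBERS -/
theorem fam_sysD (hv : (d + 1 : ℝ) ≤ volD s (dp R) R D 0) (y : S.VV 1) :
    Fam (etaD s R D P) (gcD s (dp R) R y (P.dg 1)) 1 :=
  fam_ofD s (dp R) R (P.dg 1) y one_pos (etaD_mono hD hST hlit hP) (etaD_zero hD hST hlit hP hv) (etaD_one hP hD hlit)
    (fun c _ => etaD_right s R D P c)

/-- the other coordinates are full at the window `0` of a system with trivial K-hull, over every K-label -/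
theorem H_P_zeroD (hv : (d + 1 : ℝ) ≤ volD s (dp R) R D 0) {l : Lab S} (hl : DMD s (dp R) R 0 l) :
    (d : ℝ) ≤ H (up1 l (P.dg 1)) := by
  have h1 := etaD_zero hD hST hlit hP hv
  have h2 := (kapD_is s (dp R) R (P.dg 1) 0).2 l hl
  have h3 := volD_le_M s (dp R) R D 0
  push_cast at h3
  unfold etaD at h1
  linarith

omit hD hST hlit in
/-- THE POINT OVER `kappa_c`: the deficit of the coordinate -/
theorem gap_eqD {y : S.VV 1} (hy : ∀ k ω i, y.v k ω i = s.Q.v k ω j) {c : ℝ}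
    {x : ∀ k, FD (S.F k) (Mon (d + 1) D)} (hx : (gaq s.Q D).OptfK (KC R) (cnA s (dp R) c) x) {l : Lab S}
    (hl : IsU s (dp R) R (s.Q.dg 1) c l) :
    vol s.Q D x - H (up1 l (s.Q.dg 1)) = 1 - etaD s R D P c - gcD s (dp R) R y (P.dg 1) c 1 := by
  have e1 : s.Q.dg 1 = P.dg 1 ⊔ y.dg 1 := Q_dg_eq hP hy 1
  have h1 : h (up1 l (y.dg 1)) (up1 l (P.dg 1)) = gcD s (dp R) R y (P.dg 1) c 1 :=
    gcD_eq y (P.dg 1) le_rfl (by rw [e1, sup_comm]) hl
  rw [H_Q_eq l hP hy, etaD_can hx (by rw [e1]; exact le_sup_left) hl, h1]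
  ring

/-- **THE TYPICAL LEVELS OF A SYSTEM WHICH IS NOT FULL**, deep K-labels -/
theorem typ_levelD (hv : (d + 1 : ℝ) ≤ volD s (dp R) R D 0) {y : S.VV 1} (hy : ∀ k ω i, y.v k ω i = s.Q.v k ω j)
    {l : Lab S} (hl : IsU s (dp R) R (s.Q.dg 1) 0 l) {θ : ℝ}
    (hθ : H (up1 l (s.Q.dg 1)) < d + θ) (hθ1 : θ ≤ 1) {κ : Type*} [Countable κ] {L : κ → ℝ → ℝ}
    (hL : ∀ i, MonotoneOn (L i) (Set.Icc 0 1)) {Qp : ℝ → Prop} (hQ : ∀ᵐ r, r ∈ Set.Ioo (0 : ℝ) 1 → Qp r) :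
    ∃ r ∈ Set.Ioo (0 : ℝ) 1, Good (etaD s R D P) (gcD s (dp R) R y (P.dg 1)) 1 r ∧ Qp r ∧
      (∀ x ∈ Set.Icc (0 : ℝ) r, ∫ t in x..r, gm (etaD s R D P) (gcD s (dp R) R y (P.dg 1)) 1 t ≤ θ * (r - x)) ∧
      gm (etaD s R D P) (gcD s (dp R) R y (P.dg 1)) 1 r ≤ θ ∧
      (∃ k, 0 ≤ k ∧ HasDerivAt (crit (etaD s R D P) 1) k r) ∧
      (∀ i, ∃ y, 0 ≤ y ∧ HasDerivAt (fun x => L i (crit (etaD s R D P) 1 x)) y r) ∧
      ((∀ᶠ x in 𝓝 r, crit (etaD s R D P) 1 x = crit (etaD s R D P) 1 r) ∨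
        ((∀ x ∈ Set.Ioo (0 : ℝ) r, crit (etaD s R D P) 1 x < crit (etaD s R D P) 1 r) ∧
          ∀ x ∈ Set.Ioo r 1, crit (etaD s R D P) 1 r < crit (etaD s R D P) 1 x)) := by
  refine (fam_sysD hD hST hlit hP hv y).typical ?_ hθ1 hL hQ
  rw [gcD_zero, sub_zero]
  have e1 : s.Q.dg 1 = P.dg 1 ⊔ y.dg 1 := Q_dg_eq hP hy 1
  have h1 : h (up1 l (y.dg 1)) (up1 l (P.dg 1)) = gcD s (dp R) R y (P.dg 1) 0 1 :=
    gcD_eq y (P.dg 1) le_rfl (by rw [e1, sup_comm]) hl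
  have h2 := H_Q_eq l hP hy
  have h3 := H_P_zeroD hD hST hlit hP hv hl.1
  rw [h1] at h2
  linarith

end lin

end

end Pool.Agent.Helper89.RAD
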