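import Pool.Agent.Helper89.RAD.Spd
import Pool.Agent.Helper89.RAD.Ed
import Pool.Agent.Helper89.RAT.Spe

/-! DEEP K-LABELS, SPEED OF THE EXPONENTS AND OF THE VOLUME: if no gradient of an admissible K-form of the window `c` is
saturated (typical bound `2 ^ (2 Γ n)`, `Γ < 1`), the mean exponent of the gradient in every direction grows at least by
`min (c' - c) (1 - Γ)` up to the window `c'`, and the codimension of the hull grows at least by `M` times this number. -/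

set_option autoImplicit false

namespace Pool.Agent.Helper89.RAD

open Finset Filter Topology Matrix Pool.Agent.Helper69.RK Pool.Agent.Helper31.EC Pool.Agent.Helper31.EC.Sp
open Pool.Agent.Helper40.EL Pool.Agent.Helper89.LX Pool.Agent.Helper84.MT
open Pool.Agent.Helper3.LF (typ_and typ_mono mkFD sp_Sub sp_n typ_sub_le lb Mon pol vv ph ga phi gam nodp ph_nonneg
  phi_nonneg phi_mono phi_smul nn nn_one)
open Pool.Agent.Helper95.LF (PdM self_nonneg' det_le_pow dv_add)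
open Pool.Agent.Helper59.LF (fadd ladd)
open Pool.Agent.Helper66.MT (gam_eq_sum)
open Pool.Agent.Helper26.MZ (Jq_ge_self)
open Pool.Agent.Helper14.MC (gx vx vol_eq vx_UB vx_nonneg)
open Pool.Agent.Helper89.RAT (one_le_Jq zx xz zv xz_bd zv_UB single_dv zx_le_one)
open Pool.Agent.Helper89.RAK (KC Lit addW_kz volK_le zxK_le)

noncomputable section

variable {S : Sp} {M D : ℕ} {E : ℕ → ℕ} {ι : Type} {R : ∀ k, Setoid (S.F k).Ω}

/-- SPEED FOR K-LABELS: the label of the new form has again no leak at `R` -/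
theorem speedD_all [Finite ι] (s : MSys S M E ι) (hlit : Lit R s.Q) {c c' : ℝ} (h0 : 0 ≤ c) (hc1 : c < 1) (hcc : c ≤ c')
    {B0 : ∀ k, Setoid (S.F k).Ω} (hB0 : ∀ k, B0 k ≤ Setoid.ker (s.Q.cellv 1 k))
    {x : ∀ k, FD (S.F k) (Mon M D)} (hx : (gaq s.Q D).AdfK (KC R) (cnA s (dp B0) c) x) :
    ∃ (W : ∀ k, Setoid (x k).l.T.Ω) (g : ∀ k, (x k).l.T.Ω → Matrix (Mon M D) (Mon M D) ℝ)
      (hm : ∀ k ω ω', (x k).l.T.μ ω ≠ 0 → (x k).l.T.μ ω' ≠ 0 → (fadd (x k).l (W k)).V ω ω' → (x k).l.T.Z ω ω' →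
        g k ω = g k ω'),
      (gaq s.Q D).AdfK (KC R) (cnA s (dp B0) c') (fun k => mkFD (fadd (x k).l (W k)) (g k) (hm k)) ∧
      ∃ K : ℕ → ℝ, S.Sub K ∧ (∀ᶠ k in UF, 1 ≤ K k) ∧ Sp.Typ (S := (lb x).sp) (fun k (ω : (x k).l.T.Ω) =>
        (∀ f : Mon M D → ℝ, (∀ z, (f ⬝ᵥ z) ^ 2 ≤ (S.dl c k / S.dl c' k) ^ 2 * qf ((x k).g ω) z) →
          ph D (pol f) (S.dl 1 k) (s.Q.v k ((x k).l.p.π ω)) ≤ 1 → ∀ z, (f ⬝ᵥ z) ^ 2 ≤ K k * qf (g k ω) z) ∧
        (∀ e : Fin M → ℝ, min ((S.dl c k / S.dl c' k) ^ 2)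
            ((S.dl 1 k ^ 2 * gam (S.dl 1 k) ((x k).g ω) (s.Q.v k ((x k).l.p.π ω)))⁻¹) *
            (e ⬝ᵥ (Jq (S.dl 1 k) ((x k).g ω) (s.Q.v k ((x k).l.p.π ω)) *ᵥ e)) ≤
          K k * (e ⬝ᵥ (Jq (S.dl 1 k) (g k ω) (s.Q.v k ((x k).l.p.π ω)) *ᵥ e))) ∧
        min ((S.dl c k / S.dl c' k) ^ 2 * gam (S.dl 1 k) ((x k).g ω) (s.Q.v k ((x k).l.p.π ω)))
            ((S.dl 1 k ^ 2)⁻¹) ≤ K k * gam (S.dl 1 k) (g k ω) (s.Q.v k ((x k).l.p.π ω))) := by
  obtain ⟨W, g, hm, hW, hadf, K, hK, hK1, hT⟩ := speedB_all (D := D) s hB0 h0 hc1 hcc hx.1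
  refine ⟨W, g, hm, ⟨hadf, ?_⟩, K, hK, hK1, hT⟩
  filter_upwards [hx.2] with k hk
  refine addW_kz (x k).l (W k) (R k) hk fun ω ω' a b c d r => ?_
  exact hW k ω ω' ((x k).meas ω ω' a b c d).1 (hlit k r)

/-- gain of volume from the comparison of the gradient matrices -/
theorem GQ_speed (hD : 1 ≤ D) (r : ℝ) {A B : Matrix (Mon M D) (Mon M D) ℝ} (hA : A.IsSymm)
    (hA1 : ∀ x, x ⬝ᵥ x ≤ x ⬝ᵥ (A *ᵥ x)) (hB : B.IsSymm) (hB0 : ∀ x, 0 ≤ x ⬝ᵥ (B *ᵥ x)) (p : Fin M → ℝ) {m : ℝ}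
    (hm : 0 < m) (h : ∀ e, e ⬝ᵥ (Jq r A p *ᵥ e) ≤ m * (e ⬝ᵥ (Jq r B p *ᵥ e))) :
    GQ r A p ≤ (2 * m) ^ M * GQ r B p := by
  have hA0 : ∀ x : Mon M D → ℝ, 0 ≤ x ⬝ᵥ (A *ᵥ x) := fun x => (self_nonneg' x).trans (hA1 x)
  have h1 := det_le_pow (one_Jq_pd r hB hB0 p) (one_Jq_pd r hA hA0 p) (K := 2 * m) (by positivity) (fun x => by
      rw [dv_add, dv_add, one_dv]
      have h2 := Jq_ge_self hD r hA1 p x
      have h3 := h x
      have h4 := self_nonneg' x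
      nlinarith [mul_nonneg hm.le h4])
  rw [Fintype.card_fin] at h1
  exact h1

/-- THE EXPONENT EXPANDS -/
theorem zx_speedD [Finite ι] (s : MSys S M E ι) (hlit : Lit R s.Q) {B0 : ∀ k, Setoid (S.F k).Ω}
    (hB0 : ∀ k, B0 k ≤ Setoid.ker (s.Q.cellv 1 k)) (hD : 1 ≤ D) {c c' : ℝ} (h0 : 0 ≤ c) (hc1 : c < 1) (hcc : c ≤ c')
    {x y : ∀ k, FD (S.F k) (Mon M D)} (hx : (gaq s.Q D).AdfK (KC R) (cnA s (dp B0) c) x)
    (hy : (gaq s.Q D).OptfK (KC R) (cnA s (dp B0) c') y)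
    (z : Fin M) {Γ : ℝ} (hΓ : ∀ e : ℝ, 0 < e → Tendsto (fun k => (x k).l.T.pb (fun ω =>
      ¬ gam (S.dl 1 k) ((x k).g ω) (s.Q.v k ((x k).l.p.π ω)) ≤ 2 ^ (2 * (Γ + e) * (S.F k).n))) UF (𝓝 0)) :
    zx s.Q z x + min (c' - c) (1 - Γ) ≤ zx s.Q z y := by
  classical
  obtain ⟨W, g, hm, hadfK, K, hK, hK1, hT⟩ := speedD_all (D := D) s hlit h0 hc1 hcc hB0 hx
  have hadf := hadfK.1
  set x' : ∀ k, FD (S.F k) (Mon M D) := fun k => mkFD (fadd (x k).l (W k)) (g k) (hm k) with hx'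
  set τ : ℝ := min (c' - c) (1 - Γ) with hτ
  refine le_trans ?_ (zxK_le hy hadfK z)
  obtain ⟨C, hC, hbd⟩ := xz_bd z hx.1
  obtain ⟨C', -, hbd'⟩ := xz_bd z hadf
  have hUx := zv_UB z hx.1
  have hUx' := zv_UB z hadf
  apply le_of_forall_pos_le_add
  intro ε hε
  set e : ℝ := ε / 3 with he
  have he0 : 0 < e := by rw [he]; linarith
  have e1 : (fun k => ∑ ω, (x k).l.T.μ ω * (xz s.Q z k ((x k).l.p.π ω) ((x k).g ω) + τ)) =
      fun k => zv s.Q z x k + τ := by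
    funext k
    rw [Finset.sum_congr rfl fun w _ => mul_add _ _ _, Finset.sum_add_distrib, ← Finset.sum_mul,
      Pool.Agent.Helper3.PR.sum_mu, one_mul]
    rfl
  have e2 : (fun k => ∑ ω, (x k).l.T.μ ω * (xz s.Q z k ((x k).l.p.π ω) (g k ω) + (|τ| + ε))) =
      fun k => zv s.Q z x' k + (|τ| + ε) := by
    funext k
    rw [Finset.sum_congr rfl fun w _ => mul_add _ _ _, Finset.sum_add_distrib, ← Finset.sum_mul,
      Pool.Agent.Helper3.PR.sum_mu, one_mul]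
    rfl
  have e3 : (fun k => ∑ ω, (x k).l.T.μ ω * (xz s.Q z k ((x k).l.p.π ω) ((x k).g ω) + (τ + |τ|))) =
      fun k => zv s.Q z x k + (τ + |τ|) := by
    funext k
    rw [Finset.sum_congr rfl fun w _ => mul_add _ _ _, Finset.sum_add_distrib, ← Finset.sum_mul,
      Pool.Agent.Helper3.PR.sum_mu, one_mul]
    rfl
  have hT1 : Tendsto (fun k => (x k).l.T.pb (fun ω =>
      ¬ gam (S.dl 1 k) ((x k).g ω) (s.Q.v k ((x k).l.p.π ω)) ≤ 2 ^ (2 * (Γ + e) * (S.F k).n))) UF (𝓝 0) := hΓ e he0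
  set Ev : ∀ k, (x k).l.T.Ω → Prop := fun k ω => (∀ v : Fin M → ℝ, min ((S.dl c k / S.dl c' k) ^ 2)
      ((S.dl 1 k ^ 2 * gam (S.dl 1 k) ((x k).g ω) (s.Q.v k ((x k).l.p.π ω)))⁻¹) *
      (v ⬝ᵥ (Jq (S.dl 1 k) ((x k).g ω) (s.Q.v k ((x k).l.p.π ω)) *ᵥ v)) ≤
      K k * (v ⬝ᵥ (Jq (S.dl 1 k) (g k ω) (s.Q.v k ((x k).l.p.π ω)) *ᵥ v))) ∧
      gam (S.dl 1 k) ((x k).g ω) (s.Q.v k ((x k).l.p.π ω)) ≤ 2 ^ (2 * (Γ + e) * (S.F k).n) with hEv
  have hTE : Tendsto (fun k => (x k).l.T.pb (fun ω => ¬ Ev k ω)) UF (𝓝 0) := by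
    have hT2 : Tendsto (fun k => (x k).l.T.pb (fun ω => ¬ ((∀ f : Mon M D → ℝ,
        (∀ z, (f ⬝ᵥ z) ^ 2 ≤ (S.dl c k / S.dl c' k) ^ 2 * qf ((x k).g ω) z) →
          ph D (pol f) (S.dl 1 k) (s.Q.v k ((x k).l.p.π ω)) ≤ 1 → ∀ z, (f ⬝ᵥ z) ^ 2 ≤ K k * qf (g k ω) z) ∧
        (∀ e : Fin M → ℝ, min ((S.dl c k / S.dl c' k) ^ 2)
            ((S.dl 1 k ^ 2 * gam (S.dl 1 k) ((x k).g ω) (s.Q.v k ((x k).l.p.π ω)))⁻¹) *
            (e ⬝ᵥ (Jq (S.dl 1 k) ((x k).g ω) (s.Q.v k ((x k).l.p.π ω)) *ᵥ e)) ≤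
          K k * (e ⬝ᵥ (Jq (S.dl 1 k) (g k ω) (s.Q.v k ((x k).l.p.π ω)) *ᵥ e))) ∧
        min ((S.dl c k / S.dl c' k) ^ 2 * gam (S.dl 1 k) ((x k).g ω) (s.Q.v k ((x k).l.p.π ω)))
            ((S.dl 1 k ^ 2)⁻¹) ≤ K k * gam (S.dl 1 k) (g k ω) (s.Q.v k ((x k).l.p.π ω))))) UF (𝓝 0) := hT
    have h3 := hT2.add hT1
    rw [add_zero] at h3
    refine tendsto_of_tendsto_of_tendsto_of_le_of_le tendsto_const_nhds h3 (fun k => (x k).l.T.pb_nonneg _)
      (fun k => ?_)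
    refine le_trans (FSp.pb_mono _ ?_) (pb_or _ _ _)
    intro ω _ h4
    by_contra h5
    push Not at h5
    exact h4 ⟨h5.1.2.1, h5.2⟩
  have key := ul_avg_le (fun k => (x k).l.T)
    (fun k ω => xz s.Q z k ((x k).l.p.π ω) (g k ω) + (|τ| + ε))
    (fun k ω => xz s.Q z k ((x k).l.p.π ω) ((x k).g ω) + (τ + |τ|)) Ev (fun _ => 0) tendsto_const_nhds
    (C + (τ + |τ|)) hTE (by
      filter_upwards [hx.1 1 one_pos, hadf 1 one_pos, hK.eventually_le he0, hK1,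
        (S.Sub_const (zero_le_two (α := ℝ))).eventually_le he0] with k b3 b4 b5 b6 b7 ω hω hE
      have hn := (S.F k).pos
      have c1 := (b3.2.1 ω hω).1
      have c2 : Cpd ((gaq s.Q D).cp k) (g k ω) := (b4.2.1 ω hω).1
      set J : ℝ := Jq (S.dl 1 k) ((x k).g ω) (s.Q.v k ((x k).l.p.π ω)) z z with hJ
      set J' : ℝ := Jq (S.dl 1 k) (g k ω) (s.Q.v k ((x k).l.p.π ω)) z z with hJ'
      have hJ1 : 1 ≤ J := one_le_Jq hD s.Q z k _ (fun v => c1.2.1 v)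
      have hJ1' : 1 ≤ J' := one_le_Jq hD s.Q z k _ (fun v => c2.2.1 v)
      have hJg : J ≤ gam (S.dl 1 k) ((x k).g ω) (s.Q.v k ((x k).l.p.π ω)) := by
        rw [gam_eq_sum]
        exact Finset.single_le_sum (f := fun a => Jq (S.dl 1 k) ((x k).g ω) (s.Q.v k ((x k).l.p.π ω)) a a)
          (fun a _ => zero_le_one.trans (one_le_Jq hD s.Q a k _ (fun v => c1.2.1 v))) (Finset.mem_univ z)
      set G : ℝ := gam (S.dl 1 k) ((x k).g ω) (s.Q.v k ((x k).l.p.π ω)) with hG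
      have hG0 : 0 < G := by linarith
      have h1 := hE.1 (Pi.single z 1)
      rw [single_dv, single_dv] at h1
      have h2 : (2 : ℝ) ^ (2 * (τ - e) * (S.F k).n) ≤ min ((S.dl c k / S.dl c' k) ^ 2) ((S.dl 1 k ^ 2 * G)⁻¹) := by
        apply le_min
        · have e5 : (S.dl c k / S.dl c' k) ^ 2 = 2 ^ (2 * (c' - c) * (S.F k).n) := by
            unfold Sp.dl
            rw [← Real.rpow_sub (by norm_num), ← Real.rpow_natCast, ← Real.rpow_mul (by norm_num)]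
            congr 1
            push_cast
            ring
          rw [e5]
          apply Real.rpow_le_rpow_of_exponent_le (by norm_num)
          have h3 : τ ≤ c' - c := min_le_left _ _
          nlinarith
        · have e5 : (S.dl 1 k ^ 2)⁻¹ = 2 ^ (2 * (S.F k).n) := by
            unfold Sp.dl
            rw [← Real.rpow_natCast, ← Real.rpow_mul (by norm_num), ← Real.rpow_neg (by norm_num)]
            congr 1
            push_cast
            ring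
          rw [mul_inv, e5]
          have h3 : ((2 : ℝ) ^ (2 * (Γ + e) * (S.F k).n))⁻¹ ≤ G⁻¹ := inv_anti₀ hG0 hE.2
          refine le_trans ?_ (mul_le_mul_of_nonneg_left h3 (by positivity))
          rw [← Real.rpow_neg (by norm_num), ← Real.rpow_add (by norm_num)]
          apply Real.rpow_le_rpow_of_exponent_le (by norm_num)
          have h4 : τ ≤ 1 - Γ := min_le_right _ _
          nlinarith
      have h3 : (2 : ℝ) ^ (2 * (τ - e) * (S.F k).n) * (1 + J) ≤ 2 ^ (e * (S.F k).n) * 2 ^ (e * (S.F k).n) * (1 + J') := by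
        have a1 : (2 : ℝ) ^ (2 * (τ - e) * (S.F k).n) * J ≤ K k * J' :=
          (mul_le_mul_of_nonneg_right h2 (by linarith)).trans h1
        have a2 : K k ≤ 2 ^ (e * (S.F k).n) := by linarith
        have a3 : (2 : ℝ) ≤ 2 ^ (e * (S.F k).n) := by linarith
        have a4 : (0 : ℝ) < 2 ^ (2 * (τ - e) * (S.F k).n) := by positivity
        calc (2 : ℝ) ^ (2 * (τ - e) * (S.F k).n) * (1 + J) ≤ 2 ^ (2 * (τ - e) * (S.F k).n) * (2 * J) := by
              apply mul_le_mul_of_nonneg_left _ a4.le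
              linarith
          _ = 2 * (2 ^ (2 * (τ - e) * (S.F k).n) * J) := by ring
          _ ≤ 2 * (K k * J') := by linarith
          _ ≤ 2 ^ (e * (S.F k).n) * (2 ^ (e * (S.F k).n) * (1 + J')) := by
              apply mul_le_mul a3 _ (by nlinarith) (by positivity)
              exact mul_le_mul a2 (by linarith) (by linarith) (by positivity)
          _ = _ := by ring
      have h4 := Real.logb_le_logb_of_le (b := 2) (by norm_num) (by positivity) h3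
      rw [Real.logb_mul (by positivity) (by positivity), Real.logb_mul (by positivity) (by positivity),
        Real.logb_mul (by positivity) (by positivity), Real.logb_rpow (by norm_num) (by norm_num),
        Real.logb_rpow (by norm_num) (by norm_num)] at h4
      show Real.logb 2 (1 + J) / (2 * (S.F k).n) + (τ + |τ|) ≤ Real.logb 2 (1 + J') / (2 * (S.F k).n) + (|τ| + ε) + 0
      have h5 : Real.logb 2 (1 + J) / (2 * (S.F k).n) ≤ (Real.logb 2 (1 + J') + 2 * (ε - τ) * (S.F k).n) /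
          (2 * (S.F k).n) := by
        apply div_le_div_of_nonneg_right _ (by positivity)
        rw [he] at h4
        nlinarith
      have h6 : (Real.logb 2 (1 + J') + 2 * (ε - τ) * (S.F k).n) / (2 * (S.F k).n) =
          Real.logb 2 (1 + J') / (2 * (S.F k).n) + (ε - τ) := by
        field_simp
      linarith) (by
      filter_upwards [hbd] with k a ω hω
      linarith [(a ω hω).2]) (by
      filter_upwards [hbd'] with k a ω hω
      have h1 : 0 ≤ xz s.Q z k ((x k).l.p.π ω) (g k ω) := (a ω hω).1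
      positivity) (by rw [e3]; exact hUx.add (UB_const _)) (by rw [e2]; exact hUx'.add (UB_const _))
  rw [e3, e2, ul_add hUx (UB_const _), ul_const, ul_add hUx' (UB_const _), ul_const] at key
  unfold zx
  linarith

/-- THE CODIMENSION EXPANDS -/
theorem vol_speedD [Finite ι] (s : MSys S M E ι) (hlit : Lit R s.Q) {B0 : ∀ k, Setoid (S.F k).Ω}
    (hB0 : ∀ k, B0 k ≤ Setoid.ker (s.Q.cellv 1 k)) (hD : 1 ≤ D) {c c' : ℝ} (h0 : 0 ≤ c) (hc1 : c < 1) (hcc : c ≤ c')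
    {x y : ∀ k, FD (S.F k) (Mon M D)} (hx : (gaq s.Q D).AdfK (KC R) (cnA s (dp B0) c) x)
    (hy : (gaq s.Q D).OptfK (KC R) (cnA s (dp B0) c') y)
    {Γ : ℝ} (hΓ : ∀ e : ℝ, 0 < e → Tendsto (fun k => (x k).l.T.pb (fun ω =>
      ¬ gam (S.dl 1 k) ((x k).g ω) (s.Q.v k ((x k).l.p.π ω)) ≤ 2 ^ (2 * (Γ + e) * (S.F k).n))) UF (𝓝 0)) :
    vol s.Q D y + M * min (c' - c) (1 - Γ) ≤ vol s.Q D x := by
  classical
  obtain ⟨W, g, hm, hadfK, K, hK, hK1, hT⟩ := speedD_all (D := D) s hlit h0 hc1 hcc hB0 hx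
  have hadf := hadfK.1
  set x' : ∀ k, FD (S.F k) (Mon M D) := fun k => mkFD (fadd (x k).l (W k)) (g k) (hm k) with hx'
  set τ : ℝ := min (c' - c) (1 - Γ) with hτ
  have hle := volK_le hy hadfK
  obtain ⟨C, hC, hbd⟩ := gx_bd hx.1
  obtain ⟨C', -, hbd'⟩ := gx_bd hadf
  have hUx := vx_UB hx.1
  have hUx' := vx_UB hadf
  suffices hs : ul (vx s.Q x) + M * τ ≤ ul (vx s.Q x') by
    rw [vol_eq] at hle ⊢
    rw [vol_eq] at hle ⊢
    linarith
  apply le_of_forall_pos_le_add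
  intro ε hε
  set e : ℝ := ε / (3 * (M + 1)) with he
  have hM1 : (0 : ℝ) < M + 1 := by positivity
  have he0 : 0 < e := by rw [he]; positivity
  have heM : 3 * (M : ℝ) * e ≤ ε := by
    have h1 : 3 * ((M : ℝ) + 1) * e = ε := by
      rw [he]
      field_simp
    nlinarith
  have e2 : (fun k => ∑ ω, (x k).l.T.μ ω * (gx s.Q k ((x k).l.p.π ω) (g k ω) + (|M * τ| + ε))) =
      fun k => vx s.Q x' k + (|M * τ| + ε) := by
    funext k
    rw [Finset.sum_congr rfl fun w _ => mul_add _ _ _, Finset.sum_add_distrib, ← Finset.sum_mul,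
      Pool.Agent.Helper3.PR.sum_mu, one_mul]
    rfl
  have e3 : (fun k => ∑ ω, (x k).l.T.μ ω * (gx s.Q k ((x k).l.p.π ω) ((x k).g ω) + (M * τ + |M * τ|))) =
      fun k => vx s.Q x k + (M * τ + |M * τ|) := by
    funext k
    rw [Finset.sum_congr rfl fun w _ => mul_add _ _ _, Finset.sum_add_distrib, ← Finset.sum_mul,
      Pool.Agent.Helper3.PR.sum_mu, one_mul]
    rfl
  have hT1 : Tendsto (fun k => (x k).l.T.pb (fun ω =>
      ¬ gam (S.dl 1 k) ((x k).g ω) (s.Q.v k ((x k).l.p.π ω)) ≤ 2 ^ (2 * (Γ + e) * (S.F k).n))) UF (𝓝 0) := hΓ e he0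
  set Ev : ∀ k, (x k).l.T.Ω → Prop := fun k ω => (∀ v : Fin M → ℝ, min ((S.dl c k / S.dl c' k) ^ 2)
      ((S.dl 1 k ^ 2 * gam (S.dl 1 k) ((x k).g ω) (s.Q.v k ((x k).l.p.π ω)))⁻¹) *
      (v ⬝ᵥ (Jq (S.dl 1 k) ((x k).g ω) (s.Q.v k ((x k).l.p.π ω)) *ᵥ v)) ≤
      K k * (v ⬝ᵥ (Jq (S.dl 1 k) (g k ω) (s.Q.v k ((x k).l.p.π ω)) *ᵥ v))) ∧
      gam (S.dl 1 k) ((x k).g ω) (s.Q.v k ((x k).l.p.π ω)) ≤ 2 ^ (2 * (Γ + e) * (S.F k).n) with hEv
  have hTE : Tendsto (fun k => (x k).l.T.pb (fun ω => ¬ Ev k ω)) UF (𝓝 0) := by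
    have hT2 : Tendsto (fun k => (x k).l.T.pb (fun ω => ¬ ((∀ f : Mon M D → ℝ,
        (∀ z, (f ⬝ᵥ z) ^ 2 ≤ (S.dl c k / S.dl c' k) ^ 2 * qf ((x k).g ω) z) →
          ph D (pol f) (S.dl 1 k) (s.Q.v k ((x k).l.p.π ω)) ≤ 1 → ∀ z, (f ⬝ᵥ z) ^ 2 ≤ K k * qf (g k ω) z) ∧
        (∀ e : Fin M → ℝ, min ((S.dl c k / S.dl c' k) ^ 2)
            ((S.dl 1 k ^ 2 * gam (S.dl 1 k) ((x k).g ω) (s.Q.v k ((x k).l.p.π ω)))⁻¹) *
            (e ⬝ᵥ (Jq (S.dl 1 k) ((x k).g ω) (s.Q.v k ((x k).l.p.π ω)) *ᵥ e)) ≤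
          K k * (e ⬝ᵥ (Jq (S.dl 1 k) (g k ω) (s.Q.v k ((x k).l.p.π ω)) *ᵥ e))) ∧
        min ((S.dl c k / S.dl c' k) ^ 2 * gam (S.dl 1 k) ((x k).g ω) (s.Q.v k ((x k).l.p.π ω)))
            ((S.dl 1 k ^ 2)⁻¹) ≤ K k * gam (S.dl 1 k) (g k ω) (s.Q.v k ((x k).l.p.π ω))))) UF (𝓝 0) := hT
    have h3 := hT2.add hT1
    rw [add_zero] at h3
    refine tendsto_of_tendsto_of_tendsto_of_le_of_le tendsto_const_nhds h3 (fun k => (x k).l.T.pb_nonneg _)
      (fun k => ?_)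
    refine le_trans (FSp.pb_mono _ ?_) (pb_or _ _ _)
    intro ω _ h4
    by_contra h5
    push Not at h5
    exact h4 ⟨h5.1.2.1, h5.2⟩
  have key := ul_avg_le (fun k => (x k).l.T)
    (fun k ω => gx s.Q k ((x k).l.p.π ω) (g k ω) + (|M * τ| + ε))
    (fun k ω => gx s.Q k ((x k).l.p.π ω) ((x k).g ω) + (M * τ + |M * τ|)) Ev (fun _ => 0) tendsto_const_nhds
    (C + (M * τ + |M * τ|)) hTE (by
      filter_upwards [hx.1 1 one_pos, hadf 1 one_pos, hK.eventually_le he0, hK1,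
        (S.Sub_const (zero_le_two (α := ℝ))).eventually_le he0] with k b3 b4 b5 b6 b7 ω hω hE
      have hn := (S.F k).pos
      have c1 := (b3.2.1 ω hω).1
      have c2 : Cpd ((gaq s.Q D).cp k) (g k ω) := (b4.2.1 ω hω).1
      set A := (x k).g ω with hA
      set B := g k ω with hB
      set p := s.Q.v k ((x k).l.p.π ω) with hp
      set G : ℝ := gam (S.dl 1 k) A p with hG
      have hJ1 : ∀ z : Fin M, 1 ≤ Jq (S.dl 1 k) A p z z := fun z => one_le_Jq hD s.Q z k _ (fun v => c1.2.1 v)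
      have hG0 : 0 ≤ G := by
        rw [hG, gam_eq_sum]
        exact Finset.sum_nonneg fun z _ => zero_le_one.trans (hJ1 z)
      have h2 : (2 : ℝ) ^ (2 * (τ - e) * (S.F k).n) ≤ min ((S.dl c k / S.dl c' k) ^ 2) ((S.dl 1 k ^ 2 * G)⁻¹) ∨ M = 0 := by
        rcases Nat.eq_zero_or_pos M with hM | hM
        · exact Or.inr hM
        left
        have hG1 : 0 < G := by
          rw [hG, gam_eq_sum]
          exact lt_of_lt_of_le (zero_lt_one.trans_le (hJ1 ⟨0, hM⟩))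
            (Finset.single_le_sum (f := fun a => Jq (S.dl 1 k) A p a a)
              (fun a _ => zero_le_one.trans (hJ1 a)) (Finset.mem_univ (⟨0, hM⟩ : Fin M)))
        apply le_min
        · have e5 : (S.dl c k / S.dl c' k) ^ 2 = 2 ^ (2 * (c' - c) * (S.F k).n) := by
            unfold Sp.dl
            rw [← Real.rpow_sub (by norm_num), ← Real.rpow_natCast, ← Real.rpow_mul (by norm_num)]
            congr 1
            push_cast
            ring
          rw [e5]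
          apply Real.rpow_le_rpow_of_exponent_le (by norm_num)
          have h3 : τ ≤ c' - c := min_le_left _ _
          nlinarith
        · have e5 : (S.dl 1 k ^ 2)⁻¹ = 2 ^ (2 * (S.F k).n) := by
            unfold Sp.dl
            rw [← Real.rpow_natCast, ← Real.rpow_mul (by norm_num), ← Real.rpow_neg (by norm_num)]
            congr 1
            push_cast
            ring
          rw [mul_inv, e5]
          have h3 : ((2 : ℝ) ^ (2 * (Γ + e) * (S.F k).n))⁻¹ ≤ G⁻¹ := inv_anti₀ hG1 hE.2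
          refine le_trans ?_ (mul_le_mul_of_nonneg_left h3 (by positivity))
          rw [← Real.rpow_neg (by norm_num), ← Real.rpow_add (by norm_num)]
          apply Real.rpow_le_rpow_of_exponent_le (by norm_num)
          have h4 : τ ≤ 1 - Γ := min_le_right _ _
          nlinarith
      have hK2 : K k ≤ 2 ^ (e * (S.F k).n) := by linarith
      have ha3 : (2 : ℝ) ≤ 2 ^ (e * (S.F k).n) := by linarith
      have h3 : GQ (S.dl 1 k) A p ≤ (2 * 2 ^ ((e - 2 * (τ - e)) * (S.F k).n)) ^ M * GQ (S.dl 1 k) B p := by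
        rcases h2 with h2 | h2
        · apply GQ_speed hD (S.dl 1 k) c1.1 (fun v => c1.2.1 v) c2.1 c2.psd.2 p (by positivity)
          intro v
          have h4 := hE.1 v
          have h5 : 0 ≤ v ⬝ᵥ (Jq (S.dl 1 k) A p *ᵥ v) :=
            (self_nonneg' v).trans (Jq_ge_self hD (S.dl 1 k) (fun v => c1.2.1 v) p v)
          have h6 : 0 ≤ v ⬝ᵥ (Jq (S.dl 1 k) B p *ᵥ v) :=
            (self_nonneg' v).trans (Jq_ge_self hD (S.dl 1 k) (fun v => c2.2.1 v) p v)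
          have h7 := (mul_le_mul_of_nonneg_right h2 h5).trans (h4.trans (mul_le_mul_of_nonneg_right hK2 h6))
          have h8 : (2 : ℝ) ^ ((e - 2 * (τ - e)) * (S.F k).n) * (v ⬝ᵥ (Jq (S.dl 1 k) B p *ᵥ v)) =
              2 ^ (-(2 * (τ - e) * (S.F k).n)) * (2 ^ (e * (S.F k).n) * (v ⬝ᵥ (Jq (S.dl 1 k) B p *ᵥ v))) := by
            rw [← mul_assoc, ← Real.rpow_add (by norm_num)]
            congr 2
            ring
          rw [h8]
          have h9 := mul_le_mul_of_nonneg_left h7 (show (0 : ℝ) ≤ 2 ^ (-(2 * (τ - e) * (S.F k).n)) by positivity)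
          rw [← mul_assoc, ← Real.rpow_add (by norm_num), neg_add_cancel, Real.rpow_zero, one_mul] at h9
          exact h9
        · subst h2
          rw [pow_zero, one_mul]
          have h4 : ∀ A : Matrix (Mon 0 D) (Mon 0 D) ℝ, ∀ p, GQ (S.dl 1 k) A p = 1 := by
            intro A p
            unfold GQ
            exact Matrix.det_isEmpty
          rw [h4, h4]
      have hg1 := one_le_GQ (S.dl 1 k) c1.1 c1.psd.2 p
      have hg2 := one_le_GQ (S.dl 1 k) c2.1 c2.psd.2 p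
      have h4 := Real.logb_le_logb_of_le (b := 2) (by norm_num) (by linarith) h3
      rw [Real.logb_mul (by positivity) (by linarith), Real.logb_pow, Real.logb_mul (by norm_num) (by positivity),
        Real.logb_self_eq_one (by norm_num), Real.logb_rpow (by norm_num) (by norm_num)] at h4
      have h7 : (1 : ℝ) ≤ e * (S.F k).n := by
        have h8 := Real.logb_le_logb_of_le (b := 2) (by norm_num) (by norm_num) ha3
        rwa [Real.logb_self_eq_one (by norm_num), Real.logb_rpow (by norm_num) (by norm_num)] at h8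
      show Real.logb 2 (GQ (S.dl 1 k) A p) / (2 * (S.F k).n) + (M * τ + |M * τ|) ≤
        Real.logb 2 (GQ (S.dl 1 k) B p) / (2 * (S.F k).n) + (|M * τ| + ε) + 0
      have h5 : Real.logb 2 (GQ (S.dl 1 k) A p) / (2 * (S.F k).n) ≤
          (Real.logb 2 (GQ (S.dl 1 k) B p) + 2 * (ε - M * τ) * (S.F k).n) / (2 * (S.F k).n) := by
        apply div_le_div_of_nonneg_right _ (by positivity)
        have h8 : (M : ℝ) * (1 + (e - 2 * (τ - e)) * (S.F k).n) ≤ 2 * (ε - M * τ) * (S.F k).n := by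
          have h9 : (M : ℝ) * (1 + (e - 2 * (τ - e)) * (S.F k).n) ≤ M * ((4 * e - 2 * τ) * (S.F k).n) := by
            apply mul_le_mul_of_nonneg_left _ (Nat.cast_nonneg M)
            linarith
          have h10 : (4 : ℝ) * M * e ≤ 2 * ε := by
            have : (0 : ℝ) ≤ M * e := by positivity
            linarith
          have h11 := mul_le_mul_of_nonneg_right h10 hn.le
          nlinarith
        linarith
      have h6 : (Real.logb 2 (GQ (S.dl 1 k) B p) + 2 * (ε - M * τ) * (S.F k).n) / (2 * (S.F k).n) =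
          Real.logb 2 (GQ (S.dl 1 k) B p) / (2 * (S.F k).n) + (ε - M * τ) := by
        field_simp
      linarith) (by
      filter_upwards [hbd] with k a ω hω
      linarith [(a ω hω).2]) (by
      filter_upwards [hbd'] with k a ω hω
      have h1 : 0 ≤ gx s.Q k ((x k).l.p.π ω) (g k ω) := (a ω hω).1
      positivity) (by rw [e3]; exact hUx.add (UB_const _)) (by rw [e2]; exact hUx'.add (UB_const _))
  rw [e3, e2, ul_add hUx (UB_const _), ul_const, ul_add hUx' (UB_const _), ul_const] at key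
  linarith

/-- the deep convention -/
theorem volD_speed [Finite ι] (s : MSys S M E ι) (hlit : Lit R s.Q) (hD : 1 ≤ D) {c c' : ℝ} (h0 : 0 ≤ c) (hc1 : c < 1)
    (hcc : c ≤ c') {x : ∀ k, FD (S.F k) (Mon M D)} (hx : (gaq s.Q D).OptfK (KC R) (cnA s (dp R) c) x) {Γ : ℝ}
    (hΓ : ∀ e : ℝ, 0 < e → Tendsto (fun k => (x k).l.T.pb (fun ω =>
      ¬ gam (S.dl 1 k) ((x k).g ω) (s.Q.v k ((x k).l.p.π ω)) ≤ 2 ^ (2 * (Γ + e) * (S.F k).n))) UF (𝓝 0)) :
    volD s (dp R) R D c' + M * min (c' - c) (1 - Γ) ≤ volD s (dp R) R D c := by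
  obtain ⟨y, hy⟩ := (gaq s.Q D).exists_optfK (KC R) (cnA s (dp R) c')
  rw [volD_eq hx, volD_eq hy]
  exact vol_speedD s hlit (fun k => hlit.cell 1 k) hD h0 hc1 hcc hx.1 hy hΓ

/-- THE LEVEL EXPANDS -/
theorem etaD_speed [Finite ι] {d g : ℕ} {s : MSys S (d + 1) (lin g) ι} {j : Fin (d + 1)} {P : S.VV d}
    (hD : 1 ≤ D) (hST : ∀ r, STm D d (lin g) (Fin r)) (hlit : Lit R s.Q)
    (hP : ∀ k ω a, P.v k ω a = s.Q.v k ω (j.succAbove a)) {c c' : ℝ} (h0 : 0 ≤ c) (hc1 : c < 1)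
    (hcc : c ≤ c') (hc' : c' ≤ 1) {x : ∀ k, FD (S.F k) (Mon (d + 1) D)}
    (hx : (gaq s.Q D).OptfK (KC R) (cnA s (dp R) c) x) {Γ : ℝ}
    (hΓ : ∀ e : ℝ, 0 < e → Tendsto (fun k => (x k).l.T.pb (fun ω =>
      ¬ gam (S.dl 1 k) ((x k).g ω) (s.Q.v k ((x k).l.p.π ω)) ≤ 2 ^ (2 * (Γ + e) * (S.F k).n))) UF (𝓝 0)) :
    etaD s R D P c + min (c' - c) (1 - Γ) ≤ etaD s R D P c' := by
  obtain ⟨y, hy⟩ := (gaq s.Q D).exists_optfK (KC R) (cnA s (dp R) c')
  have h1 := zx_speedD s hlit (fun k => hlit.cell 1 k) hD h0 hc1 hcc hx.1 hy j hΓ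
  rw [etaD_eq hD hST hlit hP h0 hc1 hx]
  rcases lt_or_eq_of_le hc' with h2 | h2
  · rw [etaD_eq hD hST hlit hP (h0.trans hcc) h2 hy]
    exact h1
  · rw [h2, etaD_one hP hD hlit]
    rw [h2] at h1
    exact h1.trans (zx_le_one j hy.1.1)

end

end Pool.Agent.Helper89.RAD
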