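import Pool.Agent.Helper89.RAD.Zm
import Pool.Agent.Helper26.MT.Zl

/-! DEEP ZOOM: windows and labels. Conditions `cnA s A c`: a partition `A` (for instance a resolution deeper than the
point, or the cells of the point) and the windows `c` of the types. -/

set_option autoImplicit false

namespace Pool.Agent.Helper89.RAD

open Finset Filter Topology Matrix Pool.Agent.Helper69.RK Pool.Agent.Helper31.EC Pool.Agent.Helper31.EC.Sp
open Pool.Agent.Helper40.EL Pool.Agent.Helper89.LX Pool.Agent.Helper3.LF Pool.Agent.Helper84.MT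
open Pool.Agent.Helper95.LF (PdM)

noncomputable section

variable {S : Sp} {M : ℕ} {E : ℕ → ℕ} {ι : Type}

/-- the CONDITIONS `the partition A, the windows c` -/
def cnA (s : MSys S M E ι) (A : Part S) (c : ℝ) : Option ι → Part S
  | none => A
  | some i => (s.lf i).win c

theorem cnA_pcd (s : MSys S M E ι) (c : ℝ) : cnA s (pcd s.Q) c = s.cnd c := funext fun i => by cases i <;> rfl

theorem cnA_mono (s : MSys S M E ι) (A : Part S) {a b : ℝ} (hab : a ≤ b) (i : Option ι) :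
    PLe (cnA s A a i) (cnA s A b i) := by
  rcases i with _ | i
  · exact PLe.refl _
  · exact (s.lf i).win_mono hab

/-- a finer condition at the point -/
theorem cnA_fine (s : MSys S M E ι) {A B : Part S} (h : PLe A B) (c : ℝ) (i : Option ι) :
    PLe (cnA s A c i) (cnA s B c i) := by
  rcases i with _ | i
  · exact h
  · exact PLe.refl _

/-- LABELS with the condition `A` at the point -/
def DMA (s : MSys S M E ι) (A : Part S) (c : ℝ) (l : Lab S) : Prop := l.DMf (cnA s A c)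

theorem DMA_pcd {s : MSys S M E ι} {c : ℝ} {l : Lab S} : DMA s (pcd s.Q) c l ↔ s.DMc c l := by
  unfold DMA MSys.DMc
  rw [cnA_pcd]

theorem DMA.mono {s : MSys S M E ι} {A : Part S} {a b : ℝ} (hab : a ≤ b) {l : Lab S} (h : DMA s A a l) :
    DMA s A b l := Lab.DMf.mono h fun i => ⟨i, cnA_mono s A hab i⟩

theorem DMA.fine {s : MSys S M E ι} {A B : Part S} (hAB : PLe A B) {c : ℝ} {l : Lab S} (h : DMA s A c l) :
    DMA s B c l := Lab.DMf.mono h fun i => ⟨i, cnA_fine s hAB c i⟩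

namespace ZW

variable {s : MSys S M E ι} (Z : ZW s)

/-- parts in the space of the zoom -/
abbrev upz (A : Part S) : Part Z.sp := Z.l.up Z.e Z.e_pos A

theorem PLe_upz {A B : Part S} (h : PLe A B) : PLe (Z.upz A) (Z.upz B) := Lab.PLe_up (l := Z.l) (c := Z.e) (hc := Z.e_pos) h

/-- the point of the zoom -/
theorem pcd_up : PLe (pcd (Z.fr s.Q)) (Z.upz (pcd s.Q)) := by
  refine Z.fr_PLe s.Q 1 (fun k => Setoid.comap (Z.l k).p.π (Setoid.ker (s.Q.cellv 1 k))) ?_
  refine Eventually.of_forall fun k ω ω' a b g r => ?_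
  obtain ⟨g1, g2, -⟩ := Z.hZ k ω ω' a b g
  refine ⟨Z.cell k ω ω' a b g1 g2, ?_⟩
  rw [mul_one, Z.c_add_e]
  exact r

theorem up_pcd : PLe (Z.upz (pcd s.Q)) (pcd (Z.fr s.Q)) := by
  have h1 := Z.fr_PLe' s.Q 1 (fun k => Setoid.ker ((Z.fr s.Q).cellv 1 k)) (by
    refine Eventually.of_forall fun k ω ω' a b g r => ?_
    obtain ⟨g1, g2, -⟩ := Z.hZ k ω ω' a b g
    exact ⟨Z.cell k ω ω' a b g1 g2, r⟩)
  rw [mul_one, Z.c_add_e] at h1
  exact h1

/-- the window `c + e b` in the space of the label -/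
def wz (l : Leaf S s.Q E) (b : ℝ) (k : ℕ) : Setoid (Z.l k).T.Ω :=
  Setoid.comap (Z.l k).p.π (l.La k ⊓ Setoid.ker (l.Y.cellv (Z.c + Z.e * b) k))

theorem wz_fc (l : Leaf S s.Q E) (b : ℝ) : (fun k => (fc (Z.wz l b k : Setoid (Z.sp.F k).Ω) : FL (Z.sp.F k))) =
    Z.upz (l.win (Z.c + Z.e * b)) := rfl

theorem zLa_wz (l : Leaf S s.Q E) {b : ℝ} (hb : 0 ≤ b) :
    PLe (S := Z.sp) (fun k => fc (Z.zLa l k : Setoid (Z.sp.F k).Ω)) (fun k => fc (Z.wz l b k : Setoid (Z.sp.F k).Ω)) := by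
  have hm : Z.c ≤ Z.c + Z.e * b := by
    have := mul_nonneg Z.e_pos.le hb
    linarith
  have h1 : PLe (l.win Z.c) (l.win (Z.c + Z.e * b)) := l.win_mono hm
  have h2 : PLe (Z.upz (l.win Z.c)) (Z.upz (l.win (Z.c + Z.e * b))) := Z.PLe_upz h1
  rw [← wz_fc] at h2
  exact h2

/-- windows of the zoom are functions of windows -/
theorem win_up (l : Leaf S s.Q E) (hl : Nul S (fun k => (Z.l k).leak (l.win Z.c k))) {b : ℝ} (hb : 0 ≤ b) :
    PLe ((Z.leaf l hl).win b) (Z.upz (l.win (Z.c + Z.e * b))) := by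
  have h1 := Z.zLa_wz l hb
  have h2 := Z.fr_PLe l.Y b (fun k => Z.wz l b k ⊓ Z.zLa l k)
    (Eventually.of_forall fun k ω ω' _ _ _ r => ⟨r.2.2, r.1.2⟩)
  have h3 : PLe (S := Z.sp) (fun k => fc (Z.wz l b k ⊓ Z.zLa l k : Setoid (Z.sp.F k).Ω))
      (fun k => fc (Z.wz l b k : Setoid (Z.sp.F k).Ω)) :=
    PLe_inf (S := Z.sp) (A := Z.wz l b) (B := Z.zLa l) (X := fun k => fc (Z.wz l b k : Setoid (Z.sp.F k).Ω))
      (PLe.refl _) h1
  have h4 := PLe.trans (S := Z.sp) h2 h3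
  have h5 := PLe_inf (S := Z.sp) (A := Z.zLa l) (B := fun k => Setoid.ker ((Z.fr l.Y).cellv b k)) h1 h4
  exact h5

/-- windows are functions of windows of the zoom -/
theorem up_win (l : Leaf S s.Q E) (hl : Nul S (fun k => (Z.l k).leak (l.win Z.c k))) (b : ℝ) :
    PLe (Z.upz (l.win (Z.c + Z.e * b))) ((Z.leaf l hl).win b) := by
  have h1 : PLe (S := Z.sp) (fun k => fc (Setoid.comap (Z.l k).p.π (l.La k) : Setoid (Z.sp.F k).Ω))
      (fun k => fc (Z.zLa l k ⊓ Setoid.ker ((Z.fr l.Y).cellv b k) : Setoid (Z.sp.F k).Ω)) :=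
    PLe_of_le (S := Z.sp) fun k => fc_le fun ω ω' _ _ _ r => r.1.1
  have h2 := Z.fr_PLe' l.Y b (fun k => Z.zLa l k ⊓ Setoid.ker ((Z.fr l.Y).cellv b k))
    (Eventually.of_forall fun k ω ω' _ _ _ r => ⟨r.1.2, r.2⟩)
  have h3 := PLe_inf (S := Z.sp) (A := fun k => (Setoid.comap (Z.l k).p.π (l.La k) : Setoid (Z.sp.F k).Ω))
    (B := fun k => (Setoid.comap (Z.l k).p.π (Setoid.ker (l.Y.cellv (Z.c + Z.e * b) k)) : Setoid (Z.sp.F k).Ω)) h1 h2
  exact h3

/-- CONDITIONS OF THE ZOOM -/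
theorem cnA_up {A : Part S} {A' : Part Z.sp} (hA : PLe A' (Z.upz A)) {b : ℝ} (hb : 0 ≤ b) (i : Option ι) :
    PLe (cnA Z.sys A' b i) (Z.upz (cnA s A (Z.c + Z.e * b) i)) := by
  rcases i with _ | i
  · exact hA
  · exact Z.win_up (s.lf i) (Z.dm i) hb

theorem up_cnA {A : Part S} {A' : Part Z.sp} (hA : PLe (Z.upz A) A') (b : ℝ) (i : Option ι) :
    PLe (Z.upz (cnA s A (Z.c + Z.e * b) i)) (cnA Z.sys A' b i) := by
  rcases i with _ | i
  · exact hA
  · exact Z.up_win (s.lf i) (Z.dm i) b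

theorem c_le {b : ℝ} (hb : 0 ≤ b) : Z.c ≤ Z.c + Z.e * b := by
  have := mul_nonneg Z.e_pos.le hb
  linarith

/-- labels of the zoom, in terms of the conditions of the system -/
theorem DMA_iff (A : Part S) {b : ℝ} (hb : 0 ≤ b) {y : Lab Z.sp} :
    DMA Z.sys (Z.upz A) b y ↔ y.DMf (fun i => Z.upz (cnA s A (Z.c + Z.e * b) i)) :=
  ⟨fun h => Lab.DMf.mono h fun i => ⟨i, Z.cnA_up (PLe.refl _) hb i⟩,
    fun h => Lab.DMf.mono h fun i => ⟨i, Z.up_cnA (PLe.refl _) b i⟩⟩

/-- labels of the zoom as labels of the system -/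
def cl (y : Lab Z.sp) : Lab S := Z.l.comp Z.e Z.e_pos y

/-- labels of the system over the label of the zoom -/
def ov (y : Lab S) : Lab Z.sp := Z.l.ovl Z.e Z.e_pos y

/-- the label of the zoom has the condition `A` -/
theorem dmA {A : Part S} (hA : Nul S fun k => (Z.l k).leak (A k)) : DMA s A Z.c Z.l := by
  intro i
  rcases i with _ | i
  · exact hA
  · exact Z.dm i

/-- LABELS OF THE ZOOM ARE LABELS OF THE SYSTEM -/
theorem DMA_cl {A : Part S} (hA : Nul S fun k => (Z.l k).leak (A k)) {b : ℝ} (hb : 0 ≤ b) {y : Lab Z.sp}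
    (hy : DMA Z.sys (Z.upz A) b y) : DMA s A (Z.c + Z.e * b) (Z.cl y) :=
  Lab.DMf.comp ((Z.dmA hA).mono (Z.c_le hb)) ((Z.DMA_iff A hb).mp hy)

/-- labels of the system are labels of the zoom -/
theorem DMA_ov {A : Part S} {b : ℝ} (hb : 0 ≤ b) {y : Lab S} (hy : DMA s A (Z.c + Z.e * b) y) :
    DMA Z.sys (Z.upz A) b (Z.ov y) := (Z.DMA_iff A hb).mpr (Lab.DMf.ovl hy Z.l Z.e Z.e_pos)

/-- the window `b` of the zoom is the window `a` of the system -/
theorem win_rel {a : ℝ} : Z.c + Z.e * ((a - Z.c) / Z.e) = a := by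
  have := Z.e_pos.ne'
  field_simp
  ring

end ZW

/-- the cells of level `c` are known to every window `c` -/
theorem cW_nul_win (s : MSys S M E ι) {c : ℝ} (h0 : 0 ≤ c) (h1 : c ≤ 1) (l : Lab S) (i : ι) :
    Nul S (fun k => h (fc (cW s c l k) : FL (l k).T) ((l k).v ⊔ (l k).p.map ((s.lf i).win c k))) :=
  cW_nul s h0 h1 l (some i)

/-- a label with the cells of level `c` of the point, the condition at the point is any partition finer than the cells -/
theorem cL_DMA {s : MSys S M E ι} {A : Part S} {c : ℝ} (h0 : 0 ≤ c) (h1 : c ≤ 1)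
    (hA : PLe (fun k => fc (Setoid.ker (s.Q.cellv c k))) A) {l : Lab S} (hl : DMA s A c l) : DMA s A c (cL s c l) := by
  refine Lab.DMf.addW hl _ fun i => ?_
  rcases i with _ | i
  · refine Nul.of_le hA (Eventually.of_forall fun k => h_nonneg _ _) (Eventually.of_forall fun k => ?_)
    refine (h_anti (le_sup_right : (l k).p.map (A k) ≤ _)).trans ?_
    exact ((l k).p.h_map (fc (Setoid.ker (s.Q.cellv c k))) (A k)).le
  · exact cW_nul_win s h0 h1 l i

/-- THE DATA OF A DEEP ZOOM from a label of the window `c` -/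
def mkw (s : MSys S M E ι) {A : Part S} {c : ℝ} (h0 : 0 ≤ c) (h1 : c < 1)
    (hA : PLe (fun k => fc (Setoid.ker (s.Q.cellv c k))) A) {l : Lab S} (hl : DMA s A c l) : ZW s where
  l := cL s c l
  c := c
  h0 := h0
  h1 := h1
  dm := fun i => cL_DMA h0 h1.le hA hl (some i)
  cell := fun _ _ _ _ _ hV _ => hV.2

/-- the zoom of helper26 is a deep zoom -/
def ofZM {s : MSys S M E ι} (Z : ZM s) : ZW s where
  l := Z.l
  c := Z.c
  h0 := Z.h0
  h1 := Z.h1
  dm := fun i => Z.dm (some i)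
  cell := Z.cell

end

end Pool.Agent.Helper89.RAD
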