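import Pool.Agent.Helper66.MT.Spj
import Pool.Agent.Helper89.RAD.Rd

/-! DEEP K-LABELS, SPEED. The constructions of `Helper66/MT/{Lfm,Spd,Spj}` with any condition `B0` at the point which is
finer than its cells of level one, and with the description of the new label: it is a function of the old form and of the
point. So the new label is again without any leak at a resolution which determines the point. -/

set_option autoImplicit false

namespace Pool.Agent.Helper89.RAD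

open Finset Filter Topology Matrix Pool.Agent.Helper69.RK Pool.Agent.Helper31.EC Pool.Agent.Helper31.EC.Sp
open Pool.Agent.Helper40.EL Pool.Agent.Helper84.MT Pool.Agent.Helper89.LX
open Pool.Agent.Helper3.LF (typ_and typ_mono mkFD sp_Sub sp_n typ_sub_le typ_of_sub_le Sub_powN lb Mon pol vv ph ga phi gam
  nodp ph_nonneg phi_nonneg phi_mono phi_smul nn nn_one Cu Cm Cu_one Cm_one ga_nonneg gam_nonneg gam_mono gam_smul)
open Pool.Agent.Helper95.LF (PdM NearM round_mat values_card)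
open Pool.Agent.Helper59.LF (fadd fadd_leak ladd)
open Pool.Agent.Helper66.MT (DMf_ladd adf_fm nul_round capg capg_Cpd capg_eq qf_smul qf_add' qf_one inv_symm qf_inv inv_pdM
  pd_psd inv_anti NQ qf_NQ NQ_pdM phi_NQ NQ_ge NQ_fun NQ_near NQ_leaf Sub_sum typ_true typ_all adf_sub
  abs_sub_lt_of_floor_eq cJ cJ_nonneg Jq_fun gam_fun gam_eq_sum)
open Pool.Agent.Helper89.RAK (KC Lit addW_kz)

noncomputable section

section fl

variable {S : Sp} {ι κ : Type} [Fintype ι] [DecidableEq ι]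

/-- **FORM LABEL** -/
theorem form_labelK [Finite κ] (Φ : Gau S ι) (hmono : ∀ k ω, ∀ A B : Matrix ι ι ℝ, Psd A → Psd B →
      (∀ v, qf A v ≤ qf B v) → Φ.φ k ω A ≤ Φ.φ k ω B) (hsmul : ∀ k ω (c : ℝ), ∀ A : Matrix ι ι ℝ,
      Φ.φ k ω (c • A) = c * Φ.φ k ω A) (B : κ → ∀ k, Setoid (S.F k).Ω) {l : Lab S}
    (hl : l.DMf (fun i k => fc (B i k))) (G : ∀ k, (l k).T.Ω → Matrix ι ι ℝ)
    (hG : ∀ᶠ k in UF, ∀ ω, (l k).T.μ ω ≠ 0 → Cpd (Φ.cp k) (G k ω))
    {K : ℕ → ℝ} (hK : S.Sub K) (hφ : Sp.Typ (S := l.sp) (fun k (ω : (l k).T.Ω) => Φ.φ k ((l k).p.π ω) (G k ω) ≤ K k))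
    (E : ∀ k, (l k).T.Ω → Prop) (hE : Sp.Typ (S := l.sp) E)
    (hn : ∀ i, ∀ᶠ k in UF, ∀ ω ω', (l k).T.μ ω ≠ 0 → (l k).T.μ ω' ≠ 0 → E k ω → E k ω' →
      (l k).V ω ω' → (l k).T.Z ω ω' → B i k ((l k).p.π ω) ((l k).p.π ω') →
      ∀ v, qf (G k ω) v ≤ K k * qf (G k ω') v) :
    ∃ (W : ∀ k, Setoid (l k).T.Ω) (g : ∀ k, (l k).T.Ω → Matrix ι ι ℝ)
      (hm : ∀ k ω ω', (l k).T.μ ω ≠ 0 → (l k).T.μ ω' ≠ 0 → (fadd (l k) (W k)).V ω ω' → (l k).T.Z ω ω' →
        g k ω = g k ω'),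
      (∀ k ω ω', G k ω = G k ω' → W k ω ω') ∧
      Φ.Adf (fun i k => fc (B i k)) (fun k => mkFD (fadd (l k) (W k)) (g k) (hm k)) ∧
      ∃ K' : ℕ → ℝ, S.Sub K' ∧ Sp.Typ (S := l.sp) (fun k (ω : (l k).T.Ω) =>
        (∀ v, qf (G k ω) v ≤ K' k * qf (g k ω) v) ∧ ∀ v, qf (g k ω) v ≤ K' k * qf (G k ω) v) := by
  classical
  obtain ⟨C, N, hC1, hC⟩ := round_mat ι
  set L : ℕ → ℝ := fun k => Real.log (|K k| + 3) with hL
  have hL3 : ∀ k, (3 : ℝ) ≤ |K k| + 3 := fun k => by linarith [abs_nonneg (K k)]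
  have hL1 : ∀ k, 1 ≤ L k := by
    intro k
    rw [hL, Real.le_log_iff_exp_le (by linarith [hL3 k])]
    have := Real.exp_one_lt_d9
    linarith [hL3 k]
  choose Q hQ1 hQ2 using fun k => hC (L k) (hL1 k)
  have hN : 1 ≤ N := by
    obtain ⟨X, hX, hX'⟩ := hQ2 0 1 ⟨Matrix.isSymm_one, fun x hx => by
      rw [Matrix.one_mulVec]; exact dot_self_pos hx⟩
    have h1 := hX' 1 ⟨Matrix.isSymm_one, fun x hx => by
      rw [Matrix.one_mulVec]; exact dot_self_pos hx⟩ ⟨fun x => by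
        have h2 : 1 ≤ Real.exp (L 0) := Real.one_le_exp (by linarith [hL1 0])
        rw [Matrix.one_mulVec]
        nlinarith [dot_self_nonneg x], fun x => by
        have h2 : 1 ≤ Real.exp (L 0) := Real.one_le_exp (by linarith [hL1 0])
        rw [Matrix.one_mulVec]
        nlinarith [dot_self_nonneg x]⟩
    exact (Finset.card_pos.mpr ⟨_, h1⟩).trans_le hX
  have hexpL : ∀ k, Real.exp (L k) = |K k| + 3 := fun k => Real.exp_log (by linarith [hL3 k])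
  -- the factor of the rounding
  set cN : ℕ := ⌈C⌉₊ with hcN
  set e : ℕ → ℝ := fun k => (|K k| + 3) ^ cN with he
  have he1 : ∀ k, 1 ≤ e k := fun k => one_le_pow₀ (by linarith [hL3 k])
  have heC : ∀ k, Real.exp (C * L k) ≤ e k := by
    intro k
    have h1 : C * L k ≤ cN * L k := mul_le_mul_of_nonneg_right (Nat.le_ceil C) (by linarith [hL1 k])
    refine (Real.exp_le_exp.mpr h1).trans (le_of_eq ?_)
    rw [Real.exp_nat_mul, hexpL]
  have heS : S.Sub e := by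
    have h1 : S.Sub (fun k => |K k| + 3) := by
      refine Sp.Sub.mono (hK.add (S.Sub_const (K := 3) (by norm_num))) (Eventually.of_forall fun k => by
        linarith [hL3 k]) ?_
      filter_upwards [hK.1] with k hk
      rw [abs_of_nonneg hk]
    exact Sub_powN h1 cN
  -- the forms
  set g : ∀ k, (l k).T.Ω → Matrix ι ι ℝ := fun k ω => capg (Φ.cp k) (e k • Q k (G k ω)) with hg
  set W : ∀ k, Setoid (l k).T.Ω := fun k => Setoid.ker fun ω => Q k (G k ω) with hW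
  have hm : ∀ k ω ω', (l k).T.μ ω ≠ 0 → (l k).T.μ ω' ≠ 0 → (fadd (l k) (W k)).V ω ω' → (l k).T.Z ω ω' →
      g k ω = g k ω' := by
    intro k ω ω' _ _ h3 _
    have h4 : Q k (G k ω) = Q k (G k ω') := h3.2
    simp only [hg, h4]
  have qsm : ∀ (c : ℝ) (A : Matrix ι ι ℝ) (v : ι → ℝ), qf (c • A) v = c * qf A v := by
    intro c A v
    unfold qf
    rw [Matrix.smul_mulVec, dotProduct_smul, smul_eq_mul]
  -- comparison of the rounding
  have hcmp : ∀ᶠ k in UF, ∀ ω, (l k).T.μ ω ≠ 0 → Psd (e k • Q k (G k ω)) ∧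
      (∀ v, qf (G k ω) v ≤ qf (e k • Q k (G k ω)) v) ∧ ∀ v, qf (e k • Q k (G k ω)) v ≤ e k ^ 2 * qf (G k ω) v := by
    filter_upwards [hG] with k hk ω hω
    obtain ⟨p1, p2, p3⟩ := hQ1 k (G k ω) (hk ω hω).pdM
    have he0 := he1 k
    have hnn : ∀ v, 0 ≤ qf (Q k (G k ω)) v := by
      intro v
      by_cases hv : v = 0
      · subst hv
        unfold qf
        simp
      · exact (p1.2 v hv).le
    refine ⟨⟨p1.1.smul _, fun v => ?_⟩, fun v => ?_, fun v => ?_⟩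
    · rw [qsm]
      exact mul_nonneg (by linarith) (hnn v)
    · rw [qsm]
      exact (p2 v).trans (mul_le_mul_of_nonneg_right (heC k) (hnn v))
    · rw [qsm, pow_two, mul_assoc]
      apply mul_le_mul_of_nonneg_left _ (by linarith)
      exact (p3 v).trans (mul_le_mul_of_nonneg_right (heC k) ((hk ω hω).psd.2 v))
  have hφ2 : Sp.Typ (S := l.sp) (fun k (ω : (l k).T.Ω) => Φ.φ k ((l k).p.π ω) (e k • Q k (G k ω)) ≤
      e k ^ 2 * K k) := by
    refine typ_mono hφ ?_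
    filter_upwards [hcmp, hG] with k a b ω hω h1
    obtain ⟨a1, a2, a3⟩ := a ω hω
    have he0 := he1 k
    have h2 := hmono k ((l k).p.π ω) (e k • Q k (G k ω)) (e k ^ 2 • G k ω) a1
      ⟨(b ω hω).1.smul _, fun v => by rw [qsm]; exact mul_nonneg (by positivity) ((b ω hω).psd.2 v)⟩
      (fun v => by rw [qsm (e k ^ 2)]; exact a3 v)
    rw [hsmul k _ (e k ^ 2)] at h2
    exact h2.trans (mul_le_mul_of_nonneg_left h1 (by positivity))
  have hK2 : S.Sub (fun k => e k ^ 2 * K k) := (Sub_powN heS 2).mul hK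
  -- the cap is not reached typically
  have hcap : Sp.Typ (S := l.sp) (fun k (ω : (l k).T.Ω) => Cpd (Φ.cp k) (e k • Q k (G k ω))) := by
    refine typ_mono hφ2 ?_
    filter_upwards [hcmp, hG, Φ.cap, hK2.eventually_le one_pos] with k a b c d ω hω h1
    obtain ⟨a1, a2, a3⟩ := a ω hω
    refine ⟨a1.1, fun v => ((b ω hω).2.1 v).trans (a2 v), fun v => ?_⟩
    have hpd : PdM (e k • Q k (G k ω)) := ⟨a1.1, fun v hv =>
      lt_of_lt_of_le (dot_self_pos hv) (((b ω hω).2.1 v).trans (a2 v))⟩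
    refine (c ((l k).p.π ω) ((l k).p.supp ω hω) _ hpd v).trans ?_
    apply mul_le_mul_of_nonneg_right _ (dot_self_nonneg v)
    unfold Gau.cp
    rw [add_mul, Real.rpow_add (by norm_num)]
    apply mul_le_mul_of_nonneg_left _ (by positivity)
    linarith
  obtain ⟨K1, hK1, hone⟩ := Φ.one
  refine ⟨W, g, hm, fun k ω ω' h => congrArg (Q k) h, ?_, fun k => e k ^ 2, Sub_powN heS 2, ?_⟩
  · apply Pool.Agent.Helper66.MT.adf_mk (Φ := Φ) (fun k => mkFD (fadd (l k) (W k)) (g k) (hm k)) _ (fun k => rfl)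
      (Eventually.of_forall fun k ω _ => capg_Cpd (Φ.one_le_cp k) _) (fun k => e k ^ 2 * K k + K1 k) (hK2.add hK1)
    · refine typ_mono (S := l.sp) hφ2 ?_
      filter_upwards [hone, hK1.1, hK.1] with k a b c ω hω h1
      have a1 := a _ ((l k).p.supp ω hω)
      have he0 := he1 k
      have h2 : 0 ≤ e k ^ 2 * K k := by positivity
      show Φ.φ k ((l k).p.π ω) (capg (Φ.cp k) (e k • Q k (G k ω))) ≤ e k ^ 2 * K k + K1 k
      unfold capg
      split_ifs with h3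
      · linarith
      · linarith
    · apply DMf_ladd hl W
      intro i
      apply nul_round Φ (B i) G hG N hN L hL1 Q hQ2 E hE
      filter_upwards [hn i, hG] with k a b ω ω' h1 h2 h3 h4 h5 h6 h7
      have a1 := a ω ω' h1 h2 h3 h4 h5 h6 h7
      have a2 := a ω' ω h2 h1 h4 h3 ((l k).V.symm' h5) ((l k).T.Z.symm' h6) ((B i k).symm' h7)
      have hKe : K k ≤ Real.exp (L k) := by
        rw [hexpL]
        linarith [le_abs_self (K k)]
      exact ⟨fun v => (a1 v).trans (mul_le_mul_of_nonneg_right hKe ((b ω' h2).psd.2 v)),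
        fun v => (a2 v).trans (mul_le_mul_of_nonneg_right hKe ((b ω h1).psd.2 v))⟩
  · refine typ_mono hcap ?_
    filter_upwards [hcmp, hG] with k a b ω hω h1
    obtain ⟨a1, a2, a3⟩ := a ω hω
    have he0 := he1 k
    show (∀ v, qf (G k ω) v ≤ e k ^ 2 * qf (capg (Φ.cp k) (e k • Q k (G k ω))) v) ∧
      ∀ v, qf (capg (Φ.cp k) (e k • Q k (G k ω))) v ≤ e k ^ 2 * qf (G k ω) v
    rw [capg_eq h1]
    refine ⟨fun v => (a2 v).trans ?_, a3⟩
    have h2 : 1 ≤ e k ^ 2 := one_le_pow₀ he0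
    nlinarith [a1.2 v]

end fl

variable {S : Sp} {M : ℕ} {E : ℕ → ℕ} {ι : Type} {D : ℕ}

/-- the setoids of the conditions, `B0` at the point -/
def cndC (s : MSys S M E ι) (B0 : ∀ k, Setoid (S.F k).Ω) (c : ℝ) : Option ι → ∀ k, Setoid (S.F k).Ω
  | none => B0
  | some i => fun k => (s.lf i).La k ⊓ Setoid.ker ((s.lf i).Y.cellv c k)

theorem cndC_eq (s : MSys S M E ι) (B0 : ∀ k, Setoid (S.F k).Ω) (c : ℝ) :
    (fun i k => fc (cndC s B0 c i k)) = cnA s (dp B0) c := by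
  funext i k
  cases i <;> rfl

/-- **SPEED** -/
theorem speedB [Finite ι] (s : MSys S M E ι) {B0 : ∀ k, Setoid (S.F k).Ω} (hB0 : ∀ k, B0 k ≤ Setoid.ker (s.Q.cellv 1 k))
    {c c' : ℝ} (h0 : 0 ≤ c) (hc1 : c < 1) (hcc : c ≤ c')
    {x : ∀ k, FD (S.F k) (Mon M D)} (hx : (gaq s.Q D).Adf (cnA s (dp B0) c) x) :
    ∃ (W : ∀ k, Setoid (x k).l.T.Ω) (g : ∀ k, (x k).l.T.Ω → Matrix (Mon M D) (Mon M D) ℝ)
      (hm : ∀ k ω ω', (x k).l.T.μ ω ≠ 0 → (x k).l.T.μ ω' ≠ 0 → (fadd (x k).l (W k)).V ω ω' → (x k).l.T.Z ω ω' →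
        g k ω = g k ω'),
      (∀ k ω ω', (x k).g ω = (x k).g ω' → s.Q.v k ((x k).l.p.π ω) = s.Q.v k ((x k).l.p.π ω') → W k ω ω') ∧
      (gaq s.Q D).Adf (cnA s (dp B0) c') (fun k => mkFD (fadd (x k).l (W k)) (g k) (hm k)) ∧
      ∃ K : ℕ → ℝ, S.Sub K ∧ (∀ᶠ k in UF, 1 ≤ K k) ∧ Sp.Typ (S := (lb x).sp) (fun k (ω : (x k).l.T.Ω) =>
        ∀ f : Mon M D → ℝ, (∀ z, (f ⬝ᵥ z) ^ 2 ≤ (S.dl c k / S.dl c' k) ^ 2 * qf ((x k).g ω) z) →
          ph D (pol f) (S.dl 1 k) (s.Q.v k ((x k).l.p.π ω)) ≤ 1 → ∀ z, (f ⬝ᵥ z) ^ 2 ≤ K k * qf (g k ω) z) := by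
  classical
  obtain ⟨K1, hK1, hφ⟩ := adf_sub hx
  have hdm := Gau.Adf.dm (gaq s.Q D) hx
  obtain ⟨K0, hK0, hone⟩ := (gaq s.Q D).one
  have hC : ∀ᶠ k in UF, ∀ ω, (x k).l.T.μ ω ≠ 0 → Cpd ((gaq s.Q D).cp k) ((x k).g ω) := by
    filter_upwards [(adf_fm.mp hx).2 1 one_pos] with k hk ω hω
    exact (hk.1 ω hω).1
  have hA : ∀ᶠ k in UF, ∀ ω, (x k).l.T.μ ω ≠ 0 → PdM ((x k).g ω) := by
    filter_upwards [hC] with k hk ω hω
    exact (hk ω hω).pdM
  have hlf : ∀ i : ι, ∃ (K : ℕ → ℝ) (G : ∀ k, (x k).l.T.Ω → Prop), S.Sub K ∧ Sp.Typ (S := (lb x).sp) G ∧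
      ∀ᶠ k in UF, ∀ ω ω', (x k).l.T.μ ω ≠ 0 → (x k).l.T.μ ω' ≠ 0 → G k ω → G k ω' → (x k).l.V ω ω' →
      (x k).l.T.Z ω ω' → cndC s B0 c' (some i) k ((x k).l.p.π ω) ((x k).l.p.π ω') → ∀ v,
      qf (NQ ((S.dl c' k / S.dl c k) ^ 2) ((x k).g ω) (S.dl 1 k) (s.Q.v k ((x k).l.p.π ω))) v ≤
        K k * qf (NQ ((S.dl c' k / S.dl c k) ^ 2) ((x k).g ω') (S.dl 1 k) (s.Q.v k ((x k).l.p.π ω'))) v :=
    fun i => NQ_leaf (s.lf i) h0 hc1 hcc (hdm (some i)) hA hK1 hφ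
  choose KL Ge hKL hGe hcmp using hlf
  cases nonempty_fintype ι
  set ep : ℕ → ℝ := fun k => (S.dl c' k / S.dl c k) ^ 2 with hep
  have hep0 : ∀ k, 0 < ep k := fun k => by
    have h1 := S.dl_pos c' k
    have h2 := S.dl_pos c k
    positivity
  have hep1 : ∀ k, ep k ≤ 1 := fun k => by
    have h1 := S.dl_pos c' k
    have h2 := S.dl_pos c k
    apply pow_le_one₀ (by positivity)
    rw [div_le_one h2]
    exact S.dl_anti hcc k
  set N : ∀ k, (x k).l.T.Ω → Matrix (Mon M D) (Mon M D) ℝ := fun k ω =>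
    NQ (ep k) ((x k).g ω) (S.dl 1 k) (s.Q.v k ((x k).l.p.π ω)) with hN
  set G : ∀ k, (x k).l.T.Ω → Matrix (Mon M D) (Mon M D) ℝ := fun k ω => (K0 k + 1) • (N k ω)⁻¹ with hG
  have hnn := nn_one M D
  have hcM := cM_one M D one_le_two
  -- the constant
  set K : ℕ → ℝ := fun k => (K0 k + 1) * nn M D + cM M D 2 + ∑ i, KL i k with hK
  have hKS : S.Sub K := ((((hK0.add (S.Sub_const zero_le_one)).mul (S.Sub_const (by linarith))).add
    (S.Sub_const (by linarith))).add (Sub_sum _ _ fun i _ => hKL i))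
  have hKLn : ∀ᶠ k in UF, ∀ i, 0 ≤ KL i k := by
    rw [eventually_all]
    exact fun i => (hKL i).1
  -- the forms are above the identity
  have hlow : ∀ᶠ k in UF, ∀ ω, (x k).l.T.μ ω ≠ 0 → PdM (N k ω) ∧ (∀ z, z ⬝ᵥ z ≤ qf (G k ω) z) ∧
      phi (S.dl 1 k) (G k ω) (s.Q.v k ((x k).l.p.π ω)) ≤ (K0 k + 1) * nn M D := by
    filter_upwards [hC, hone, hK0.1] with k a b d ω hω
    have hP := (a ω hω).pdM
    refine ⟨NQ_pdM (hep0 k) hP, fun z => ?_, ?_⟩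
    · rw [hG]
      simp only [qf_smul]
      exact NQ_ge (hep0 k) (hep1 k) hP (a ω hω).2.1 d (b _ ((x k).l.p.supp ω hω)) z
    · rw [hG]
      simp only [phi_smul]
      exact mul_le_mul_of_nonneg_left (phi_NQ (hep0 k) hP) (by linarith)
  have hGC : ∀ᶠ k in UF, ∀ ω, (x k).l.T.μ ω ≠ 0 → Cpd ((gaq s.Q D).cp k) (G k ω) := by
    filter_upwards [hlow, (gaq s.Q D).cap, ((hK0.add (S.Sub_const zero_le_one)).mul
      (S.Sub_const (K := nn M D) (by linarith))).eventually_le one_pos, hK0.1] with k a b d e ω hω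
    obtain ⟨a1, a2, a3⟩ := a ω hω
    have hs : (G k ω).IsSymm := (inv_symm a1).smul _
    refine ⟨hs, a2, fun z => ?_⟩
    have hpd : PdM (G k ω) := ⟨hs, fun v hv => lt_of_lt_of_le (dot_self_pos hv) (a2 v)⟩
    refine (b ((x k).l.p.π ω) ((x k).l.p.supp ω hω) _ hpd z).trans ?_
    apply mul_le_mul_of_nonneg_right _ (dot_self_nonneg z)
    unfold Gau.cp
    rw [add_mul, Real.rpow_add (by norm_num)]
    apply mul_le_mul_of_nonneg_left _ (by positivity)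
    refine a3.trans ?_
    linarith
  have hφG : Sp.Typ (S := (lb x).sp) (fun k (ω : (x k).l.T.Ω) =>
      (gaq s.Q D).φ k ((x k).l.p.π ω) (G k ω) ≤ K k) := by
    refine typ_mono (S := (lb x).sp) typ_true ?_
    filter_upwards [hlow, hKLn] with k a b ω hω _
    refine (a ω hω).2.2.trans ?_
    have h1 : 0 ≤ ∑ i, KL i k := Finset.sum_nonneg fun i _ => b i
    simp only [hK]
    linarith
  have hn : ∀ i, ∀ᶠ k in UF, ∀ ω ω', (lb x k).T.μ ω ≠ 0 → (lb x k).T.μ ω' ≠ 0 → (∀ i, Ge i k ω) → (∀ i, Ge i k ω') →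
      (lb x k).V ω ω' → (lb x k).T.Z ω ω' → cndC s B0 c' i k ((lb x k).p.π ω) ((lb x k).p.π ω') →
      ∀ v, qf (G k ω) v ≤ K k * qf (G k ω') v := by
    intro i
    have key : ∀ k ω ω' (L : ℝ), 0 ≤ L → L ≤ K k → PdM (N k ω) → PdM (N k ω') → 0 ≤ K0 k →
        (∀ v, qf (N k ω') v ≤ L * qf (N k ω) v) → ∀ v, qf (G k ω) v ≤ K k * qf (G k ω') v := by
      intro k ω ω' L hL0 hLK h1 h2 hK0k h3 v
      have h4 := inv_anti h2 h1 hL0 h3 v
      have h5 : 0 ≤ qf (N k ω')⁻¹ v := (pd_psd (inv_pdM h2)).2 v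
      have h6 : qf (N k ω)⁻¹ v ≤ K k * qf (N k ω')⁻¹ v := h4.trans (mul_le_mul_of_nonneg_right hLK h5)
      simp only [hG, qf_smul]
      have := mul_le_mul_of_nonneg_left h6 (by linarith : 0 ≤ K0 k + 1)
      linarith
    cases i with
    | none =>
      filter_upwards [hlow, hK0.1, hKLn, hA] with k a b d e ω ω' hω hω' _ _ hV hZ hB v
      have h1 : 0 ≤ ∑ i, KL i k := Finset.sum_nonneg fun i _ => d i
      apply key k ω ω' (cM M D 2) (by linarith) (by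
        simp only [hK]
        have : 0 ≤ (K0 k + 1) * nn M D := by positivity
        linarith) (a ω hω).1 (a ω' hω').1 b
      intro v
      have hAe : (x k).g ω = (x k).g ω' := ((x k).meas ω ω' hω hω' hV hZ).1
      simp only [hN, ← hAe]
      apply NQ_near (e ω hω) (hep0 k) (S.dl_pos 1 k)
      intro j
      exact abs_sub_le_of_floor_eq (S.dl_pos 1 k) (congrFun (hB0 k hB) j).symm
    | some i =>
      filter_upwards [hlow, hK0.1, hKLn, hcmp i] with k a b d e ω ω' hω hω' hE hE' hV hZ hB v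
      apply key k ω ω' (KL i k) (d i) (by
        simp only [hK]
        have h1 : KL i k ≤ ∑ i, KL i k := Finset.single_le_sum (fun i _ => d i) (Finset.mem_univ i)
        have : 0 ≤ (K0 k + 1) * nn M D := by positivity
        linarith) (a ω hω).1 (a ω' hω').1 b
      intro v
      exact e ω' ω hω' hω (hE' i) (hE i) ((x k).l.V.symm' hV) ((x k).l.T.Z.symm' hZ)
        ((cndC s B0 c' (some i) k).symm' hB) v
  have hdm' : (lb x).DMf (fun i k => fc (cndC s B0 c' i k)) := by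
    rw [cndC_eq]
    exact DMA.mono hcc hdm
  obtain ⟨W, g, hm, hWG, hadf, K', hK', hT⟩ := form_labelK (gaq s.Q D)
    (fun k ω A B _ _ h => phi_mono _ h _) (fun k ω c A => phi_smul _ _ _ _) (cndC s B0 c') hdm' G hGC hKS hφG _
    (typ_all (S := (lb x).sp) hGe) hn
  rw [cndC_eq] at hadf
  refine ⟨W, g, hm, fun k ω ω' e1 e2 => hWG k ω ω' (by simp only [hG, hN, e1, e2]), hadf, fun k => 2 * K' k + 1, ((S.Sub_const zero_le_two).mul hK').add (S.Sub_const zero_le_one), ?_, ?_⟩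
  · filter_upwards [hK'.1] with k hk
    linarith
  refine typ_mono (S := (lb x).sp) hT ?_
  filter_upwards [hlow, hK0.1, hC, hK'.1] with k a b d e ω hω h1 f hf hp z
  obtain ⟨a1, a2, a3⟩ := a ω hω
  have hP := (d ω hω).pdM
  have hepi : (ep k)⁻¹ = (S.dl c k / S.dl c' k) ^ 2 := by
    simp only [hep]
    rw [← inv_pow, inv_div]
  have h2 := NQ_fun (hep0 k) hP (fun z => by rw [hepi]; exact hf z) hp z
  have h3 := h1.1 z
  have h4 : 0 ≤ qf (N k ω)⁻¹ z := (pd_psd (inv_pdM a1)).2 z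
  have h5 : qf (N k ω)⁻¹ z ≤ qf (G k ω) z := by
    simp only [hG, qf_smul]
    nlinarith
  have h6 : 0 ≤ qf (g k ω) z := by
    by_contra hc
    push Not at hc
    have h7 : 0 ≤ qf (G k ω) z := h4.trans h5
    have h8 := h1.2 z
    have h9 : K' k * qf (g k ω) z ≤ 0 := mul_nonpos_of_nonneg_of_nonpos e hc.le
    by_cases hz : z = 0
    · subst hz
      unfold qf at hc
      simp at hc
    · have h10 := (dot_self_pos hz).trans_le (a2 z)
      linarith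
  calc (f ⬝ᵥ z) ^ 2 ≤ 2 * qf (N k ω)⁻¹ z := h2
    _ ≤ 2 * (K' k * qf (g k ω) z) := by linarith
    _ ≤ (2 * K' k + 1) * qf (g k ω) z := by linarith

/-- **SPEED, functionals, Gram matrix of the gradients, gradient** -/
theorem speedB_all [Finite ι] (s : MSys S M E ι) {B0 : ∀ k, Setoid (S.F k).Ω}
    (hB0 : ∀ k, B0 k ≤ Setoid.ker (s.Q.cellv 1 k)) {c c' : ℝ} (h0 : 0 ≤ c) (hc1 : c < 1) (hcc : c ≤ c')
    {x : ∀ k, FD (S.F k) (Mon M D)} (hx : (gaq s.Q D).Adf (cnA s (dp B0) c) x) :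
    ∃ (W : ∀ k, Setoid (x k).l.T.Ω) (g : ∀ k, (x k).l.T.Ω → Matrix (Mon M D) (Mon M D) ℝ)
      (hm : ∀ k ω ω', (x k).l.T.μ ω ≠ 0 → (x k).l.T.μ ω' ≠ 0 → (fadd (x k).l (W k)).V ω ω' → (x k).l.T.Z ω ω' →
        g k ω = g k ω'),
      (∀ k ω ω', (x k).g ω = (x k).g ω' → s.Q.v k ((x k).l.p.π ω) = s.Q.v k ((x k).l.p.π ω') → W k ω ω') ∧
      (gaq s.Q D).Adf (cnA s (dp B0) c') (fun k => mkFD (fadd (x k).l (W k)) (g k) (hm k)) ∧
      ∃ K : ℕ → ℝ, S.Sub K ∧ (∀ᶠ k in UF, 1 ≤ K k) ∧ Sp.Typ (S := (lb x).sp) (fun k (ω : (x k).l.T.Ω) =>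
        (∀ f : Mon M D → ℝ, (∀ z, (f ⬝ᵥ z) ^ 2 ≤ (S.dl c k / S.dl c' k) ^ 2 * qf ((x k).g ω) z) →
          ph D (pol f) (S.dl 1 k) (s.Q.v k ((x k).l.p.π ω)) ≤ 1 → ∀ z, (f ⬝ᵥ z) ^ 2 ≤ K k * qf (g k ω) z) ∧
        (∀ e : Fin M → ℝ, min ((S.dl c k / S.dl c' k) ^ 2)
            ((S.dl 1 k ^ 2 * gam (S.dl 1 k) ((x k).g ω) (s.Q.v k ((x k).l.p.π ω)))⁻¹) *
            (e ⬝ᵥ (Jq (S.dl 1 k) ((x k).g ω) (s.Q.v k ((x k).l.p.π ω)) *ᵥ e)) ≤
          K k * (e ⬝ᵥ (Jq (S.dl 1 k) (g k ω) (s.Q.v k ((x k).l.p.π ω)) *ᵥ e))) ∧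
        min ((S.dl c k / S.dl c' k) ^ 2 * gam (S.dl 1 k) ((x k).g ω) (s.Q.v k ((x k).l.p.π ω)))
            ((S.dl 1 k ^ 2)⁻¹) ≤ K k * gam (S.dl 1 k) (g k ω) (s.Q.v k ((x k).l.p.π ω))) := by
  classical
  obtain ⟨K1, hK1, hφ⟩ := adf_sub hx
  obtain ⟨W, g, hm, hW, hadf, K, hK, hK2, hT⟩ := speedB (D := D) s hB0 h0 hc1 hcc hx
  have hC : ∀ᶠ k in UF, ∀ ω, (x k).l.T.μ ω ≠ 0 → Cpd ((gaq s.Q D).cp k) ((x k).g ω) := by
    filter_upwards [(adf_fm.mp hx).2 1 one_pos] with k hk ω hω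
    exact (hk.1 ω hω).1
  have hG : ∀ᶠ k in UF, ∀ ω, (x k).l.T.μ ω ≠ 0 → Cpd ((gaq s.Q D).cp k) (g k ω) := by
    filter_upwards [(adf_fm.mp hadf).2 1 one_pos] with k hk ω hω
    exact (hk.1 ω hω).1
  set K' : ℕ → ℝ := fun k => K k + cJ M D (K1 k) * K k with hK'
  have hcJ : S.Sub (fun k => cJ M D (K1 k)) := by
    unfold cJ
    have h1 : (0 : ℝ) ≤ nn M D * (1 + M * (Cu D * Cm M D)) ^ 2 := by
      have := nn_one M D
      positivity
    exact ((S.Sub_const (Nat.cast_nonneg _)).mul ((S.Sub_const zero_le_two).mul ((S.Sub_const zero_le_one).add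
      ((S.Sub_const (sq_nonneg _)).mul hK1)))).mul (S.Sub_const h1)
  refine ⟨W, g, hm, hW, hadf, K', hK.add (hcJ.mul hK), ?_, ?_⟩
  · filter_upwards [hK2, hK1.1] with k a b
    have h1 : (0 : ℝ) ≤ cJ M D (K1 k) := cJ_nonneg M D b
    have h2 : (0 : ℝ) ≤ K k := by linarith
    have h3 := mul_nonneg h1 h2
    simp only [hK']
    linarith
  · refine typ_mono (S := (lb x).sp) (typ_and hT hφ) ?_
    filter_upwards [hC, hG, hK2, hK1.1] with k a b d e ω hω h1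
    have hA := a ω hω
    have hB := b ω hω
    have hd : 0 ≤ cJ M D (K1 k) * K k := mul_nonneg (cJ_nonneg M D e) (by linarith)
    have hr := S.dl_pos 1 k
    have hJ : ∀ v : Fin M → ℝ, min ((S.dl c k / S.dl c' k) ^ 2)
            ((S.dl 1 k ^ 2 * gam (S.dl 1 k) ((x k).g ω) (s.Q.v k ((x k).l.p.π ω)))⁻¹) *
            (v ⬝ᵥ (Jq (S.dl 1 k) ((x k).g ω) (s.Q.v k ((x k).l.p.π ω)) *ᵥ v)) ≤
          K' k * (v ⬝ᵥ (Jq (S.dl 1 k) (g k ω) (s.Q.v k ((x k).l.p.π ω)) *ᵥ v)) := by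
      intro v
      refine (Jq_fun (hA.pdM) hA.2.1 hr h1.2 h1.1 v).trans ?_
      apply mul_le_mul_of_nonneg_right _ (Jq_nonneg _ (fun x => hB.psd.2 x) _ _)
      simp only [hK']
      linarith
    refine ⟨fun f hf hp z => ?_, hJ, gam_fun hA.pdM hJ⟩
    have h3 := h1.1 f hf hp z
    refine h3.trans ?_
    apply mul_le_mul_of_nonneg_right _ (hB.psd.2 z)
    simp only [hK']
    linarith

end

end Pool.Agent.Helper89.RAD
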