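import Pool.Agent.Helper89.RAD.Zc
import Pool.Agent.Helper26.MT.Ze
import Pool.Agent.Helper26.MT.Zd
import Pool.Agent.Helper89.RAT.Win

/-! DEEP ZOOM: digits, entropies over labels, gradient matrices (the constructions of `Helper26/MT/{Ze,Zd}` and of
`Helper89/RAT/Win`). -/

set_option autoImplicit false

namespace Pool.Agent.Helper89.RAD

open Finset Filter Topology Matrix Pool.Agent.Helper69.RK Pool.Agent.Helper31.EC Pool.Agent.Helper31.EC.Sp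
open Pool.Agent.Helper40.EL Pool.Agent.Helper89.LX Pool.Agent.Helper3.LF Pool.Agent.Helper84.MT Pool.Agent.Helper26.MZ
open Pool.Agent.Helper95.LF
open Pool.Agent.Helper3.PR (cutm cutm_cpd cutFD cut_typ exp_le)
open Pool.Agent.Helper3.ZM (aff MM afm afm_symm afm_nonneg phi_afm)
open Pool.Agent.Helper14.MC (adf_sub gx vx vol_eq vx_UB vx_nonneg vol_opt_le vol_opt_eq)
open Pool.Agent.Helper36.AM (UDp UDf DK MCl)
open Pool.Agent.Helper89.RAT (Jz xz zx zv one_le_Jz num_div xz_bd zv_UB single_dv)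

noncomputable section

variable {S : Sp} {M D : ℕ} {E : ℕ → ℕ} {ι : Type}

namespace ZW

variable {s : MSys S M E ι} (Z : ZW s)

/-- elements of the lattice in the space of the zoom -/
abbrev U (x : S.L) : Z.sp.L := Z.l.upL Z.e Z.e_pos x

/-- digits of the remainder of a variable whose cell of level `c` is known to the base -/
theorem fr_dg {p : ℕ} (y : S.VV p) (hy : ∀ k ω ω', (Z.l k).T.μ ω ≠ 0 → (Z.l k).T.μ ω' ≠ 0 → (Z.l k).V ω ω' →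
    (Z.l k).T.Z ω ω' → y.cellv Z.c k ((Z.l k).p.π ω) = y.cellv Z.c k ((Z.l k).p.π ω')) (w : ℝ) :
    (Z.fr y).dg w = Z.U (y.dg (Z.c + Z.e * w)) := by
  have hd : ∀ k, Z.sp.dl (Z.c / Z.e + w) k = S.dl Z.c k * Z.sp.dl w k := by
    intro k
    rw [sp_dl', ← dl_rel]
    congr 1
    have := Z.e_pos.ne'
    field_simp
  have e1 : Z.U (y.dg (Z.c + Z.e * w)) = ((Z.l.pj.vv y).chg Z.l.V Z.e Z.e_pos).dg (Z.c / Z.e + w) := by
    rw [VV.chg_dg, ← Z.l.pj.map_dg]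
    have : Z.e * (Z.c / Z.e + w) = Z.c + Z.e * w := by
      have := Z.e_pos.ne'
      field_simp
    rw [this]
    rfl
  rw [e1]
  apply le_antisymm
  · apply VV.dg_le_dg (S := Z.sp) _ _ _ _ (fun _ _ => True) Typ_true (fun _ => 1) (Z.sp.Sub_const zero_le_one)
    refine Eventually.of_forall fun k ω ω' a b _ _ g g' i => ?_
    obtain ⟨g1, g2, -⟩ := Z.hZ k ω ω' a b g
    have h3 := Z.fr_sub y k ω ω' (hy k ω ω' a b g1 g2) i
    have h4 : |y.v k ((Z.l k).p.π ω) i - y.v k ((Z.l k).p.π ω') i| ≤ Z.sp.dl (Z.c / Z.e + w) k := g' i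
    rw [h3, hd, abs_mul, abs_of_pos (S.dl_pos Z.c k)] at h4
    rw [one_mul]
    exact le_of_mul_le_mul_left h4 (S.dl_pos Z.c k)
  · apply VV.dg_le_dg (S := Z.sp) _ _ _ _ (fun _ _ => True) Typ_true (fun _ => 1) (Z.sp.Sub_const zero_le_one)
    refine Eventually.of_forall fun k ω ω' a b _ _ g g' i => ?_
    obtain ⟨g1, g2, -⟩ := Z.hZ k ω ω' a b g
    have h3 := Z.fr_sub y k ω ω' (hy k ω ω' a b g1 g2) i
    show |y.v k ((Z.l k).p.π ω) i - y.v k ((Z.l k).p.π ω') i| ≤ 1 * Z.sp.dl (Z.c / Z.e + w) k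
    rw [h3, hd, abs_mul, abs_of_pos (S.dl_pos Z.c k), one_mul]
    exact mul_le_mul_of_nonneg_left (g' i) (S.dl_pos Z.c k).le

/-- digits of the point of the zoom -/
theorem Q_dg (w : ℝ) : Z.sys.Q.dg w = Z.U (s.Q.dg (Z.c + Z.e * w)) := Z.fr_dg s.Q Z.cell w

theorem Q_dg_one : Z.sys.Q.dg 1 = Z.U (s.Q.dg 1) := by
  rw [Q_dg, mul_one, Z.c_add_e]

/-- rates over labels of the zoom -/
theorem h_cl (y : Lab Z.sp) (X Y : S.L) : h (up1 (Z.cl y) X) (up1 (Z.cl y) Y) =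
    Z.e * h (up1 y (Z.U X)) (up1 y (Z.U Y)) := Z.l.hr_comp Z.e Z.e_pos y X Y

theorem H_cl (y : Lab Z.sp) (X : S.L) : H (up1 (Z.cl y) X) = Z.e * H (up1 y (Z.U X)) :=
  Z.l.H_comp Z.e Z.e_pos y X

/-- the gradient matrix of the form of the system is at least the gradient matrix of the form of the zoom -/
theorem Jq_zfm (y : ∀ k, FD (Z.sp.F k) (Mon M D)) (k : ℕ) (ω : (y k).l.T.Ω) (v : Fin M → ℝ) :
    v ⬝ᵥ (Jq (Z.sp.dl 1 k) ((y k).g ω) (Z.sys.Q.v k ((y k).l.p.π ω)) *ᵥ v) ≤ S.dl Z.c k ^ 2 *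
      (v ⬝ᵥ (Jq (S.dl 1 k) (Z.zfm y k ω) (s.Q.v k ((Z.l k).p.π ((y k).l.p.π ω))) *ᵥ v)) := by
  have h1 := Jq_mono (S.dl 1 k) (B := Z.zfm y k ω) (afm_le_one_afm (Z.oi k ((Z.l k).p.π ((y k).l.p.π ω)))
    (S.dl Z.c k)⁻¹ ((y k).g ω)) (s.Q.v k ((Z.l k).p.π ((y k).l.p.π ω))) v
  have h5 : aff (Z.oi k ((Z.l k).p.π ((y k).l.p.π ω))) (S.dl Z.c k)⁻¹ (s.Q.v k ((Z.l k).p.π ((y k).l.p.π ω))) =
      (Z.fr s.Q).v k ((y k).l.p.π ω) := Z.aff_fr' k _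
  rw [Jq_afm, Z.dl_inv, h5, Matrix.smul_mulVec, dotProduct_smul, smul_eq_mul] at h1
  have h2 := mul_le_mul_of_nonneg_left h1 (sq_nonneg (S.dl Z.c k))
  have hd := (S.dl_pos Z.c k).ne'
  rw [← mul_assoc, ← mul_pow, mul_inv_cancel₀ hd, one_pow, one_mul] at h2
  exact h2

theorem Jq_ifm (x : ∀ k, FD (S.F k) (Mon M D)) (k : ℕ) (ω : ((Z.l k).am (x k).l).sp.Ω)
    (h : ((Z.l k).am (x k).l).sp.μ ω ≠ 0) (v : Fin M → ℝ) :
    S.dl Z.c k ^ 2 * (v ⬝ᵥ (Jq (S.dl 1 k) ((x k).g (((Z.l k).am (x k).l).p2.π ω))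
      (s.Q.v k ((x k).l.p.π (((Z.l k).am (x k).l).p2.π ω))) *ᵥ v)) ≤
      v ⬝ᵥ (Jq (Z.sp.dl 1 k) (Z.ifm x k ω) (Z.sys.Q.v k (((Z.l k).am (x k).l).p1.π ω)) *ᵥ v) := by
  have h1 := Jq_mono (Z.sp.dl 1 k) (B := Z.ifm x k ω) (afm_le_one_afm (Z.o0 k ((Z.l k).p.π
    (((Z.l k).am (x k).l).p1.π ω))) (S.dl Z.c k) ((x k).g (((Z.l k).am (x k).l).p2.π ω)))
    (Z.sys.Q.v k (((Z.l k).am (x k).l).p1.π ω)) v
  have h5 : aff (Z.o0 k ((Z.l k).p.π (((Z.l k).am (x k).l).p1.π ω))) (S.dl Z.c k)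
      (Z.sys.Q.v k (((Z.l k).am (x k).l).p1.π ω)) = s.Q.v k ((x k).l.p.π (((Z.l k).am (x k).l).p2.π ω)) := by
    rw [← Z.ov_sup x k ω h]
    exact (Z.aff_fr k _).symm
  rw [Jq_afm, Z.dl_eq', h5, Matrix.smul_mulVec, dotProduct_smul, smul_eq_mul] at h1
  exact h1

/-- THE FORM OF THE SYSTEM DOMINATES the form of the zoom, typically -/
theorem out_dom {κ : Type} {A : κ → Part Z.sp} {y : ∀ k, FD (Z.sp.F k) (Mon M D)} (hy : (gaq Z.sys.Q D).Adf A y) :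
    Tendsto (fun k => (y k).l.T.pb (fun ω => ¬ ∀ v : Fin M → ℝ,
      v ⬝ᵥ (Jq (Z.sp.dl 1 k) ((y k).g ω) (Z.sys.Q.v k ((y k).l.p.π ω)) *ᵥ v) ≤ S.dl Z.c k ^ 2 *
      (v ⬝ᵥ (Jq (S.dl 1 k) ((Z.out y k).g ω) (s.Q.v k ((Z.l k).p.π ((y k).l.p.π ω))) *ᵥ v)))) UF (𝓝 0) := by
  have h0 := Z.out_typ hy
  refine squeeze_zero (fun k => (y k).l.T.pb_nonneg _) (fun k => ?_) h0
  refine FSp.pb_mono _ ?_
  intro ω _ h h'
  apply h
  intro v
  rw [Z.out_g k ω h']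
  exact Z.Jq_zfm y k ω v

/-- THE FORM OF THE ZOOM DOMINATES the form of the system, typically -/
theorem inn_dom {κ : Type} {A : κ → Part S} {x : ∀ k, FD (S.F k) (Mon M D)} (hx : (gaq s.Q D).Adf A x) :
    Tendsto (fun k => ((Z.l k).am (x k).l).sp.pb (fun ω => ¬ ∀ v : Fin M → ℝ,
      S.dl Z.c k ^ 2 * (v ⬝ᵥ (Jq (S.dl 1 k) ((x k).g (((Z.l k).am (x k).l).p2.π ω))
      (s.Q.v k ((x k).l.p.π (((Z.l k).am (x k).l).p2.π ω))) *ᵥ v)) ≤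
      v ⬝ᵥ (Jq (Z.sp.dl 1 k) ((Z.inn x k).g ω) (Z.sys.Q.v k (((Z.l k).am (x k).l).p1.π ω)) *ᵥ v))) UF (𝓝 0) := by
  have h0 := Z.inn_typ hx
  refine squeeze_zero (fun k => ((Z.l k).am (x k).l).sp.pb_nonneg _) (fun k => ?_) h0
  refine FSp.pb_mono _ ?_
  intro ω hω h h'
  apply h
  intro v
  rw [Z.inn_g k ω h']
  exact Z.Jq_ifm x k ω hω v

theorem two_dl (k : ℕ) : S.dl Z.c k ^ 2 = 2 ^ (-(2 * Z.c * (S.F k).n)) := by
  have h1 : S.dl Z.c k = 2 ^ (-(Z.c * (S.F k).n)) := rfl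
  rw [h1, ← Real.rpow_natCast, ← Real.rpow_mul (by norm_num)]
  congr 1
  push_cast
  ring

/-- exponents of the forms of the zoom -/
theorem UDf_out {κ : Type} {A : κ → Part Z.sp} {y : ∀ k, FD (Z.sp.F k) (Mon M D)} (hy : (gaq Z.sys.Q D).Adf A y)
    {p : ℕ} {b : ℝ} (h : UDf s.Q p (Z.c + Z.e * b) (Z.out y)) : UDf Z.sys.Q p b y := by
  intro η hη
  have he := Z.e_pos
  have h1 := Z.out_dom hy
  have h2 : Tendsto (fun k => (y k).l.T.pb (fun ω => ¬ UDp p (Jq (S.dl 1 k) ((Z.out y k).g ω)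
    (s.Q.v k ((Z.l k).p.π ((y k).l.p.π ω)))) (2 ^ (2 * (Z.c + Z.e * b + Z.e * η) * (S.F k).n)))) UF (𝓝 0) :=
    h (Z.e * η) (by positivity)
  have h3 := h1.add h2
  rw [add_zero] at h3
  show Tendsto (fun k => (y k).l.T.pb (fun ω => ¬ UDp p (Jq (Z.sp.dl 1 k) ((y k).g ω)
    (Z.sys.Q.v k ((y k).l.p.π ω))) (2 ^ (2 * (b + η) * (Z.sp.F k).n)))) UF (𝓝 0)
  refine squeeze_zero (fun k => (y k).l.T.pb_nonneg _) (fun k => ?_) h3
  refine le_trans (FSp.pb_mono _ ?_) (pb_or _ _ _)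
  intro ω _ h6
  by_contra hc
  rw [not_or, not_not, not_not] at hc
  apply h6
  refine hc.2.mono (sq_nonneg (S.dl Z.c k)) hc.1 (le_of_eq ?_)
  rw [Z.two_dl, ← Real.rpow_add (by norm_num), Z.sp_n]
  congr 1
  ring

theorem UDf_inn {κ : Type} {A : κ → Part S} {x : ∀ k, FD (S.F k) (Mon M D)} (hx : (gaq s.Q D).Adf A x)
    {p : ℕ} {b : ℝ} (h : UDf Z.sys.Q p b (Z.inn x)) : UDf s.Q p (Z.c + Z.e * b) x := by
  intro η hη
  have he := Z.e_pos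
  have h1 := Z.inn_dom hx
  have h2 : Tendsto (fun k => ((Z.l k).am (x k).l).sp.pb (fun ω => ¬ UDp p (Jq (Z.sp.dl 1 k) ((Z.inn x k).g ω)
    (Z.sys.Q.v k (((Z.l k).am (x k).l).p1.π ω))) (2 ^ (2 * (b + η / Z.e) * (Z.sp.F k).n)))) UF (𝓝 0) :=
    h (η / Z.e) (by positivity)
  have h3 := h1.add h2
  rw [add_zero] at h3
  show Tendsto (fun k => (x k).l.T.pb (fun ω => ¬ UDp p (Jq (S.dl 1 k) ((x k).g ω)
    (s.Q.v k ((x k).l.p.π ω))) (2 ^ (2 * (Z.c + Z.e * b + η) * (S.F k).n)))) UF (𝓝 0)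
  refine squeeze_zero (fun k => (x k).l.T.pb_nonneg _) (fun k => ?_) h3
  have h5 := pb_push ((Z.l k).am (x k).l).p2 (fun ω => ¬ UDp p (Jq (S.dl 1 k) ((x k).g ω)
    (s.Q.v k ((x k).l.p.π ω))) (2 ^ (2 * (Z.c + Z.e * b + η) * (S.F k).n)))
  rw [← h5]
  refine le_trans (FSp.pb_mono _ ?_) (pb_or _ _ _)
  intro ω _ h6
  by_contra hc
  rw [not_or, not_not, not_not] at hc
  apply h6
  have hd := S.dl_pos Z.c k
  refine hc.2.mono (c := (S.dl Z.c k ^ 2)⁻¹) (by positivity) (fun v => ?_) (le_of_eq ?_)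
  · rw [le_inv_mul_iff₀ (by positivity)]
    exact hc.1 v
  · rw [Z.two_dl, ← Real.rpow_neg (by norm_num), ← Real.rpow_add (by norm_num), Z.sp_n]
    congr 1
    field_simp
    ring

/-- the gradients of the form of the zoom -/
theorem Jz_inn (x : ∀ k, FD (S.F k) (Mon M D)) (z : Fin M) (k : ℕ) (ω : ((Z.l k).am (x k).l).sp.Ω)
    (hω : ((Z.l k).am (x k).l).sp.μ ω ≠ 0) :
    (S.dl Z.c k) ^ 2 * Jz s.Q z k ((x k).l.p.π (((Z.l k).am (x k).l).p2.π ω)) ((x k).g (((Z.l k).am (x k).l).p2.π ω)) ≤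
      Jz Z.sys.Q z k (((Z.l k).am (x k).l).p1.π ω) (Z.ifm x k ω) := by
  have hd := S.dl_pos Z.c k
  have hd1 := Z.dl_c_le k
  have h5 : aff (Z.o0 k ((Z.l k).p.π (((Z.l k).am (x k).l).p1.π ω))) (S.dl Z.c k)
      (Z.sys.Q.v k (((Z.l k).am (x k).l).p1.π ω)) = s.Q.v k ((x k).l.p.π (((Z.l k).am (x k).l).p2.π ω)) := by
    rw [← Z.ov_sup x k ω hω]
    exact (Z.aff_fr k _).symm
  have h1 := Jq_mono (Z.sp.dl 1 k) (afm_le_one_afm (Z.o0 k ((Z.l k).p.π (((Z.l k).am (x k).l).p1.π ω)))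
    (S.dl Z.c k) ((x k).g (((Z.l k).am (x k).l).p2.π ω))) (Z.sys.Q.v k (((Z.l k).am (x k).l).p1.π ω)) (Pi.single z 1)
  rw [single_dv, single_dv, Jq_afm, h5, Z.dl_eq', Matrix.smul_apply, smul_eq_mul] at h1
  have h2 : (S.dl Z.c k) ^ 2 ≤ 1 := pow_le_one₀ hd.le hd1
  show (S.dl Z.c k) ^ 2 * (1 + Jq (S.dl 1 k) ((x k).g (((Z.l k).am (x k).l).p2.π ω))
    (s.Q.v k ((x k).l.p.π (((Z.l k).am (x k).l).p2.π ω))) z z) ≤
    1 + Jq (Z.sp.dl 1 k) (1 + afm (Z.o0 k ((Z.l k).p.π (((Z.l k).am (x k).l).p1.π ω)))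
    (S.dl Z.c k) ((x k).g (((Z.l k).am (x k).l).p2.π ω))) (Z.sys.Q.v k (((Z.l k).am (x k).l).p1.π ω)) z z
  rw [mul_add, mul_one]
  exact add_le_add h2 h1

/-- comparison of the exponents -/
theorem xz_inn (x : ∀ k, FD (S.F k) (Mon M D)) (z : Fin M) (k : ℕ) (ω : ((Z.l k).am (x k).l).sp.Ω)
    (hω : ((Z.l k).am (x k).l).sp.μ ω ≠ 0) {c : ℝ} (hc : Cpd c ((x k).g (((Z.l k).am (x k).l).p2.π ω))) :
    xz s.Q z k ((x k).l.p.π (((Z.l k).am (x k).l).p2.π ω)) ((x k).g (((Z.l k).am (x k).l).p2.π ω)) ≤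
      Z.e * xz Z.sys.Q z k (((Z.l k).am (x k).l).p1.π ω) (Z.ifm x k ω) + Z.c := by
  have hn := (S.F k).pos
  have he := Z.e_pos
  have hd := S.dl_pos Z.c k
  have hB : PdM (Z.ifm x k ω) := one_afm_pd _ _ hc.1 fun v => hc.psd.2 v
  have h1 := Z.Jz_inn x z k ω hω
  have a1 := one_le_Jz s.Q z k ((x k).l.p.π (((Z.l k).am (x k).l).p2.π ω)) (fun v => hc.psd.2 v)
  have a2 := one_le_Jz Z.sys.Q z k (((Z.l k).am (x k).l).p1.π ω) hB.nonneg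
  have a4 := Real.logb_le_logb_of_le (b := 2) (by norm_num) (by positivity) h1
  rw [Real.logb_mul (by positivity) (by linarith), Real.logb_pow, Z.log_dl] at a4
  unfold xz
  rw [Z.sp_n]
  have e1 : Z.e * (Real.logb 2 (Jz Z.sys.Q z k (((Z.l k).am (x k).l).p1.π ω) (Z.ifm x k ω)) /
      (2 * (Z.e * (S.F k).n))) =
      Real.logb 2 (Jz Z.sys.Q z k (((Z.l k).am (x k).l).p1.π ω) (Z.ifm x k ω)) / (2 * (S.F k).n) := by
    field_simp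
  rw [e1]
  push_cast at a4
  exact num_div hn a4

/-- the mean exponents of the zoom and of the system -/
theorem zx_inn [Finite ι] {A : Part S} {b : ℝ} (hb : 0 ≤ b) {x : ∀ k, FD (S.F k) (Mon M D)} (z : Fin M)
    (hx : (gaq s.Q D).Adf (cnA s A (Z.c + Z.e * b)) x) : zx s.Q z x ≤ Z.e * zx Z.sys.Q z (Z.inn x) + Z.c := by
  have hy := Z.inn_ad hb hx
  obtain ⟨C, hC, hbd⟩ := xz_bd z hx
  obtain ⟨C', -, hbd'⟩ := xz_bd z hy
  have hUx := zv_UB z hx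
  have hUy := zv_UB z hy
  have e1 : (fun k => ∑ ω, ((Z.l k).am (x k).l).sp.μ ω * xz s.Q z k ((x k).l.p.π (((Z.l k).am (x k).l).p2.π ω))
      ((x k).g (((Z.l k).am (x k).l).p2.π ω))) = zv s.Q z x := by
    funext k
    exact sum_push ((Z.l k).am (x k).l).p2 (fun ω => xz s.Q z k ((x k).l.p.π ω) ((x k).g ω))
  have e2 : (fun k => ∑ ω, ((Z.l k).am (x k).l).sp.μ ω * (Z.e * xz Z.sys.Q z k (((Z.l k).am (x k).l).p1.π ω)
      ((Z.inn x k).g ω) + Z.c)) = fun k => Z.e * zv Z.sys.Q z (Z.inn x) k + Z.c := by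
    funext k
    have e4 : ∀ ω, ((Z.l k).am (x k).l).sp.μ ω * (Z.e * xz Z.sys.Q z k (((Z.l k).am (x k).l).p1.π ω)
        ((Z.inn x k).g ω) + Z.c) = Z.e * (((Z.l k).am (x k).l).sp.μ ω *
        xz Z.sys.Q z k (((Z.l k).am (x k).l).p1.π ω) ((Z.inn x k).g ω)) + ((Z.l k).am (x k).l).sp.μ ω * Z.c :=
      fun ω => by ring
    rw [Finset.sum_congr rfl fun ω _ => e4 ω, Finset.sum_add_distrib, ← Finset.sum_mul, ← Finset.mul_sum,
      Pool.Agent.Helper3.PR.sum_mu, one_mul]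
    rfl
  have key := ul_avg_le (fun k => ((Z.l k).am (x k).l).sp)
    (fun k ω => Z.e * xz Z.sys.Q z k (((Z.l k).am (x k).l).p1.π ω) ((Z.inn x k).g ω) + Z.c)
    (fun k ω => xz s.Q z k ((x k).l.p.π (((Z.l k).am (x k).l).p2.π ω)) ((x k).g (((Z.l k).am (x k).l).p2.π ω)))
    (fun k ω => Cpd ((gaq Z.sys.Q D).cp k) (Z.ifm x k ω)) (fun _ => 0) tendsto_const_nhds C
    (Z.inn_typ hx) (by
      filter_upwards [hx 1 one_pos] with k h2 ω hω hE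
      have a0 := Z.inn_g k ω hE
      have a1 := Z.xz_inn x z k ω hω (h2.2.1 _ (((Z.l k).am (x k).l).p2.supp ω hω)).1
      rw [a0]
      linarith) (by
      filter_upwards [hbd] with k h2 ω hω
      exact (h2 _ (((Z.l k).am (x k).l).p2.supp ω hω)).2) (by
      filter_upwards [hbd'] with k h2 ω hω
      have h3 := (h2 ω hω).1
      have h4 := mul_nonneg Z.e_pos.le h3
      exact add_nonneg h4 Z.h0) (by rw [e1]; exact hUx) (by rw [e2]; exact (hUy.const_mul Z.e).add (UB_const _))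
  rw [e1, e2, ul_add (hUy.const_mul Z.e) (UB_const _), ul_const_mul _ hUy, ul_const] at key
  exact key

end ZW

end

end Pool.Agent.Helper89.RAD
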