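import Pool.Agent.Helper89.RAD.Zl
import Pool.Agent.Helper26.MT.Zc

/-! DEEP ZOOM: forms in and out (the construction of `Helper26/MT/Zf`). -/

set_option autoImplicit false

namespace Pool.Agent.Helper89.RAD

open Finset Filter Topology Matrix Pool.Agent.Helper69.RK Pool.Agent.Helper31.EC Pool.Agent.Helper31.EC.Sp
open Pool.Agent.Helper40.EL Pool.Agent.Helper89.LX Pool.Agent.Helper3.LF Pool.Agent.Helper84.MT Pool.Agent.Helper26.MZ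
open Pool.Agent.Helper95.LF
open Pool.Agent.Helper3.PR (cutm cutm_cpd cutFD cut_typ exp_le)
open Pool.Agent.Helper3.ZM (aff MM afm afm_symm afm_nonneg phi_afm)
open Pool.Agent.Helper14.MC (adf_sub gx vx vol_eq vx_UB vx_nonneg vol_opt_le vol_opt_eq)

noncomputable section

variable {S : Sp} {M D : ℕ} {E : ℕ → ℕ} {ι : Type}

namespace ZW

variable {s : MSys S M E ι} (Z : ZW s)

/-- the corner of the cell of the point -/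
def o0 (k : ℕ) (ω : (S.F k).Ω) : Fin M → ℝ := fun i => ⌊s.Q.v k ω i / S.dl Z.c k⌋ * S.dl Z.c k

/-- the inverse corner -/
def oi (k : ℕ) (ω : (S.F k).Ω) : Fin M → ℝ := fun i => -((S.dl Z.c k)⁻¹ * Z.o0 k ω i)

theorem o0_cell (k : ℕ) (ω ω' : (S.F k).Ω) (h : s.Q.cellv Z.c k ω = s.Q.cellv Z.c k ω') : Z.o0 k ω = Z.o0 k ω' := by
  funext i
  have h1 : ⌊s.Q.v k ω i / S.dl Z.c k⌋ = ⌊s.Q.v k ω' i / S.dl Z.c k⌋ := congrFun h i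
  unfold o0
  rw [h1]

theorem o0_meas (k : ℕ) (ω ω' : (Z.l k).T.Ω) (h : (Z.l k).T.μ ω ≠ 0) (h' : (Z.l k).T.μ ω' ≠ 0)
    (hV : (Z.l k).V ω ω') (hZ : (Z.l k).T.Z ω ω') : Z.o0 k ((Z.l k).p.π ω) = Z.o0 k ((Z.l k).p.π ω') :=
  Z.o0_cell k _ _ (Z.cell k ω ω' h h' hV hZ)

/-- the points of the system and of the zoom -/
theorem aff_fr (k : ℕ) (ω : (Z.l k).T.Ω) :
    s.Q.v k ((Z.l k).p.π ω) = aff (Z.o0 k ((Z.l k).p.π ω)) (S.dl Z.c k) ((Z.fr s.Q).v k ω) := by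
  have hd := (S.dl_pos Z.c k).ne'
  funext j
  show s.Q.v k ((Z.l k).p.π ω) j = ⌊s.Q.v k ((Z.l k).p.π ω) j / S.dl Z.c k⌋ * S.dl Z.c k +
      S.dl Z.c k * (Z.fr s.Q).v k ω j
  rw [fr_v]
  field_simp
  ring

theorem aff_fr' (k : ℕ) (ω : (Z.l k).T.Ω) :
    aff (Z.oi k ((Z.l k).p.π ω)) (S.dl Z.c k)⁻¹ (s.Q.v k ((Z.l k).p.π ω)) = (Z.fr s.Q).v k ω := by
  rw [aff_fr]
  have hd := (S.dl_pos Z.c k).ne'
  funext i
  show -((S.dl Z.c k)⁻¹ * Z.o0 k ((Z.l k).p.π ω) i) + (S.dl Z.c k)⁻¹ * (Z.o0 k ((Z.l k).p.π ω) i +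
    S.dl Z.c k * (Z.fr s.Q).v k ω i) = (Z.fr s.Q).v k ω i
  field_simp
  ring

theorem dl_inv (k : ℕ) : (S.dl Z.c k)⁻¹ * S.dl 1 k = Z.sp.dl 1 k := by
  rw [← Z.dl_eq, div_eq_inv_mul]

/-! ### from the zoom to the system -/

section out

variable (y : ∀ k, FD (Z.sp.F k) (Mon M D))

/-- the form on the old space -/
def zfm (k : ℕ) (ω : (y k).l.T.Ω) : Matrix (Mon M D) (Mon M D) ℝ :=
  1 + afm (Z.oi k ((Z.l k).p.π ((y k).l.p.π ω))) (S.dl Z.c k)⁻¹ ((y k).g ω)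

theorem zfm_meas (k : ℕ) (ω ω' : (Z.cl (lb y) k).T.Ω)
    (h : (Z.cl (lb y) k).T.μ ω ≠ 0) (h' : (Z.cl (lb y) k).T.μ ω' ≠ 0) (hV : (Z.cl (lb y) k).V ω ω')
    (hZ : (Z.cl (lb y) k).T.Z ω ω') : Z.zfm y k ω = Z.zfm y k ω' := by
  have a : (y k).l.T.μ ω ≠ 0 := h
  have a' : (y k).l.T.μ ω' ≠ 0 := h'
  have b : (Z.l k).T.μ ((y k).l.p.π ω) ≠ 0 := (y k).l.p.supp ω a
  have b' : (Z.l k).T.μ ((y k).l.p.π ω') ≠ 0 := (y k).l.p.supp ω' a'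
  have c1 : (Z.l k).V ((y k).l.p.π ω) ((y k).l.p.π ω') := hV.1
  have c2 : (y k).l.V ω ω' := hV.2
  have c3 : (S.F k).Z ((Z.l k).p.π ((y k).l.p.π ω)) ((Z.l k).p.π ((y k).l.p.π ω')) := hZ
  have c4 : (Z.l k).T.Z ((y k).l.p.π ω) ((y k).l.p.π ω') := ((Z.l k).p.hZ _ _ b b').mpr c3
  have c5 : (y k).l.T.Z ω ω' := ((y k).l.p.hZ ω ω' a a').mpr ⟨c1, c4⟩
  have e1 := ((y k).meas ω ω' a a' c2 c5).1
  have e2 : Z.o0 k ((Z.l k).p.π ((y k).l.p.π ω)) = Z.o0 k ((Z.l k).p.π ((y k).l.p.π ω')) := Z.o0_meas k _ _ b b' c1 c4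
  unfold zfm oi
  rw [e1, e2]

variable {y} {κ : Type} {A : κ → Part Z.sp}

theorem zfm_ge {Φ : Gau Z.sp (Mon M D)} (hy : Φ.Adf A y) : ∀ᶠ k in UF, ∀ ω, (Z.cl (lb y) k).T.μ ω ≠ 0 →
      (Z.zfm y k ω).IsSymm ∧ ∀ x, x ⬝ᵥ x ≤ qf (Z.zfm y k ω) x := by
  filter_upwards [hy 1 one_pos] with k hk ω hω
  have h1 := (hk.2.1 ω hω).1
  exact ⟨one_afm_symm _ _ h1.1, one_afm_ge _ _ fun v => h1.psd.2 v⟩

/-- sizes -/
theorem phi_zfm (k : ℕ) (ω : (y k).l.T.Ω) :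
    (gaq s.Q D).φ k ((Z.l k).p.π ((y k).l.p.π ω)) (Z.zfm y k ω) =
      (gaq s.Q D).φ k ((Z.l k).p.π ((y k).l.p.π ω)) 1 +
        (gaq Z.sys.Q D).φ k ((y k).l.p.π ω) ((y k).g ω) := by
  have h4 : (gaq s.Q D).φ k ((Z.l k).p.π ((y k).l.p.π ω)) (Z.zfm y k ω) =
      (gaq s.Q D).φ k ((Z.l k).p.π ((y k).l.p.π ω)) 1 +
        phi (S.dl 1 k) (afm (Z.oi k ((Z.l k).p.π ((y k).l.p.π ω))) (S.dl Z.c k)⁻¹ ((y k).g ω))
          (s.Q.v k ((Z.l k).p.π ((y k).l.p.π ω))) := (gaq s.Q D).add k _ _ _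
  have h5 : aff (Z.oi k ((Z.l k).p.π ((y k).l.p.π ω))) (S.dl Z.c k)⁻¹ (s.Q.v k ((Z.l k).p.π ((y k).l.p.π ω))) =
      (Z.fr s.Q).v k ((y k).l.p.π ω) := Z.aff_fr' k _
  rw [h4, phi_afm, Z.dl_inv, h5]
  rfl

theorem zfm_phi (hy : (gaq Z.sys.Q D).Adf A y) :
    ∃ L : ℕ → ℝ, S.Sub L ∧ Sp.Typ (S := (Z.cl (lb y)).sp) (fun k (ω : (y k).l.T.Ω) =>
      (gaq s.Q D).φ k ((Z.cl (lb y) k).p.π ω) (Z.zfm y k ω) ≤ L k) := by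
  obtain ⟨K1, hK1, hT⟩ := adf_sub hy
  obtain ⟨K2, hK2, h2⟩ := (gaq s.Q D).one
  refine ⟨fun k => K2 k + K1 k, hK2.add (Z.Sub_sp.mpr hK1), ?_⟩
  refine squeeze_zero' (Eventually.of_forall fun k => Sp.mass_res_nonneg (S := (Z.cl (lb y)).sp) k _) ?_ hT
  filter_upwards [h2] with k a
  refine mass_res_mono (y k).l.T.μ _ _ (y k).l.T.nn (fun ω hω hE hcon => hE ?_)
  have hω' : (Z.l k).T.μ ((y k).l.p.π ω) ≠ 0 := (y k).l.p.supp ω hω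
  have hω'' := (Z.l k).p.supp _ hω'
  show (gaq s.Q D).φ k ((Z.l k).p.π ((y k).l.p.π ω)) (Z.zfm y k ω) ≤ K2 k + K1 k
  rw [Z.phi_zfm k ω]
  exact add_le_add (a _ hω'') hcon

/-- the form of the zoom as a form of the system -/
def out (y : ∀ k, FD (Z.sp.F k) (Mon M D)) : ∀ k, FD (S.F k) (Mon M D) :=
  cutFD (gaq s.Q D) (Z.cl (lb y)) (Z.zfm y) (Z.zfm_meas y)

theorem out_l (y : ∀ k, FD (Z.sp.F k) (Mon M D)) : (fun k => (Z.out y k).l) = Z.cl (fun k => (y k).l) := rfl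

theorem out_typ (hy : (gaq Z.sys.Q D).Adf A y) :
    Tendsto (fun k => (y k).l.T.pb (fun ω => ¬ Cpd ((gaq s.Q D).cp k) (Z.zfm y k ω))) UF (𝓝 0) := by
  obtain ⟨L, hL, hT⟩ := Z.zfm_phi hy
  exact cut_typ (Φ := gaq s.Q D) (Z.cl (lb y)) (Z.zfm y) (Z.zfm_ge hy) L hL hT

theorem out_g (k : ℕ) (ω : (y k).l.T.Ω) (h : Cpd ((gaq s.Q D).cp k) (Z.zfm y k ω)) : (Z.out y k).g ω = Z.zfm y k ω :=
  cutm_pos h

end out

/-- FORMS OF THE ZOOM ARE ADMISSIBLE FOR THE SYSTEM -/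
theorem out_ad [Finite ι] {A : Part S} (hA : Nul S fun k => (Z.l k).leak (A k)) {b : ℝ} (hb : 0 ≤ b)
    {y : ∀ k, FD (Z.sp.F k) (Mon M D)} (hy : (gaq Z.sys.Q D).Adf (cnA Z.sys (Z.upz A) b) y) :
    (gaq s.Q D).Adf (cnA s A (Z.c + Z.e * b)) (Z.out y) := by
  obtain ⟨L, hL, hT⟩ := Z.zfm_phi hy
  exact cut_adf (Φ := gaq s.Q D) (Z.cl (lb y)) (Z.DMA_cl hA hb (Gau.Adf.dm _ hy)) (Z.zfm y) (Z.zfm_meas y)
    (Z.zfm_ge hy) L hL hT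

/-! ### from the system to the zoom -/

section inn

variable (x : ∀ k, FD (S.F k) (Mon M D))

/-- the form on the zoom -/
def ifm (k : ℕ) (ω : ((Z.l k).am (x k).l).sp.Ω) : Matrix (Mon M D) (Mon M D) ℝ :=
  1 + afm (Z.o0 k ((Z.l k).p.π (((Z.l k).am (x k).l).p1.π ω))) (S.dl Z.c k) ((x k).g (((Z.l k).am (x k).l).p2.π ω))

theorem ov_sup (k : ℕ) (ω : ((Z.l k).am (x k).l).sp.Ω) (h : ((Z.l k).am (x k).l).sp.μ ω ≠ 0) :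
    (Z.l k).p.π (((Z.l k).am (x k).l).p1.π ω) = (x k).l.p.π (((Z.l k).am (x k).l).p2.π ω) :=
  (((Z.l k).am (x k).l).supp ω h).1

theorem ifm_meas (k : ℕ) (ω ω' : (Z.ov (lb x) k).T.Ω) (h : (Z.ov (lb x) k).T.μ ω ≠ 0)
    (h' : (Z.ov (lb x) k).T.μ ω' ≠ 0) (hV : (Z.ov (lb x) k).V ω ω') (hZ : (Z.ov (lb x) k).T.Z ω ω') :
    Z.ifm x k ω = Z.ifm x k ω' := by
  have a : ((Z.l k).am (x k).l).sp.μ ω ≠ 0 := h
  have a' : ((Z.l k).am (x k).l).sp.μ ω' ≠ 0 := h'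
  have b := ((Z.l k).am (x k).l).p1.supp ω a
  have b' := ((Z.l k).am (x k).l).p1.supp ω' a'
  have d := ((Z.l k).am (x k).l).p2.supp ω a
  have d' := ((Z.l k).am (x k).l).p2.supp ω' a'
  have c2 : (x k).l.V (((Z.l k).am (x k).l).p2.π ω) (((Z.l k).am (x k).l).p2.π ω') := hV
  have c1 : (Z.l k).V (((Z.l k).am (x k).l).p1.π ω) (((Z.l k).am (x k).l).p1.π ω') := hZ.1
  have c0 : ((Z.l k).am (x k).l).sp.Z ω ω' := hZ.2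
  have c3 : (Z.l k).T.Z (((Z.l k).am (x k).l).p1.π ω) (((Z.l k).am (x k).l).p1.π ω') :=
    (((Z.l k).am (x k).l).p1.hZ ω ω' a a').mp c0
  have c4 : (x k).l.T.Z (((Z.l k).am (x k).l).p2.π ω) (((Z.l k).am (x k).l).p2.π ω') :=
    (((Z.l k).am (x k).l).p2.hZ ω ω' a a').mp c0
  have e1 := ((x k).meas _ _ d d' c2 c4).1
  have e2 := Z.o0_meas k _ _ b b' c1 c3
  unfold ifm
  rw [e1, e2]

variable {x} {κ : Type} {A : κ → Part S}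

theorem ifm_ge {Φ : Gau S (Mon M D)} (hx : Φ.Adf A x) : ∀ᶠ k in UF, ∀ ω, (Z.ov (lb x) k).T.μ ω ≠ 0 →
      (Z.ifm x k ω).IsSymm ∧ ∀ v, v ⬝ᵥ v ≤ qf (Z.ifm x k ω) v := by
  filter_upwards [hx 1 one_pos] with k hk ω hω
  have d := ((Z.l k).am (x k).l).p2.supp ω hω
  have h1 := (hk.2.1 _ d).1
  exact ⟨one_afm_symm _ _ h1.1, one_afm_ge _ _ fun v => h1.psd.2 v⟩

/-- sizes -/
theorem phi_ifm (k : ℕ) (ω : ((Z.l k).am (x k).l).sp.Ω) (h : ((Z.l k).am (x k).l).sp.μ ω ≠ 0) :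
    (gaq Z.sys.Q D).φ k (((Z.l k).am (x k).l).p1.π ω) (Z.ifm x k ω) =
      (gaq Z.sys.Q D).φ k (((Z.l k).am (x k).l).p1.π ω) 1 +
        (gaq s.Q D).φ k ((x k).l.p.π (((Z.l k).am (x k).l).p2.π ω)) ((x k).g (((Z.l k).am (x k).l).p2.π ω)) := by
  have h4 : (gaq Z.sys.Q D).φ k (((Z.l k).am (x k).l).p1.π ω) (Z.ifm x k ω) =
      (gaq Z.sys.Q D).φ k (((Z.l k).am (x k).l).p1.π ω) 1 +
        phi (Z.sp.dl 1 k) (afm (Z.o0 k ((Z.l k).p.π (((Z.l k).am (x k).l).p1.π ω))) (S.dl Z.c k)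
          ((x k).g (((Z.l k).am (x k).l).p2.π ω))) ((Z.fr s.Q).v k (((Z.l k).am (x k).l).p1.π ω)) :=
    (gaq Z.sys.Q D).add k _ _ _
  rw [h4, phi_afm, Z.dl_eq', ← Z.aff_fr, Z.ov_sup x k ω h]
  rfl

theorem ifm_phi (hx : (gaq s.Q D).Adf A x) :
    ∃ L : ℕ → ℝ, Z.sp.Sub L ∧ Sp.Typ (S := (Z.ov (lb x)).sp) (fun k (ω : ((Z.l k).am (x k).l).sp.Ω) =>
      (gaq Z.sys.Q D).φ k ((Z.ov (lb x) k).p.π ω) (Z.ifm x k ω) ≤ L k) := by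
  obtain ⟨K1, hK1, hT⟩ := adf_sub hx
  obtain ⟨K2, hK2, h2⟩ := (gaq Z.sys.Q D).one
  refine ⟨fun k => K2 k + K1 k, hK2.add (Z.Sub_sp.mp hK1), ?_⟩
  have hT' : Tendsto (fun k => ((Z.l k).am (x k).l).sp.pb (fun ω => ¬ (gaq s.Q D).φ k
      ((x k).l.p.π (((Z.l k).am (x k).l).p2.π ω)) ((x k).g (((Z.l k).am (x k).l).p2.π ω)) ≤ K1 k)) UF (𝓝 0) := by
    refine Tendsto.congr (fun k => ?_) hT
    exact (pb_push ((Z.l k).am (x k).l).p2 (fun ω => ¬ (gaq s.Q D).φ k ((x k).l.p.π ω) ((x k).g ω) ≤ K1 k)).symm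
  refine squeeze_zero' (Eventually.of_forall fun k => Sp.mass_res_nonneg (S := (Z.ov (lb x)).sp) k _) ?_ hT'
  filter_upwards [h2] with k a
  refine mass_res_mono ((Z.l k).am (x k).l).sp.μ _ _ ((Z.l k).am (x k).l).sp.nn (fun ω hω hE hcon => hE ?_)
  have hω' : (Z.l k).T.μ (((Z.l k).am (x k).l).p1.π ω) ≠ 0 := ((Z.l k).am (x k).l).p1.supp ω hω
  show (gaq Z.sys.Q D).φ k (((Z.l k).am (x k).l).p1.π ω) (Z.ifm x k ω) ≤ K2 k + K1 k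
  rw [Z.phi_ifm k ω hω]
  exact add_le_add (a _ hω') hcon

/-- the form of the system as a form of the zoom -/
def inn (x : ∀ k, FD (S.F k) (Mon M D)) : ∀ k, FD (Z.sp.F k) (Mon M D) :=
  cutFD (gaq Z.sys.Q D) (Z.ov (lb x)) (Z.ifm x) (Z.ifm_meas x)

theorem inn_l (x : ∀ k, FD (S.F k) (Mon M D)) : (fun k => (Z.inn x k).l) = Z.ov (fun k => (x k).l) := rfl

theorem inn_typ (hx : (gaq s.Q D).Adf A x) : Tendsto (fun k => ((Z.l k).am (x k).l).sp.pb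
    (fun ω => ¬ Cpd ((gaq Z.sys.Q D).cp k) (Z.ifm x k ω))) UF (𝓝 0) := by
  obtain ⟨L, hL, hT⟩ := Z.ifm_phi hx
  exact cut_typ (Φ := gaq Z.sys.Q D) (Z.ov (lb x)) (Z.ifm x) (Z.ifm_ge hx) L hL hT

theorem inn_g (k : ℕ) (ω : ((Z.l k).am (x k).l).sp.Ω) (h : Cpd ((gaq Z.sys.Q D).cp k) (Z.ifm x k ω)) :
    (Z.inn x k).g ω = Z.ifm x k ω := cutm_pos h

end inn

/-- FORMS OF THE SYSTEM ARE ADMISSIBLE FOR THE ZOOM -/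
theorem inn_ad [Finite ι] {A : Part S} {b : ℝ} (hb : 0 ≤ b) {x : ∀ k, FD (S.F k) (Mon M D)}
    (hx : (gaq s.Q D).Adf (cnA s A (Z.c + Z.e * b)) x) :
    (gaq Z.sys.Q D).Adf (cnA Z.sys (Z.upz A) b) (Z.inn x) := by
  obtain ⟨L, hL, hT⟩ := Z.ifm_phi hx
  exact cut_adf (Φ := gaq Z.sys.Q D) (Z.ov (lb x)) (Z.DMA_ov hb (Gau.Adf.dm _ hx)) (Z.ifm x) (Z.ifm_meas x)
    (Z.ifm_ge hx) L hL hT

end ZW

end

end Pool.Agent.Helper89.RAD
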