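import Pool.Agent.Helper89.RAD.Zf
import Pool.Agent.Helper26.MT.Zo

/-! DEEP ZOOM: volumes (the construction of `Helper26/MT/Zo`). Optimal forms with condition `A` instead of the present
cells; the volume of the window `b` of the zoom is the volume of the window of the system divided by `1 - c`. -/

set_option autoImplicit false

namespace Pool.Agent.Helper89.RAD

open Finset Filter Topology Matrix Pool.Agent.Helper69.RK Pool.Agent.Helper31.EC Pool.Agent.Helper31.EC.Sp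
open Pool.Agent.Helper40.EL Pool.Agent.Helper89.LX Pool.Agent.Helper3.LF Pool.Agent.Helper84.MT Pool.Agent.Helper26.MZ
open Pool.Agent.Helper95.LF
open Pool.Agent.Helper3.PR (cutm cutm_cpd cutFD cut_typ exp_le)
open Pool.Agent.Helper3.ZM (aff MM afm afm_symm afm_nonneg phi_afm)
open Pool.Agent.Helper14.MC (adf_sub gx vx vol_eq vx_UB vx_nonneg vol_opt_le vol_opt_eq)

noncomputable section

variable {S : Sp} {M D : ℕ} {E : ℕ → ℕ} {ι : Type}

namespace ZW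

variable {s : MSys S M E ι} (Z : ZW s)

/-! ### volumes -/

theorem log_dl (k : ℕ) : Real.logb 2 (S.dl Z.c k) = -(Z.c * (S.F k).n) := by
  unfold Sp.dl
  rw [Real.logb_rpow (by norm_num) (by norm_num)]

/-- comparison of the exponents, from the zoom to the system -/
theorem gx_out (hD : 1 ≤ D) (y : ∀ k, FD (Z.sp.F k) (Mon M D)) (k : ℕ) (ω : (y k).l.T.Ω) {c : ℝ}
    (hc : Cpd c ((y k).g ω)) : Z.e * gx Z.sys.Q k ((y k).l.p.π ω) ((y k).g ω) ≤
      gx s.Q k ((Z.l k).p.π ((y k).l.p.π ω)) (Z.zfm y k ω) + (-(M * Z.c) + M / 2 * (1 / (S.F k).n)) := by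
  have hn := (S.F k).pos
  have he := Z.e_pos
  have hd := S.dl_pos Z.c k
  have hA : PdM (Z.zfm y k ω) := one_afm_pd _ _ hc.1 fun v => hc.psd.2 v
  have h1 := GQ_gain hD (S.dl 1 k) (S.dl Z.c k) hd (Z.zfm y k ω) ((y k).g ω) hA hc.1 hc.2.1
    (Z.oi k ((Z.l k).p.π ((y k).l.p.π ω))) (s.Q.v k ((Z.l k).p.π ((y k).l.p.π ω)))
    (afm_le_one_afm _ _ _)
  have h5 : aff (Z.oi k ((Z.l k).p.π ((y k).l.p.π ω))) (S.dl Z.c k)⁻¹ (s.Q.v k ((Z.l k).p.π ((y k).l.p.π ω))) =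
      Z.sys.Q.v k ((y k).l.p.π ω) := Z.aff_fr' k _
  rw [Z.dl_inv, h5] at h1
  have a1 : 1 ≤ GQ (Z.sp.dl 1 k) ((y k).g ω) (Z.sys.Q.v k ((y k).l.p.π ω)) := one_le_GQ _ hc.1 (fun v => hc.psd.2 v) _
  have a2 : 1 ≤ GQ (S.dl 1 k) (Z.zfm y k ω) (s.Q.v k ((Z.l k).p.π ((y k).l.p.π ω))) := one_le_GQ _ hA.1 hA.nonneg _
  have a4 := Real.logb_le_logb_of_le (b := 2) (by norm_num) (by linarith) h1
  rw [Real.logb_mul (by positivity) (by linarith), Real.logb_pow, Real.logb_mul (by norm_num) (by positivity),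
    Real.logb_self_eq_one (by norm_num), Real.logb_pow, Z.log_dl] at a4
  unfold gx
  rw [Z.sp_n]
  have e1 : Z.e * (Real.logb 2 (GQ (Z.sp.dl 1 k) ((y k).g ω) (Z.sys.Q.v k ((y k).l.p.π ω))) /
      (2 * (Z.e * (S.F k).n))) = Real.logb 2 (GQ (Z.sp.dl 1 k) ((y k).g ω) (Z.sys.Q.v k ((y k).l.p.π ω))) /
      (2 * (S.F k).n) := by
    field_simp
  rw [e1, div_le_iff₀ (by positivity)]
  refine a4.trans (le_of_eq ?_)
  push_cast
  field_simp
  ring

/-- comparison of the exponents, from the system to the zoom -/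
theorem gx_inn (x : ∀ k, FD (S.F k) (Mon M D)) (k : ℕ) (ω : ((Z.l k).am (x k).l).sp.Ω)
    (hω : ((Z.l k).am (x k).l).sp.μ ω ≠ 0) {c : ℝ} (hc : Cpd c ((x k).g (((Z.l k).am (x k).l).p2.π ω))) :
    gx s.Q k ((x k).l.p.π (((Z.l k).am (x k).l).p2.π ω)) ((x k).g (((Z.l k).am (x k).l).p2.π ω)) ≤
      Z.e * gx Z.sys.Q k (((Z.l k).am (x k).l).p1.π ω) (Z.ifm x k ω) + M * Z.c := by
  have hn := (S.F k).pos
  have he := Z.e_pos
  have hd := S.dl_pos Z.c k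
  have hB : PdM (Z.ifm x k ω) := one_afm_pd _ _ hc.1 fun v => hc.psd.2 v
  have h1 := GQ_loss (Z.sp.dl 1 k) (S.dl Z.c k) hd (Z.dl_c_le k) ((x k).g (((Z.l k).am (x k).l).p2.π ω))
    (Z.ifm x k ω) hc.1 (fun v => hc.psd.2 v) hB (Z.o0 k ((Z.l k).p.π (((Z.l k).am (x k).l).p1.π ω)))
    (Z.sys.Q.v k (((Z.l k).am (x k).l).p1.π ω)) (afm_le_one_afm _ _ _)
  have h5 : aff (Z.o0 k ((Z.l k).p.π (((Z.l k).am (x k).l).p1.π ω))) (S.dl Z.c k)
      (Z.sys.Q.v k (((Z.l k).am (x k).l).p1.π ω)) = s.Q.v k ((x k).l.p.π (((Z.l k).am (x k).l).p2.π ω)) := by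
    rw [← Z.ov_sup x k ω hω]
    exact (Z.aff_fr k _).symm
  rw [Z.dl_eq', h5] at h1
  have a1 : 1 ≤ GQ (S.dl 1 k) ((x k).g (((Z.l k).am (x k).l).p2.π ω))
    (s.Q.v k ((x k).l.p.π (((Z.l k).am (x k).l).p2.π ω))) := one_le_GQ _ hc.1 (fun v => hc.psd.2 v) _
  have a2 : 1 ≤ GQ (Z.sp.dl 1 k) (Z.ifm x k ω) (Z.sys.Q.v k (((Z.l k).am (x k).l).p1.π ω)) :=
    one_le_GQ _ hB.1 hB.nonneg _
  have a4 := Real.logb_le_logb_of_le (b := 2) (by norm_num) (by linarith) h1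
  rw [Real.logb_mul (by positivity) (by linarith), Real.logb_pow, Real.logb_inv, Real.logb_pow, Z.log_dl] at a4
  unfold gx
  rw [Z.sp_n]
  have e1 : Z.e * (Real.logb 2 (GQ (Z.sp.dl 1 k) (Z.ifm x k ω) (Z.sys.Q.v k (((Z.l k).am (x k).l).p1.π ω))) /
      (2 * (Z.e * (S.F k).n))) =
      Real.logb 2 (GQ (Z.sp.dl 1 k) (Z.ifm x k ω) (Z.sys.Q.v k (((Z.l k).am (x k).l).p1.π ω))) / (2 * (S.F k).n) := by
    field_simp
  rw [e1, div_le_iff₀ (by positivity)]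
  refine a4.trans (le_of_eq ?_)
  push_cast
  field_simp
  ring

/-- VOLUME of the form of the zoom in the system -/
theorem vol_out_le [Finite ι] (hD : 1 ≤ D) {A : Part S} (hA : Nul S fun k => (Z.l k).leak (A k)) {b : ℝ} (hb : 0 ≤ b)
    {y : ∀ k, FD (Z.sp.F k) (Mon M D)} (hy : (gaq Z.sys.Q D).Adf (cnA Z.sys (Z.upz A) b) y) : vol s.Q D (Z.out y) ≤ Z.e * vol Z.sys.Q D y := by
  have hx := Z.out_ad hA hb hy
  obtain ⟨C, hC, hbd⟩ := gx_bd hy
  obtain ⟨C', -, hbd'⟩ := gx_bd hx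
  have hUx := vx_UB hx
  have hUy := vx_UB hy
  have e1 : (fun k => ∑ ω, (y k).l.T.μ ω * (Z.e * gx Z.sys.Q k ((y k).l.p.π ω) ((y k).g ω))) =
      fun k => Z.e * vx Z.sys.Q y k := by
    funext k
    unfold vx
    rw [Finset.mul_sum]
    exact Finset.sum_congr rfl fun ω _ => by ring
  have e2 : (fun k => ∑ ω, (y k).l.T.μ ω * (gx s.Q k ((Z.out y k).l.p.π ω) ((Z.out y k).g ω))) = vx s.Q (Z.out y) :=
    rfl
  have hdiv : Tendsto (fun k => M / 2 * (1 / (S.F k).n)) UF (𝓝 0) := by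
    have := (S.div_n_tendsto 1).const_mul ((M : ℝ) / 2)
    rwa [mul_zero] at this
  have hsub : UB (fun k => ∑ ω, (y k).l.T.μ ω * (Z.e * gx Z.sys.Q k ((y k).l.p.π ω) ((y k).g ω) + M * Z.c)) := by
    have e3 : (fun k => ∑ ω, (y k).l.T.μ ω * (Z.e * gx Z.sys.Q k ((y k).l.p.π ω) ((y k).g ω) + M * Z.c)) =
        fun k => Z.e * vx Z.sys.Q y k + M * Z.c := by
      funext k
      rw [← congrFun e1 k]
      have e4 : ∀ ω, (y k).l.T.μ ω * (Z.e * gx Z.sys.Q k ((y k).l.p.π ω) ((y k).g ω) + M * Z.c) =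
          (y k).l.T.μ ω * (Z.e * gx Z.sys.Q k ((y k).l.p.π ω) ((y k).g ω)) + (y k).l.T.μ ω * (M * Z.c) :=
        fun ω => by ring
      rw [Finset.sum_congr rfl fun ω _ => e4 ω, Finset.sum_add_distrib, ← Finset.sum_mul,
        Pool.Agent.Helper3.PR.sum_mu, one_mul]
    rw [e3]
    exact (hUy.const_mul Z.e).add (UB_const _)
  have key := ul_avg_le (fun k => (y k).l.T) (fun k ω => gx s.Q k ((Z.out y k).l.p.π ω) ((Z.out y k).g ω))
    (fun k ω => Z.e * gx Z.sys.Q k ((y k).l.p.π ω) ((y k).g ω) + M * Z.c)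
    (fun k ω => Cpd ((gaq s.Q D).cp k) (Z.zfm y k ω)) (fun k => M / 2 * (1 / (S.F k).n)) hdiv (Z.e * C + M * Z.c)
    (Z.out_typ hy) (by
      filter_upwards [hy 1 one_pos] with k h2 ω hω hE
      have a0 := Z.out_g k ω hE
      have a1 := Z.gx_out hD y k ω (h2.2.1 ω hω).1
      rw [a0]
      have a2 : (Z.out y k).l.p.π ω = (Z.l k).p.π ((y k).l.p.π ω) := rfl
      rw [a2]
      linarith) (by
      filter_upwards [hbd] with k h2 ω hω
      have := mul_le_mul_of_nonneg_left (h2 ω hω).2 Z.e_pos.le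
      linarith) (by
      filter_upwards [hbd'] with k h2 ω hω
      exact (h2 ω hω).1) hsub hUx
  have e3 : (fun k => ∑ ω, (y k).l.T.μ ω * (Z.e * gx Z.sys.Q k ((y k).l.p.π ω) ((y k).g ω) + M * Z.c)) =
      fun k => Z.e * vx Z.sys.Q y k + M * Z.c := by
    funext k
    rw [← congrFun e1 k]
    have e4 : ∀ ω, (y k).l.T.μ ω * (Z.e * gx Z.sys.Q k ((y k).l.p.π ω) ((y k).g ω) + M * Z.c) =
        (y k).l.T.μ ω * (Z.e * gx Z.sys.Q k ((y k).l.p.π ω) ((y k).g ω)) + (y k).l.T.μ ω * (M * Z.c) :=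
      fun ω => by ring
    rw [Finset.sum_congr rfl fun ω _ => e4 ω, Finset.sum_add_distrib, ← Finset.sum_mul,
      Pool.Agent.Helper3.PR.sum_mu, one_mul]
  have key2 : ul (fun k => Z.e * vx Z.sys.Q y k + M * Z.c) ≤ ul (vx s.Q (Z.out y)) := by
    rw [← e3]
    exact key
  rw [ul_add (hUy.const_mul Z.e) (UB_const _), ul_const_mul _ hUy, ul_const] at key2
  rw [vol_eq, vol_eq]
  have hce := Z.c_add_e
  have h9 : Z.e * ((M : ℝ) - ul (vx Z.sys.Q y)) = M - M * Z.c - Z.e * ul (vx Z.sys.Q y) := by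
    have : (M : ℝ) = M * Z.c + M * Z.e := by rw [← mul_add, hce, mul_one]
    linarith
  rw [h9]
  linarith

/-- VOLUME of the form of the system in the zoom -/
theorem vol_inn_le [Finite ι] {A : Part S} {b : ℝ} (hb : 0 ≤ b) {x : ∀ k, FD (S.F k) (Mon M D)}
    (hx : (gaq s.Q D).Adf (cnA s A (Z.c + Z.e * b)) x) : Z.e * vol Z.sys.Q D (Z.inn x) ≤ vol s.Q D x := by
  have hy := Z.inn_ad hb hx
  obtain ⟨C, hC, hbd⟩ := gx_bd hx
  obtain ⟨C', -, hbd'⟩ := gx_bd hy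
  have hUx := vx_UB hx
  have hUy := vx_UB hy
  have e1 : (fun k => ∑ ω, ((Z.l k).am (x k).l).sp.μ ω * gx s.Q k ((x k).l.p.π (((Z.l k).am (x k).l).p2.π ω))
      ((x k).g (((Z.l k).am (x k).l).p2.π ω))) = vx s.Q x := by
    funext k
    exact sum_push ((Z.l k).am (x k).l).p2 (fun ω => gx s.Q k ((x k).l.p.π ω) ((x k).g ω))
  have e2 : (fun k => ∑ ω, ((Z.l k).am (x k).l).sp.μ ω * (Z.e * gx Z.sys.Q k (((Z.l k).am (x k).l).p1.π ω)
      ((Z.inn x k).g ω) + M * Z.c)) = fun k => Z.e * vx Z.sys.Q (Z.inn x) k + M * Z.c := by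
    funext k
    have e4 : ∀ ω, ((Z.l k).am (x k).l).sp.μ ω * (Z.e * gx Z.sys.Q k (((Z.l k).am (x k).l).p1.π ω)
        ((Z.inn x k).g ω) + M * Z.c) = Z.e * (((Z.l k).am (x k).l).sp.μ ω *
        gx Z.sys.Q k (((Z.l k).am (x k).l).p1.π ω) ((Z.inn x k).g ω)) + ((Z.l k).am (x k).l).sp.μ ω * (M * Z.c) :=
      fun ω => by ring
    rw [Finset.sum_congr rfl fun ω _ => e4 ω, Finset.sum_add_distrib, ← Finset.sum_mul, ← Finset.mul_sum,
      Pool.Agent.Helper3.PR.sum_mu, one_mul]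
    rfl
  have key := ul_avg_le (fun k => ((Z.l k).am (x k).l).sp)
    (fun k ω => Z.e * gx Z.sys.Q k (((Z.l k).am (x k).l).p1.π ω) ((Z.inn x k).g ω) + M * Z.c)
    (fun k ω => gx s.Q k ((x k).l.p.π (((Z.l k).am (x k).l).p2.π ω)) ((x k).g (((Z.l k).am (x k).l).p2.π ω)))
    (fun k ω => Cpd ((gaq Z.sys.Q D).cp k) (Z.ifm x k ω)) (fun _ => 0) tendsto_const_nhds C
    (Z.inn_typ hx) (by
      filter_upwards [hx 1 one_pos] with k h2 ω hω hE
      have a0 := Z.inn_g k ω hE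
      have a1 := Z.gx_inn x k ω hω (h2.2.1 _ (((Z.l k).am (x k).l).p2.supp ω hω)).1
      rw [a0]
      linarith) (by
      filter_upwards [hbd] with k h2 ω hω
      exact (h2 _ (((Z.l k).am (x k).l).p2.supp ω hω)).2) (by
      filter_upwards [hbd'] with k h2 ω hω
      have h3 := (h2 ω hω).1
      have h4 := mul_nonneg Z.e_pos.le h3
      have h5 : (0 : ℝ) ≤ M * Z.c := mul_nonneg (Nat.cast_nonneg M) Z.h0
      exact add_nonneg h4 h5) (by rw [e1]; exact hUx) (by rw [e2]; exact (hUy.const_mul Z.e).add (UB_const _))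
  rw [e1, e2, ul_add (hUy.const_mul Z.e) (UB_const _), ul_const_mul _ hUy, ul_const] at key
  rw [vol_eq, vol_eq]
  have hce := Z.c_add_e
  have h9 : Z.e * ((M : ℝ) - ul (vx Z.sys.Q (Z.inn x))) = M - M * Z.c - Z.e * ul (vx Z.sys.Q (Z.inn x)) := by
    have : (M : ℝ) = M * Z.c + M * Z.e := by rw [← mul_add, hce, mul_one]
    linarith
  rw [h9]
  linarith

/-- THE CANONICAL VOLUMES of the zoom and of the system -/
theorem vol_opt [Finite ι] (hD : 1 ≤ D) {A : Part S} (hA : Nul S fun k => (Z.l k).leak (A k)) {b : ℝ} (hb : 0 ≤ b)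
    {y : ∀ k, FD (Z.sp.F k) (Mon M D)} (hy : (gaq Z.sys.Q D).Optf (cnA Z.sys (Z.upz A) b) y)
    {x : ∀ k, FD (S.F k) (Mon M D)} (hx : (gaq s.Q D).Optf (cnA s A (Z.c + Z.e * b)) x) : vol s.Q D x = Z.e * vol Z.sys.Q D y := by
  apply le_antisymm
  · exact (vol_opt_le hx (Z.out_ad hA hb hy.1)).trans (Z.vol_out_le hD hA hb hy.1)
  · refine le_trans ?_ (Z.vol_inn_le hb hx.1)
    exact mul_le_mul_of_nonneg_left (vol_opt_le hy (Z.inn_ad hb hx.1)) Z.e_pos.le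

end ZW

end

end Pool.Agent.Helper89.RAD
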